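import Mathlib

/-!
Orbit transversals, Schreier generators and the Sims filter, written over an abstract set of
operations; transfer along homomorphisms, and correctness for permutations of `Fin m`.
-/

set_option linter.unusedSimpArgs false

namespace Pool.Agent.Lib.MP_80ff63_lc

open Function

/-- The operations used by the group algorithms. -/
structure Ops (G X : Type) : Type where
  mul : G → G → G
  inv : G → G
  ap : G → X → X
  one : G
  lt : X → X → Bool
  pts : List X

namespace Ops

variable {G X G' X' : Type} [DecidableEq X] [DecidableEq X'] (O : Ops G X)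

/-- One round of the orbit computation. -/
def orbStep (L : List G) (p : X) (ts : List G) : List G :=
  ((ts.flatMap fun t => L.map fun g => O.mul g t).filter
    (fun c => ts.all fun t => !decide (O.ap t p = O.ap c p))).take 1 ++ ts

/-- A transversal for the orbit of `p`. -/
def orb (L : List G) (p : X) : List G := O.pts.foldl (fun ts _ => O.orbStep L p ts) [O.one]

/-- The element of the transversal `ts` sending `p` to `q`. -/
def tr (ts : List G) (p q : X) : G := (ts.filter fun t => decide (O.ap t p = q)).headD O.one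

/-- Schreier generators of the stabiliser of `p`. -/
def schreier (L : List G) (p : X) : List G :=
  (O.orb L p).flatMap fun t => L.map fun g =>
    O.mul (O.inv (O.tr (O.orb L p) p (O.ap (O.mul g t) p))) (O.mul g t)

/-- `f` and `g` have the first moved point `i` and agree there. -/
def mtch (f g : G) (i : X) : Bool :=
  (O.pts.all fun j => !O.lt j i || (decide (O.ap f j = j) && decide (O.ap g j = j))) &&
    (decide (O.ap f i = O.ap g i) && !decide (O.ap g i = i))

/-- Sift `g` through the table `F`. -/
def sift (F : List G) (g : G) : G :=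
  O.pts.foldl (fun g i => O.mul (O.inv ((F.filter fun f => O.mtch f g i).headD O.one)) g) g

/-- Test for the identity. -/
def isOne (g : G) : Bool := O.pts.all fun i => decide (O.ap g i = i)

/-- The Sims filter. -/
def sims (L : List G) : List G :=
  L.foldl (fun F g => bif O.isOne (O.sift F g) then F else O.sift F g :: F) []

theorem length_orb (L : List G) (p : X) : (O.orb L p).length ≤ O.pts.length + 1 := by
  have : ∀ (r : List X) (ts : List G),
      (r.foldl (fun ts _ => O.orbStep L p ts) ts).length ≤ r.length + ts.length := by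
    intro r
    induction r with
    | nil => simp
    | cons a r ih =>
      intro ts
      refine (ih _).trans ?_
      simp only [orbStep, List.length_append, List.length_take, List.length_cons]
      omega
  exact this _ _

/-- A homomorphism of operations. -/
structure Hom (O : Ops G X) (O' : Ops G' X') (f : G → G') (φ : X → X') : Prop where
  mul : ∀ g h, O'.mul (f g) (f h) = f (O.mul g h)
  inv : ∀ g, O'.inv (f g) = f (O.inv g)
  ap : ∀ g x, O'.ap (f g) (φ x) = φ (O.ap g x)
  one : O'.one = f O.one
  lt : ∀ x y, O'.lt (φ x) (φ y) = O.lt x y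
  pts : O'.pts = O.pts.map φ
  inj : Injective φ

variable {O} {O' : Ops G' X'} {f : G → G'} {φ : X → X'}

theorem Hom.orbStep (H : Hom O O' f φ) (L : List G) (p : X) (ts : List G) :
    O'.orbStep (L.map f) (φ p) (ts.map f) = (O.orbStep L p ts).map f := by
  have e : ((ts.map f).flatMap fun t => (L.map f).map fun g => O'.mul g t) =
      (ts.flatMap fun t => L.map fun g => O.mul g t).map f := by
    simp [List.flatMap_map, List.map_flatMap, H.mul, Function.comp_def]
  unfold Ops.orbStep
  rw [e, List.filter_map, List.map_append, List.map_take]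
  congr 3
  refine List.filter_congr fun c _ => ?_
  simp [List.all_map, Function.comp_def, H.ap, H.inj.eq_iff]

theorem Hom.orb (H : Hom O O' f φ) (L : List G) (p : X) :
    O'.orb (L.map f) (φ p) = (O.orb L p).map f := by
  unfold Ops.orb
  rw [H.pts, H.one, List.foldl_map]
  exact List.foldl_hom (List.map f) (g₁ := fun ts _ => O.orbStep L p ts) (init := [O.one])
    (fun ts _ => H.orbStep L p ts)

theorem headD_map {α β : Type} (f : α → β) (l : List α) (a : α) :
    (l.map f).headD (f a) = f (l.headD a) := by cases l <;> rfl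

theorem Hom.tr (H : Hom O O' f φ) (ts : List G) (p q : X) :
    O'.tr (ts.map f) (φ p) (φ q) = f (O.tr ts p q) := by
  unfold Ops.tr
  rw [H.one, List.filter_map, headD_map]
  congr 2
  refine List.filter_congr fun c _ => ?_
  simp [H.ap, H.inj.eq_iff]

theorem Hom.schreier (H : Hom O O' f φ) (L : List G) (p : X) :
    O'.schreier (L.map f) (φ p) = (O.schreier L p).map f := by
  unfold Ops.schreier
  rw [H.orb]
  simp [List.flatMap_map, List.map_flatMap, H.mul, H.ap, H.tr, H.inv, Function.comp_def]

theorem Hom.mtch (H : Hom O O' f φ) (a g : G) (i : X) :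
    O'.mtch (f a) (f g) (φ i) = O.mtch a g i := by
  unfold Ops.mtch
  simp [H.pts, List.all_map, Function.comp_def, H.ap, H.lt, H.inj.eq_iff]

theorem Hom.sift (H : Hom O O' f φ) (F : List G) (g : G) :
    O'.sift (F.map f) (f g) = f (O.sift F g) := by
  unfold Ops.sift
  rw [H.pts, List.foldl_map]
  refine List.foldl_hom f (g₁ := fun g i =>
    O.mul (O.inv ((F.filter fun a => O.mtch a g i).headD O.one)) g) (fun g i => ?_)
  rw [H.one, List.filter_map, headD_map, H.inv, H.mul]
  congr 4
  refine List.filter_congr fun c _ => ?_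
  simp [H.mtch]

theorem Hom.isOne (H : Hom O O' f φ) (g : G) : O'.isOne (f g) = O.isOne g := by
  unfold Ops.isOne
  simp [H.pts, List.all_map, Function.comp_def, H.ap, H.inj.eq_iff]

theorem Hom.sims (H : Hom O O' f φ) (L : List G) : O'.sims (L.map f) = (O.sims L).map f := by
  unfold Ops.sims
  rw [List.foldl_map]
  refine List.foldl_hom (List.map f) (g₁ := fun F g =>
    bif O.isOne (O.sift F g) then F else O.sift F g :: F) (init := []) (fun F g => ?_)
  rw [H.sift, H.isOne]
  cases O.isOne (O.sift F g) <;> rfl

end Ops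

/-- The operations on permutations of `Fin m`. -/
def permOps (m : ℕ) : Ops (Equiv.Perm (Fin m)) (Fin m) where
  mul g h := g * h
  inv g := g⁻¹
  ap g x := g x
  one := 1
  lt x y := decide (x < y)
  pts := List.finRange m

/-- The group generated by a list. -/
def gen {G : Type} [Group G] (L : List G) : Subgroup G := Subgroup.closure {g | g ∈ L}

theorem mem_gen {G : Type} [Group G] {L : List G} {g : G} (h : g ∈ L) : g ∈ gen L :=
  Subgroup.subset_closure h

theorem gen_le {G : Type} [Group G] {L : List G} {H : Subgroup G} (h : ∀ g ∈ L, g ∈ H) :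
    gen L ≤ H := (Subgroup.closure_le H).2 h

theorem gen_induction {G : Type} [Group G] [Finite G] {L : List G} {P : G → Prop} (h1 : P 1)
    (hm : ∀ g ∈ L, ∀ h, P h → P (g * h)) {x : G} (hx : x ∈ gen L) : P x := by
  have : x ∈ Submonoid.closure {g | g ∈ L} := by
    rw [← Subgroup.closure_toSubmonoid_of_finite]
    exact hx
  clear hx
  induction this using Submonoid.closure_induction_left with
  | one => exact h1
  | mul_left g hg h _ ih => exact hm g hg h ih

section perm

variable {m : ℕ}

theorem orb_spec (L : List (Equiv.Perm (Fin m))) (p : Fin m) :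
    1 ∈ (permOps m).orb L p ∧ (∀ t ∈ (permOps m).orb L p, t ∈ gen L) ∧
      (((permOps m).orb L p).map (fun t => t p)).Nodup ∧
      ∀ t ∈ (permOps m).orb L p, ∀ g ∈ L, ∃ t' ∈ (permOps m).orb L p, t' p = g (t p) := by
  let I : ℕ → List (Equiv.Perm (Fin m)) → Prop := fun n ts =>
    1 ∈ ts ∧ (∀ t ∈ ts, t ∈ gen L) ∧ (ts.map (fun t => t p)).Nodup ∧
      ((∀ t ∈ ts, ∀ g ∈ L, ∃ t' ∈ ts, t' p = g (t p)) ∨ n < ts.length)
  have key : ∀ (r : List (Fin m)) (n : ℕ) (ts : List (Equiv.Perm (Fin m))), I n ts →
      I (n + r.length) (r.foldl (fun ts _ => (permOps m).orbStep L p ts) ts) := by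
    intro r
    induction r with
    | nil => exact fun n ts h => h
    | cons a r ih =>
      rintro n ts ⟨h1, h2, h3, h4⟩
      rw [List.foldl_cons, List.length_cons, show n + (r.length + 1) = n + 1 + r.length by omega]
      refine ih _ _ ?_
      unfold Ops.orbStep
      rcases e : (ts.flatMap fun t => L.map fun g => (permOps m).mul g t).filter
        (fun c => ts.all fun t => !decide ((permOps m).ap t p = (permOps m).ap c p)) with _ | ⟨c, cs⟩
      · refine ⟨h1, h2, h3, Or.inl fun t ht g hg => ?_⟩
        have := List.filter_eq_nil_iff.1 e (g * t)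
          (List.mem_flatMap.2 ⟨t, ht, List.mem_map.2 ⟨g, hg, rfl⟩⟩)
        simpa [permOps] using this
      · have hc : c ∈ (ts.flatMap fun t => L.map fun g => (permOps m).mul g t).filter
            (fun c => ts.all fun t => !decide ((permOps m).ap t p = (permOps m).ap c p)) := by
          rw [e]; simp
        obtain ⟨hc1, hc2⟩ := List.mem_filter.1 hc
        obtain ⟨t, ht, hc1⟩ := List.mem_flatMap.1 hc1
        obtain ⟨g, hg, rfl⟩ := List.mem_map.1 hc1
        have hc3 : ∀ t' ∈ ts, ¬ t' p = g (t p) := by simpa [permOps] using hc2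
        refine ⟨by simp [h1], ?_, ?_, Or.inr ?_⟩
        · intro t' ht'
          rcases List.mem_cons.1 ht' with rfl | ht'
          · exact (gen L).mul_mem (mem_gen hg) (h2 t ht)
          · exact h2 t' ht'
        · refine List.nodup_cons.2 ⟨fun h => ?_, h3⟩
          obtain ⟨t', ht', e'⟩ := List.mem_map.1 h
          exact hc3 t' ht' e'
        · rcases h4 with h4 | h4
          · obtain ⟨t', ht', e'⟩ := h4 t ht g hg
            exact absurd e' (hc3 t' ht')
          · simpa using h4
  obtain ⟨h1, h2, h3, h4⟩ := key (List.finRange m) 0 [1]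
    ⟨by simp, by simp [(gen L).one_mem], by simp, Or.inr (by simp)⟩
  refine ⟨h1, h2, h3, h4.resolve_right fun h => ?_⟩
  have := h3.length_le_card
  simp only [List.length_map, Fintype.card_fin, List.length_finRange, zero_add] at this h
  omega

theorem orb_complete (L : List (Equiv.Perm (Fin m))) (p : Fin m) {h : Equiv.Perm (Fin m)}
    (hh : h ∈ gen L) : ∃ t ∈ (permOps m).orb L p, t p = h p := by
  obtain ⟨h1, -, -, h4⟩ := orb_spec L p
  refine gen_induction (P := fun h => ∃ t ∈ (permOps m).orb L p, t p = h p) ⟨1, h1, rfl⟩ ?_ hh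
  rintro g hg h ⟨t, ht, e⟩
  obtain ⟨t', ht', e'⟩ := h4 t ht g hg
  exact ⟨t', ht', by rw [e', e]; rfl⟩

theorem tr_spec {ts : List (Equiv.Perm (Fin m))} {p q : Fin m} (h : ∃ t ∈ ts, t p = q) :
    (permOps m).tr ts p q ∈ ts ∧ (permOps m).tr ts p q p = q := by
  obtain ⟨t, ht, e⟩ := h
  unfold Ops.tr
  rcases e' : ts.filter (fun t => decide ((permOps m).ap t p = q)) with _ | ⟨c, cs⟩
  · exact absurd (by simpa [permOps] using e) (List.filter_eq_nil_iff.1 e' t ht)
  · have hc : c ∈ ts.filter (fun t => decide ((permOps m).ap t p = q)) := by rw [e']; simp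
    obtain ⟨h1, h2⟩ := List.mem_filter.1 hc
    exact ⟨h1, by simpa [permOps] using h2⟩

theorem schreier_mem {L : List (Equiv.Perm (Fin m))} {p : Fin m} {s : Equiv.Perm (Fin m)}
    (hs : s ∈ (permOps m).schreier L p) : s ∈ gen L ∧ s p = p := by
  obtain ⟨-, h2, -, h4⟩ := orb_spec L p
  obtain ⟨t, ht, hs⟩ := List.mem_flatMap.1 hs
  obtain ⟨g, hg, rfl⟩ := List.mem_map.1 hs
  obtain ⟨h5, h6⟩ := tr_spec (h4 t ht g hg)
  refine ⟨(gen L).mul_mem ((gen L).inv_mem (h2 _ h5)) ((gen L).mul_mem (mem_gen hg) (h2 t ht)), ?_⟩
  exact Equiv.Perm.inv_eq_iff_eq.2 h6.symm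

theorem schreier_complete {L : List (Equiv.Perm (Fin m))} {p : Fin m} {h : Equiv.Perm (Fin m)}
    (hh : h ∈ gen L) (hp : h p = p) : h ∈ gen ((permOps m).schreier L p) := by
  obtain ⟨h1, -, h3, h4⟩ := orb_spec L p
  have : ∃ t ∈ (permOps m).orb L p, t⁻¹ * h ∈ gen ((permOps m).schreier L p) := by
    refine gen_induction
      (P := fun h => ∃ t ∈ (permOps m).orb L p, t⁻¹ * h ∈ gen ((permOps m).schreier L p))
      ⟨1, h1, by simp [Subgroup.one_mem]⟩ ?_ hh
    rintro g hg h ⟨t, ht, e⟩
    obtain ⟨h5, -⟩ := tr_spec (h4 t ht g hg)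
    refine ⟨_, h5, ?_⟩
    have h6 : ((permOps m).tr ((permOps m).orb L p) p (g (t p)))⁻¹ * (g * t) ∈
        gen ((permOps m).schreier L p) :=
      mem_gen (List.mem_flatMap.2 ⟨t, ht, List.mem_map.2 ⟨g, hg, rfl⟩⟩)
    have := (gen _).mul_mem h6 e
    simpa [mul_assoc] using this
  obtain ⟨t, ht, e⟩ := this
  have h5 : (t⁻¹ * h) p = p := by
    have : gen ((permOps m).schreier L p) ≤ MulAction.stabilizer (Equiv.Perm (Fin m)) p :=
      gen_le fun s hs => (schreier_mem hs).2
    exact this e
  have h6 : t p = (1 : Equiv.Perm (Fin m)) p := by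
    rw [Equiv.Perm.mul_apply, hp] at h5
    exact (Equiv.Perm.inv_eq_iff_eq.1 h5).symm
  have h7 : t = 1 := List.inj_on_of_nodup_map h3 ht h1 h6
  simpa [h7] using e

theorem mtch_iff (f g : Equiv.Perm (Fin m)) (i : Fin m) : (permOps m).mtch f g i = true ↔
    (∀ j, j < i → f j = j ∧ g j = j) ∧ f i = g i ∧ g i ≠ i := by
  simp only [Ops.mtch, permOps, Bool.and_eq_true, List.all_eq_true, List.mem_finRange,
    Bool.or_eq_true, Bool.not_eq_true', decide_eq_false_iff_not, decide_eq_true_eq, true_imp_iff,
    imp_iff_not_or, ne_eq, not_true, false_or]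

theorem sift_spec (F : List (Equiv.Perm (Fin m))) (g : Equiv.Perm (Fin m)) :
    (permOps m).sift F g * g⁻¹ ∈ gen F ∧ ((permOps m).sift F g = 1 ∨
      ∀ f ∈ F, ∀ i, ¬ (permOps m).mtch f ((permOps m).sift F g) i = true) := by
  let I : ℕ → Equiv.Perm (Fin m) → Prop := fun n r => r * g⁻¹ ∈ gen F ∧
    ((∀ j : Fin m, (j : ℕ) < n → r j = j) ∨ ∃ i : Fin m, (i : ℕ) < n ∧ r i ≠ i ∧
      (∀ j, j < i → r j = j) ∧ ∀ f ∈ F, ¬ (permOps m).mtch f r i = true)
  have key : ∀ (l : List (Fin m)) (n : ℕ) (r : Equiv.Perm (Fin m)),
      l.map Fin.val = List.range' n l.length → I n r →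
      I (n + l.length) (l.foldl (fun g i => (permOps m).mul ((permOps m).inv
        ((F.filter fun f => (permOps m).mtch f g i).headD (permOps m).one)) g) r) := by
    intro l
    induction l with
    | nil => exact fun n r _ h => h
    | cons a l ih =>
      rintro n r hl ⟨h1, h2⟩
      simp only [List.map_cons, List.length_cons, List.range'_succ, List.cons.injEq] at hl
      obtain ⟨ha, hl⟩ := hl
      rw [List.foldl_cons, List.length_cons, show n + (l.length + 1) = n + 1 + l.length by omega]
      refine ih _ _ hl ?_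
      rcases e : F.filter (fun f => (permOps m).mtch f r a) with _ | ⟨c, cs⟩
      · have e1 : (permOps m).mul ((permOps m).inv (List.headD [] (permOps m).one)) r = r := by
          simp [permOps]
        rw [e1]
        refine ⟨h1, ?_⟩
        rcases h2 with h2 | ⟨i, h2, h3⟩
        · by_cases h3 : r a = a
          · refine Or.inl fun j hj => ?_
            by_cases h4 : (j : ℕ) < n
            · exact h2 j h4
            · rw [show j = a from Fin.ext (by omega)]; exact h3
          · exact Or.inr ⟨a, by omega, h3, fun j hj => h2 j (by rw [← ha]; exact hj),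
              List.filter_eq_nil_iff.1 e⟩
        · exact Or.inr ⟨i, by omega, h3⟩
      · have hc : c ∈ F.filter (fun f => (permOps m).mtch f r a) := by rw [e]; simp
        obtain ⟨hc1, hc2⟩ := List.mem_filter.1 hc
        obtain ⟨h3, h4, h5⟩ := (mtch_iff c r a).1 hc2
        have e1 : (permOps m).mul ((permOps m).inv (List.headD (c :: cs) (permOps m).one)) r =
            c⁻¹ * r := rfl
        rw [e1]
        refine ⟨by rw [mul_assoc]; exact (gen F).mul_mem ((gen F).inv_mem (mem_gen hc1)) h1,
          Or.inl fun j hj => ?_⟩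
        rw [Equiv.Perm.mul_apply, Equiv.Perm.inv_eq_iff_eq]
        by_cases h6 : j < a
        · rw [(h3 j h6).1, (h3 j h6).2]
        · rw [show j = a from Fin.ext (by rw [Fin.lt_def] at h6; omega)]
          exact h4.symm
  obtain ⟨h1, h2⟩ := key (List.finRange m) 0 g (by simp [List.range_eq_range'])
    ⟨by simp [Subgroup.one_mem], Or.inl fun j hj => absurd hj (Nat.not_lt_zero _)⟩
  refine ⟨h1, ?_⟩
  rcases h2 with h2 | ⟨i, -, h3, h4, h5⟩
  · exact Or.inl (Equiv.ext fun j => h2 j (by simp))
  · refine Or.inr fun f hf i' h => ?_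
    obtain ⟨h6, h7, h8⟩ := (mtch_iff _ _ _).1 h
    rcases lt_trichotomy i i' with h9 | rfl | h9
    · exact h3 (h6 i h9).2
    · exact h5 f hf h
    · exact h8 (h4 i' h9)

theorem isOne_iff (g : Equiv.Perm (Fin m)) : (permOps m).isOne g = true ↔ g = 1 := by
  simp [Ops.isOne, permOps, Equiv.ext_iff]

theorem length_le_of_table {F : List (Equiv.Perm (Fin m))} (h1 : ∀ f ∈ F, f ≠ 1)
    (h2 : F.Pairwise (fun g f => ∀ i, ¬ (permOps m).mtch f g i = true)) : F.length ≤ m * m := by
  classical
  have ex : ∀ f : Equiv.Perm (Fin m), f ≠ 1 → ∃ i, f i ≠ i ∧ ∀ j, j < i → f j = j := by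
    intro f hf
    have hne : (Finset.univ.filter fun i => f i ≠ i).Nonempty := by
      by_contra h
      rw [Finset.not_nonempty_iff_eq_empty, Finset.filter_eq_empty_iff] at h
      exact hf (Equiv.ext fun i => by simpa using h (Finset.mem_univ i))
    refine ⟨Finset.min' _ hne, (Finset.mem_filter.1 (Finset.min'_mem _ hne)).2, fun j hj => ?_⟩
    by_contra h
    exact absurd (Finset.min'_le _ j (by simpa using h)) (not_le.2 hj)
  rcases F with _ | ⟨f₀, F₀⟩
  · simp
  have : Nonempty (Fin m) := ⟨(ex f₀ (h1 f₀ (by simp))).choose⟩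
  choose! ι hι using ex
  have hn : ((f₀ :: F₀).map fun f => (ι f, f (ι f))).Nodup := by
    rw [List.Nodup, List.pairwise_map]
    refine h2.imp_of_mem fun {g f} hg hf h e => ?_
    obtain ⟨e1, e2⟩ := Prod.mk.inj e
    refine h (ι g) ((mtch_iff _ _ _).2 ⟨fun j hj => ⟨(hι f (h1 f hf)).2 j (e1 ▸ hj),
      (hι g (h1 g hg)).2 j hj⟩, ?_, (hι g (h1 g hg)).1⟩)
    rw [e2, e1]
  simpa using hn.length_le_card

theorem sims_spec (L : List (Equiv.Perm (Fin m))) :
    gen ((permOps m).sims L) = gen L ∧ ((permOps m).sims L).length ≤ m * m := by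
  have key : ∀ (l F : List (Equiv.Perm (Fin m))), (∀ f ∈ F, f ≠ 1) →
      F.Pairwise (fun g f => ∀ i, ¬ (permOps m).mtch f g i = true) →
      gen (l.foldl (fun F g => bif (permOps m).isOne ((permOps m).sift F g) then F
        else (permOps m).sift F g :: F) F) = gen F ⊔ gen l ∧
      (l.foldl (fun F g => bif (permOps m).isOne ((permOps m).sift F g) then F
        else (permOps m).sift F g :: F) F).length ≤ m * m := by
    intro l
    induction l with
    | nil =>
      intro F h1 h2
      exact ⟨by simp [gen], length_le_of_table h1 h2⟩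
    | cons g l ih =>
      intro F h1 h2
      obtain ⟨h3, h4⟩ := sift_spec F g
      have hl : gen l ≤ gen (g :: l) := gen_le fun x hx => mem_gen (by simp [hx])
      have hg : g ∈ gen (g :: l) := mem_gen (by simp)
      rw [List.foldl_cons]
      rcases e : (permOps m).isOne ((permOps m).sift F g) with _ | _
      · have h5 : (permOps m).sift F g ≠ 1 := fun h => by simp [(isOne_iff _).2 h] at e
        obtain ⟨h6, h7⟩ := ih ((permOps m).sift F g :: F)
          (fun f hf => by
            rcases List.mem_cons.1 hf with rfl | hf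
            · exact h5
            · exact h1 f hf)
          (List.pairwise_cons.2 ⟨h4.resolve_left h5, h2⟩)
        refine ⟨h6.trans (le_antisymm ?_ ?_), h7⟩
        · refine sup_le (gen_le fun x hx => ?_) (hl.trans le_sup_right)
          rcases List.mem_cons.1 hx with rfl | hx
          · have := Subgroup.mul_mem_sup h3 hg
            simpa using this
          · exact Subgroup.mem_sup_left (mem_gen hx)
        · have hF : gen F ≤ gen ((permOps m).sift F g :: F) :=
            gen_le fun x hx => mem_gen (by simp [hx])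
          refine sup_le (hF.trans le_sup_left) (gen_le fun x hx => ?_)
          rcases List.mem_cons.1 hx with rfl | hx
          · have := (gen _).mul_mem ((gen _).inv_mem (hF h3))
              (mem_gen (L := (permOps m).sift F x :: F) List.mem_cons_self)
            exact Subgroup.mem_sup_left (by simpa using this)
          · exact Subgroup.mem_sup_right (mem_gen hx)
      · obtain ⟨h6, h7⟩ := ih F h1 h2
        refine ⟨h6.trans (le_antisymm (sup_le_sup_left hl _) ?_), h7⟩
        refine sup_le le_sup_left (gen_le fun x hx => ?_)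
        rcases List.mem_cons.1 hx with rfl | hx
        · rw [(isOne_iff _).1 e, one_mul, inv_mem_iff] at h3
          exact Subgroup.mem_sup_left h3
        · exact Subgroup.mem_sup_right (mem_gen hx)
  obtain ⟨h1, h2⟩ := key L [] (by simp) List.Pairwise.nil
  exact ⟨h1.trans (by simp [gen]), h2⟩

end perm

end Pool.Agent.Lib.MP_80ff63_lc
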