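import Pool.Agent.Lib.MP_80ff63_lc.Prog
import Pool.Agent.Lib.MP_80ff63_lc.Group

/-!
The listing algorithm on lists of numbers; it can be replayed in polynomial time.
-/

set_option linter.unusedSimpArgs false

namespace Pool.Agent.Lib.MP_80ff63_lc

open Function Pool.Agent.Shared N487b59b3 N68a2faeb PolyTime Prog

/-- The entry `i` of a list. -/
def app (g : List ℕ) (i : ℕ) : ℕ := (g.drop i).headD 0

/-- Product of permutations. -/
def mulL (pts g h : List ℕ) : List ℕ := pts.map fun i => min (app g (app h i)) pts.length

/-- Preimage of a point. -/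
def preL (pts g : List ℕ) (j : ℕ) : ℕ := (pts.filter fun i => decide (app g i = j)).headD 0

/-- Inverse of a permutation. -/
def invL (pts g : List ℕ) : List ℕ := pts.map fun j => preL pts g j

/-- Action of a permutation on a word. -/
def actL (pts g w : List ℕ) : List ℕ := pts.map fun j => app w (preL pts g j)

/-- Change one letter. -/
def updL (pts w : List ℕ) (p c : ℕ) : List ℕ := pts.map fun i => if i = p then c else app w i

/-- Erase the letters after position `n`. -/
def cutL (pts w : List ℕ) (n : ℕ) : List ℕ := pts.map fun i => if i ≤ n then app w i else 0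

/-- The zero word. -/
def zeroL (pts : List ℕ) : List ℕ := pts.map fun _ => 0

/-- The group operations on lists. -/
def listOps (pts : List ℕ) : Ops (List ℕ) ℕ where
  mul := mulL pts
  inv := invL pts
  ap := app
  one := pts
  lt x y := decide (x < y)
  pts := pts

/-- Orbit transversal. -/
def orbL (pts : List ℕ) (L : Val) (p : ℕ) : Val := (listOps pts).orb L p

/-- Schreier generators. -/
def schreierL (pts : List ℕ) (L : Val) (p : ℕ) : Val := (listOps pts).schreier L p

/-- Sifting. -/
def siftL (pts : List ℕ) (F : Val) (g : List ℕ) : List ℕ := (listOps pts).sift F g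

/-- Sims filter. -/
def simsL (pts : List ℕ) (L : Val) : Val := (listOps pts).sims L

/-- Truncation of a value before it is written. -/
def clip (k : ℕ) (pts : List ℕ) (v : Val) : Val :=
  (v.take (pts.length * pts.length + 1)).map fun x =>
    (x.take pts.length).map fun y => min y (pts.length + k)

theorem bsize_mulL (pts g h : List ℕ) :
    bsize (mulL pts g h) ≤ pts.length * (2 * pts.length + 1) := by
  have := bsize_list_le (mulL pts g h) pts.length (fun a ha => by
    obtain ⟨i, -, rfl⟩ := List.mem_map.1 ha
    exact (bsize_nat_le_self _).trans (min_le_right _ _))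
  simpa [mulL] using this

theorem bsize_clip (k : ℕ) (pts : List ℕ) (v : Val) : bsize (clip k pts v) ≤
    (pts.length * pts.length + 1) * (2 * (pts.length * (2 * (pts.length + k) + 1)) + 1) := by
  refine (bsize_list_le (clip k pts v) (pts.length * (2 * (pts.length + k) + 1)) ?_).trans ?_
  · intro x hx
    obtain ⟨y, -, rfl⟩ := List.mem_map.1 hx
    refine (bsize_list_le _ (pts.length + k) ?_).trans (Nat.mul_le_mul_right _ (by simp))
    intro a ha
    obtain ⟨i, -, rfl⟩ := List.mem_map.1 ha
    exact (bsize_nat_le_self _).trans (min_le_right _ _)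
  · exact Nat.mul_le_mul_right _ (by simp [clip])

section pt

variable {α : Type} [N487b59b3 α]

@[fun_prop]
theorem pt_app {g : α → List ℕ} {i : α → ℕ} (hg : IsPolyTime g) (hi : IsPolyTime i) :
    IsPolyTime (fun x => app (g x) (i x)) := by
  unfold app
  fun_prop

@[fun_prop]
theorem pt_mulL {pts g h : α → List ℕ} (hp : IsPolyTime pts) (hg : IsPolyTime g)
    (hh : IsPolyTime h) : IsPolyTime (fun x => mulL (pts x) (g x) (h x)) := by
  unfold mulL
  fun_prop

@[fun_prop]
theorem pt_preL {pts g : α → List ℕ} {j : α → ℕ} (hp : IsPolyTime pts) (hg : IsPolyTime g)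
    (hj : IsPolyTime j) : IsPolyTime (fun x => preL (pts x) (g x) (j x)) := by
  unfold preL
  fun_prop

@[fun_prop]
theorem pt_invL {pts g : α → List ℕ} (hp : IsPolyTime pts) (hg : IsPolyTime g) :
    IsPolyTime (fun x => invL (pts x) (g x)) := by
  unfold invL
  fun_prop

@[fun_prop]
theorem pt_actL {pts g w : α → List ℕ} (hp : IsPolyTime pts) (hg : IsPolyTime g)
    (hw : IsPolyTime w) : IsPolyTime (fun x => actL (pts x) (g x) (w x)) := by
  unfold actL
  fun_prop

@[fun_prop]
theorem pt_updL {pts w : α → List ℕ} {p c : α → ℕ} (hp : IsPolyTime pts) (hw : IsPolyTime w)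
    (hq : IsPolyTime p) (hc : IsPolyTime c) :
    IsPolyTime (fun x => updL (pts x) (w x) (p x) (c x)) := by
  unfold updL
  fun_prop

@[fun_prop]
theorem pt_cutL {pts w : α → List ℕ} {n : α → ℕ} (hp : IsPolyTime pts) (hw : IsPolyTime w)
    (hn : IsPolyTime n) : IsPolyTime (fun x => cutL (pts x) (w x) (n x)) := by
  unfold cutL
  fun_prop

@[fun_prop]
theorem pt_zeroL {pts : α → List ℕ} (hp : IsPolyTime pts) :
    IsPolyTime (fun x => zeroL (pts x)) := by
  unfold zeroL
  fun_prop

@[fun_prop]
theorem pt_clip (k : ℕ) {pts : α → List ℕ} {v : α → Val} (hp : IsPolyTime pts)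
    (hv : IsPolyTime v) : IsPolyTime (fun x => clip k (pts x) (v x)) := by
  unfold clip
  fun_prop

@[fun_prop]
theorem pt_orbL {pts : α → List ℕ} {L : α → Val} {p : α → ℕ} (hp : IsPolyTime pts)
    (hL : IsPolyTime L) (hq : IsPolyTime p) : IsPolyTime (fun x => orbL (pts x) (L x) (p x)) := by
  unfold orbL Ops.orb
  refine IsPolyTime.foldl_grow (f := fun x ts (_ : ℕ) => (listOps (pts x)).orbStep (L x) (p x) ts)
    (init := fun x => [pts x]) (l := pts) ?_ (by fun_prop) hp
    (fun x => 2 * ((pts x).length * (2 * (pts x).length + 1)) + 1) (by fun_prop) ?_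
  · simp only [Ops.orbStep, listOps]
    fun_prop
  · intro x ts _ _
    simp only [Ops.orbStep, listOps, bsize_append]
    rcases e : List.filter _ _ with _ | ⟨c, cs⟩
    · simp
    · have hc : c ∈ c :: cs := by simp
      rw [← e] at hc
      obtain ⟨t, -, hc1⟩ := List.mem_flatMap.1 (List.mem_filter.1 hc).1
      obtain ⟨g, -, rfl⟩ := List.mem_map.1 hc1
      have := bsize_mulL (pts x) g t
      simp only [List.take_succ_cons, List.take_zero, bsize_cons, bsize_nil]
      omega

@[fun_prop]
theorem pt_schreierL {pts : α → List ℕ} {L : α → Val} {p : α → ℕ} (hp : IsPolyTime pts)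
    (hL : IsPolyTime L) (hq : IsPolyTime p) :
    IsPolyTime (fun x => schreierL (pts x) (L x) (p x)) := by
  have : IsPolyTime (fun x => (orbL (pts x) (L x) (p x)).flatMap fun t => (L x).map fun g =>
      mulL (pts x) (invL (pts x) (((orbL (pts x) (L x) (p x)).filter fun t' =>
        decide (app t' (p x) = app (mulL (pts x) g t) (p x))).headD (pts x)))
        (mulL (pts x) g t)) := by fun_prop
  exact this

@[fun_prop]
theorem pt_siftL {pts g : α → List ℕ} {F : α → Val} (hp : IsPolyTime pts)
    (hF : IsPolyTime F) (hg : IsPolyTime g) : IsPolyTime (fun x => siftL (pts x) (F x) (g x)) := by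
  unfold siftL Ops.sift
  refine IsPolyTime.foldl_grow (f := fun x g' i => mulL (pts x) (invL (pts x)
      (((F x).filter fun f => (listOps (pts x)).mtch f g' i).headD (pts x))) g')
    (init := g) (l := pts) ?_ hg hp
    (fun x => (pts x).length * (2 * (pts x).length + 1)) (by fun_prop) ?_
  · simp only [Ops.mtch, listOps]
    fun_prop
  · intro x ts _ _
    exact (bsize_mulL _ _ _).trans (Nat.le_add_left _ _)

theorem bsize_siftL (pts : List ℕ) (F : Val) (g : List ℕ) :
    bsize (siftL pts F g) ≤ bsize g + pts.length * (2 * pts.length + 1) := by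
  have : ∀ (r : List ℕ) (g' : List ℕ), bsize g' ≤ bsize g + pts.length * (2 * pts.length + 1) →
      bsize (r.foldl (fun g' i => mulL pts (invL pts
        ((F.filter fun f => (listOps pts).mtch f g' i).headD pts)) g') g') ≤
        bsize g + pts.length * (2 * pts.length + 1) := by
    intro r
    induction r with
    | nil => exact fun _ h => h
    | cons a r ih => exact fun g' _ => ih _ ((bsize_mulL _ _ _).trans (Nat.le_add_left _ _))
  exact this pts g (Nat.le_add_right _ _)

@[fun_prop]
theorem pt_simsL {pts : α → List ℕ} {L : α → Val} (hp : IsPolyTime pts)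
    (hL : IsPolyTime L) : IsPolyTime (fun x => simsL (pts x) (L x)) := by
  unfold simsL Ops.sims
  refine IsPolyTime.foldl_grow (f := fun x F g =>
      bif (pts x).all (fun i => decide (app (siftL (pts x) F g) i = i)) then F
      else siftL (pts x) F g :: F)
    (init := fun _ => []) (l := L) (by fun_prop) (by fun_prop) hL
    (fun x => 2 * (bsize (L x) + (pts x).length * (2 * (pts x).length + 1)) + 1) (by fun_prop) ?_
  intro x F g hg
  have h1 := bsize_siftL (pts x) F g
  have h2 := bsize_le_of_mem hg
  cases (pts x).all (fun i => decide (app (siftL (pts x) F g) i = i))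
  · simp only [cond_false, bsize_cons]
    omega
  · simp

@[fun_prop]
theorem pt_ofDigits (k : ℕ) {w : α → List ℕ} (hw : IsPolyTime w) :
    IsPolyTime (fun x => Nat.ofDigits k (w x)) := by
  refine (IsPolyTime.foldr_grow (f := fun _ (b s : ℕ) => b + k * s) (init := fun _ => 0)
    (by fun_prop) (by fun_prop) hw (fun x => bsize (w x) + bsize k + 1) (by fun_prop) ?_).of_eq
    (fun x => by rw [Nat.ofDigits_eq_foldr]; rfl)
  intro x b s hb
  have h1 := bsize_le_of_mem hb
  have h2 := bsize_add_le' b (k * s)
  have h3 := bsize_mul_le k s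
  omega

end pt

/-- Read a cell. -/
def rd (a : Adr) : Prog Val := one (.inl a)

/-- Write a cell. -/
def wr (k : ℕ) (pts : List ℕ) (a : Adr) (v : Val) : Prog Val :=
  one (.inr (.inl (a, clip k pts v)))

/-- One step of the canonical form. -/
def canonStep (pts w g : List ℕ) (i : ℕ) : Prog (List ℕ) :=
  bif decide (app w i = 0) then ret g else
    Prog.bind (rd (0 :: actL pts g (cutL pts w i))) fun v => ret (mulL pts (v.headD pts) g)

/-- A group element that maps `w` to the representative of its orbit. -/
def canon (pts w : List ℕ) : Prog (List ℕ) := foldM (canonStep pts w) pts pts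

/-- Remove the letter `s` of `S`, canonise, and run through the orbit of `s`. -/
def collectStep (pts S : List ℕ) (E : Val) (s : ℕ) : Prog Val :=
  bif decide (app S s = 0) then ret E else
    Prog.bind (canon pts (updL pts S s 0)) fun g =>
      Prog.bind (rd (1 :: actL pts g (updL pts S s 0))) fun L =>
        ret (((orbL pts L (app g s)).map fun t => mulL pts t g) ++ E)

/-- Group elements that map `S` to all words of its orbit one letter above a representative. -/
def collect (pts S : List ℕ) : Prog Val := foldM (collectStep pts S) [] pts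

/-- Record one word of the orbit of `S`. -/
def markStep (k : ℕ) (pts S : List ℕ) (_u : Unit) (e : List ℕ) : Prog Unit :=
  Prog.bind (wr k pts (0 :: actL pts e S) [invL pts e]) fun _ => ret ()

/-- Create the representative `S`, which is one letter (at `p`) above the representative with
stabiliser generators `L`. -/
def create (k : ℕ) (pts S : List ℕ) (L : Val) (p n : ℕ) : Prog ℕ :=
  Prog.bind (collect pts S) fun E =>
    Prog.bind (foldM (markStep k pts S) () E) fun _ =>
      Prog.bind (wr k pts (1 :: S)
          (simsL pts (schreierL pts L p ++ E.filter fun e => decide (actL pts e S = S)))) fun _ =>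
        Prog.bind (wr k pts [2, n] [S]) fun _ => ret (n + 1)

/-- Process one extension of the representative `R`. -/
def flag (k : ℕ) (pts R : List ℕ) (L : Val) (n : ℕ) (z : ℕ × ℕ) : Prog ℕ :=
  bif decide (app R z.1 = 0) then
    Prog.bind (rd (0 :: updL pts R z.1 z.2)) fun v =>
      bif v.isEmpty then create k pts (updL pts R z.1 z.2) L z.1 n else ret n
  else ret n

/-- All extensions. -/
def flags (k : ℕ) (pts : List ℕ) : List (ℕ × ℕ) :=
  pts.flatMap fun p => (List.range' 1 (k - 1)).map fun c => (p, c)

/-- The state between phases: points, generators, head and tail of the queue. -/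
abbrev State : Type := List ℕ × Val × ℕ × ℕ

/-- The initial writes. -/
def setup (k : ℕ) (pts : List ℕ) (gens : Val) : Prog Val :=
  Prog.bind (wr k pts [2, 0] [zeroL pts]) fun _ => wr k pts (1 :: zeroL pts) (simsL pts gens)

/-- Output the representative `R` and process its extensions. -/
def process (k : ℕ) (s : State) (R : List ℕ) : Prog (Option State) :=
  Prog.bind (one (.inr (.inr (Nat.ofDigits k R)))) fun _ =>
    Prog.bind (rd (1 :: R)) fun L =>
      Prog.bind (foldM (flag k s.1 R L) s.2.2.2 (flags k s.1)) fun n' =>
        ret (some (s.1, s.2.1, s.2.2.1 + 1, n'))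

/-- One phase. -/
def phase (k : ℕ) (s : State) : Prog (Option State) :=
  Prog.bind (bif decide (s.2.2.1 = 0) then setup k s.1 s.2.1 else ret []) fun _ =>
    Prog.bind (rd [2, s.2.2.1]) fun v =>
      bif v.isEmpty then ret none else process k s (v.headD [])

section ptp

variable {α : Type} [N487b59b3 α]

theorem ptp_rd {a : α → Adr} (ha : IsPolyTime a) : PTP (fun x => rd (a x)) :=
  PTP.one (by fun_prop)

theorem ptp_wr (k : ℕ) {pts : α → List ℕ} {a : α → Adr} {v : α → Val} (hp : IsPolyTime pts)
    (ha : IsPolyTime a) (hv : IsPolyTime v) : PTP (fun x => wr k (pts x) (a x) (v x)) :=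
  PTP.one (by fun_prop)

theorem res_canonStep (pts w g : List ℕ) (i : ℕ) :
    Res (fun g' => bsize g' ≤ bsize g + pts.length * (2 * pts.length + 1))
      (canonStep pts w g i) := by
  unfold canonStep
  cases decide (app w i = 0)
  · exact Res.bind' _ fun v => (bsize_mulL _ _ _).trans (Nat.le_add_left _ _)
  · exact Nat.le_add_right _ _

theorem ptp_canon {pts w : α → List ℕ} (hp : IsPolyTime pts) (hw : IsPolyTime w) :
    PTP (fun x => canon (pts x) (w x)) := by
  refine PTP.foldM (f := fun x => canonStep (pts x) (w x)) ?_ hp hp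
    (fun x => (pts x).length * (2 * (pts x).length + 1)) (by fun_prop)
    (fun x => res_canonStep _ _)
  exact PTP.cond (by fun_prop) (PTP.ret (by fun_prop))
    (PTP.bind (ptp_rd (by fun_prop)) (PTP.ret (by fun_prop)))

theorem res_collectStep (pts S : List ℕ) (E : Val) (s : ℕ) :
    Res (fun E' => bsize E' ≤ bsize E +
      (pts.length + 1) * (2 * (pts.length * (2 * pts.length + 1)) + 1) ∧
      E'.length ≤ E.length + (pts.length + 1)) (collectStep pts S E s) := by
  unfold collectStep
  cases decide (app S s = 0)
  · refine Res.bind' _ fun g => Res.bind' _ fun L => ?_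
    have h1 : (orbL pts L (app g s)).length ≤ pts.length + 1 := (listOps pts).length_orb _ _
    have h2 := bsize_list_le ((orbL pts L (app g s)).map fun t => mulL pts t g)
      (pts.length * (2 * pts.length + 1)) (fun a ha => by
        obtain ⟨t, -, rfl⟩ := List.mem_map.1 ha
        exact bsize_mulL _ _ _)
    rw [List.length_map] at h2
    have h3 := Nat.mul_le_mul_right (2 * (pts.length * (2 * pts.length + 1)) + 1) h1
    simp only [Res, bsize_append, List.length_append, List.length_map]
    omega
  · exact ⟨Nat.le_add_right _ _, Nat.le_add_right _ _⟩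

theorem ptp_collect {pts S : α → List ℕ} (hp : IsPolyTime pts) (hS : IsPolyTime S) :
    PTP (fun x => collect (pts x) (S x)) := by
  refine PTP.foldM (f := fun x => collectStep (pts x) (S x)) ?_ (by fun_prop) hp
    (fun x => ((pts x).length + 1) * (2 * ((pts x).length * (2 * (pts x).length + 1)) + 1))
    (by fun_prop) (fun x E s => (res_collectStep _ _ E s).mono fun _ h => h.1)
  exact PTP.cond (by fun_prop) (PTP.ret (by fun_prop))
    (PTP.bind (ptp_canon (by fun_prop) (by fun_prop))
      (PTP.bind (ptp_rd (by fun_prop)) (PTP.ret (by fun_prop))))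

theorem ptp_create (k : ℕ) {pts S : α → List ℕ} {L : α → Val} {p n : α → ℕ} (hp : IsPolyTime pts)
    (hS : IsPolyTime S) (hL : IsPolyTime L) (hq : IsPolyTime p) (hn : IsPolyTime n) :
    PTP (fun x => create k (pts x) (S x) (L x) (p x) (n x)) := by
  refine PTP.bind (ptp_collect hp hS) (PTP.bind ?_ (PTP.bind
    (ptp_wr k (by fun_prop) (by fun_prop) (by fun_prop))
    (PTP.bind (ptp_wr k (by fun_prop) (by fun_prop) (by fun_prop)) (PTP.ret (by fun_prop)))))
  refine PTP.foldM (f := fun z : α × Val => markStep k (pts z.1) (S z.1)) ?_ (by fun_prop)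
    (by fun_prop) (fun _ => 0) (by fun_prop) (fun x E s => (Res.triv _).mono fun _ _ => le_rfl)
  exact PTP.bind (ptp_wr k (by fun_prop) (by fun_prop) (by fun_prop)) (PTP.ret (by fun_prop))

theorem res_flag (k : ℕ) (pts R : List ℕ) (L : Val) (n : ℕ) (z : ℕ × ℕ) :
    Res (fun n' => bsize n' ≤ bsize n + 1) (flag k pts R L n z) := by
  unfold flag
  cases decide (app R z.1 = 0)
  · exact Nat.le_add_right _ _
  · refine Res.bind' _ fun v => ?_
    cases v.isEmpty
    · exact Nat.le_add_right _ _
    · exact Res.bind' _ fun _ => Res.bind' _ fun _ => Res.bind' _ fun _ => Res.bind' _ fun _ =>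
        bsize_succ_le n

theorem ptp_phase (k : ℕ) : PTP (phase k) := by
  refine PTP.bind (PTP.cond (by fun_prop) (PTP.bind
    (ptp_wr k (by fun_prop) (by fun_prop) (by fun_prop))
    (ptp_wr k (by fun_prop) (by fun_prop) (by fun_prop))) (PTP.ret (by fun_prop)))
    (PTP.bind (ptp_rd (by fun_prop)) (PTP.cond (by fun_prop) (PTP.ret (by fun_prop)) ?_))
  refine PTP.bind (PTP.one (by fun_prop)) (PTP.bind (ptp_rd (by fun_prop))
    (PTP.bind ?_ (PTP.ret (by fun_prop))))
  refine PTP.foldM (f := fun z : (((State × Val) × Val) × Val) × Val =>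
    flag k z.1.1.1.1.1 (z.1.1.2.headD []) z.2) ?_ (by fun_prop) (by unfold flags; fun_prop)
    (fun _ => 1) (by fun_prop) (fun x => res_flag k _ _ _)
  exact PTP.cond (by fun_prop) (PTP.bind (ptp_rd (by fun_prop)) (PTP.cond (by fun_prop)
    (ptp_create k (by fun_prop) (by fun_prop) (by fun_prop) (by fun_prop) (by fun_prop))
    (PTP.ret (by fun_prop)))) (PTP.ret (by fun_prop))

end ptp

/-- Bound on the size of written values. -/
def wBound (k m : ℕ) : ℕ := (m * m + 1) * (2 * (m * (2 * (m + k) + 1)) + 1)

/-- Bound on the number of actions in a phase. -/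
def dBound (k m : ℕ) : ℕ := m * k * (2 * (m * (m + 1)) + 3) + 5

section static

variable {k : ℕ} {pts : List ℕ}

theorem st_wr (a : Adr) (v : Val) : St (wBound k pts.length) (wr k pts a v) 1 :=
  St.write a (bsize_clip k pts v)

theorem st_canon (B : ℕ) (w : List ℕ) : St B (canon pts w) (pts.length * 1) := by
  refine St.foldM (fun g i => ?_) _ _
  unfold canonStep
  cases decide (app w i = 0)
  · exact (St.read B _).bind' (n' := 0) fun _ => St.ret _ _ _
  · trivial

theorem st_collect (B : ℕ) (S : List ℕ) :
    St B (collect pts S) (pts.length * (pts.length + 1)) := by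
  refine St.foldM (fun E s => ?_) _ _
  unfold collectStep
  cases decide (app S s = 0)
  · exact ((st_canon B _).bind' fun _ => (St.read B _).bind' (n' := 0) fun _ => St.ret _ _ _).mono
      le_rfl (by omega)
  · trivial

theorem res_collect (S : List ℕ) :
    Res (fun E => E.length ≤ pts.length * (pts.length + 1)) (collect pts S) :=
  (Res.foldM List.length (pts.length + 1)
    (fun E s => (res_collectStep pts S E s).mono fun _ h => h.2) [] pts).mono fun _ h => by
      simpa using h

theorem st_create (S : List ℕ) (L : Val) (p n : ℕ) :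
    St (wBound k pts.length) (create k pts S L p n) (2 * (pts.length * (pts.length + 1)) + 2) := by
  refine ((st_collect _ S).bind (n' := pts.length * (pts.length + 1) + 2) (res_collect S)
    fun E hE => ?_).mono le_rfl (by omega)
  refine ((St.foldM (n := 1) (fun _ e => (st_wr _ _).bind' (n' := 0) fun _ => St.ret _ _ _) () E).bind'
    (n' := 2) fun _ => (st_wr _ _).bind' fun _ => (st_wr _ _).bind' (n' := 0) fun _ => St.ret _ _ _).mono
    le_rfl (by omega)

theorem st_flag (R : List ℕ) (L : Val) (n : ℕ) (z : ℕ × ℕ) :
    St (wBound k pts.length) (flag k pts R L n z) (2 * (pts.length * (pts.length + 1)) + 3) := by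
  unfold flag
  cases decide (app R z.1 = 0)
  · trivial
  · refine ((St.read _ _).bind' (n' := 2 * (pts.length * (pts.length + 1)) + 2) fun v => ?_).mono
      le_rfl (by omega)
    cases v.isEmpty
    · trivial
    · exact st_create _ _ _ _

theorem length_flags (k : ℕ) (pts : List ℕ) : (flags k pts).length ≤ pts.length * k := by
  unfold flags
  induction pts with
  | nil => simp
  | cons a l ih =>
    simp only [List.flatMap_cons, List.length_append, List.length_map, List.length_range',
      List.length_cons] at ih ⊢
    rw [add_mul]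
    omega

theorem st_phase (k : ℕ) (s : State) :
    St (wBound k s.1.length) (phase k s) (dBound k s.1.length) := by
  have h1 : St (wBound k s.1.length)
      (bif decide (s.2.2.1 = 0) then setup k s.1 s.2.1 else ret []) 2 := by
    cases decide (s.2.2.1 = 0)
    · trivial
    · exact (st_wr _ _).bind' fun _ => st_wr _ _
  refine (h1.bind' fun _ => (St.read _ _).bind'
    (n' := 2 + s.1.length * k * (2 * (s.1.length * (s.1.length + 1)) + 3)) fun v => ?_).mono
    le_rfl (by unfold dBound; omega)
  cases v.isEmpty
  · refine ((St.out _ _).bind' fun _ => (St.read _ _).bind' fun L =>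
      (St.foldM (st_flag _ L) _ _).bind' (n' := 0) fun _ => St.ret _ _ _).mono le_rfl ?_
    have := Nat.mul_le_mul_right (2 * (s.1.length * (s.1.length + 1)) + 3) (length_flags k s.1)
    omega
  · trivial

end static

end Pool.Agent.Lib.MP_80ff63_lc
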