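import Pool.Agent.Lib.MP_80ff63_lc.Seg
import Pool.Agent.Shared.PolyTime.Nat

/-!
Simulation of a Boolean stack machine by a block of instructions: a stack is one register.
-/

set_option linter.unusedSimpArgs false

namespace Pool.Agent.Lib.MP_80ff63_lc

open Function Pool.Agent.Shared

/-- Bijective base two code of a bit string. -/
def enc : List Bool → ℕ
  | [] => 0
  | b :: l => 2 * enc l + 1 + b.toNat

theorem enc_lt (l : List Bool) : enc l < 2 ^ (l.length + 1) := by
  have : enc l + 2 ≤ 2 ^ (l.length + 1) := by
    induction l with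
    | nil => simp [enc]
    | cons b l ih =>
      have := Bool.toNat_le b
      rw [enc, List.length_cons, pow_succ]
      omega
  omega

theorem enc_lt' {l : List Bool} {n : ℕ} (h : l.length ≤ n) : enc l < 2 ^ (n + 1) :=
  (enc_lt l).trans_le (Nat.pow_le_pow_right (by norm_num) (by omega))

theorem enc_injective : Injective enc := by
  intro l
  induction l with
  | nil =>
    intro l' h
    cases l' with
    | nil => rfl
    | cons b l' => simp only [enc] at h; omega
  | cons b l ih =>
    intro l' h
    cases l' with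
    | nil => simp only [enc] at h; omega
    | cons b' l' =>
      simp only [enc] at h
      have h1 : enc l = enc l' := by
        have := Bool.toNat_le b
        have := Bool.toNat_le b'
        omega
      have h2 : b = b' := by
        cases b <;> cases b' <;> simp at h ⊢ <;> omega
      rw [ih h1, h2]

theorem enc_add_one (l : List Bool) : enc l + 1 = PolyTime.ofBits (l ++ [true]) := by
  induction l with
  | nil => simp [enc, PolyTime.ofBits_cons]
  | cons b l ih => rw [List.cons_append, PolyTime.ofBits_cons, ← ih, enc]; omega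

theorem bits_eq_concat (n : ℕ) (hn : n ≠ 0) : ∃ l, n.bits = l ++ [true] := by
  induction n using Nat.binaryRec' with
  | zero => exact absurd rfl hn
  | bit b n h ih =>
    rw [Nat.bits_append_bit n b h]
    by_cases h0 : n = 0
    · subst h0
      exact ⟨[], by simp [h rfl]⟩
    · obtain ⟨l, hl⟩ := ih h0
      exact ⟨b :: l, by rw [hl]; rfl⟩

/-- The reverse of the string with code `n`. -/
def unencRev (n : ℕ) : List Bool := (n + 1).bits.reverse.tail

theorem enc_unencRev (n : ℕ) : enc (unencRev n).reverse = n := by
  obtain ⟨l, hl⟩ := bits_eq_concat (n + 1) (by omega)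
  have h1 := enc_add_one l
  rw [← hl, PolyTime.ofBits_bits] at h1
  have : (unencRev n).reverse = l := by simp [unencRev, hl]
  rw [this]
  omega

theorem size_le_of_lt {v n : ℕ} (h : v < 4 * 2 ^ (n + 1)) : v.size ≤ n + 3 := by
  rw [Nat.size_le, show n + 3 = n + 1 + 2 by omega, pow_add]
  omega

section block

variable {K : Type} [DecidableEq K]

/-- The code of the control state `q` of a stack machine. -/
def blk {Q : Type} (ρ : K → ℕ) (lab : Q → ℕ) (here : Fin 7 → ℕ) : PolyTime.Instr K Q → Fin 7 → Instr
  | .push k b q => ![.add (ρ k) (ρ k) (ρ k) (here 1), .add (ρ k) (ρ k) 4 (here 2),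
      .add (ρ k) (ρ k) (bif b then 4 else 9) (lab q), .jz 0 0 0, .jz 0 0 0, .jz 0 0 0, .jz 0 0 0]
  | .pop k qE qF qT => ![.jz (ρ k) (lab qE) (here 1), .sub (ρ k) (ρ k) 4 (here 2),
      .half 5 (ρ k) (here 3), .sub 6 (ρ k) 5 (here 4), .sub 6 6 5 (here 5),
      .add (ρ k) 5 9 (here 6), .jz 6 (lab qF) (lab qT)]

/-- `c'` differs from `c` only in the stack registers and the two scratch registers. -/
def Agree (ρ : K → ℕ) (c c' : Cfg) : Prop :=
  (∀ r, (∀ k, r ≠ ρ k) → r ≠ 5 → r ≠ 6 → c'.reg r = c.reg r) ∧ c'.out = c.out

omit [DecidableEq K] in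
theorem Agree.trans {ρ : K → ℕ} {c c' c'' : Cfg} (h : Agree ρ c c') (h' : Agree ρ c' c'') :
    Agree ρ c c'' :=
  ⟨fun r h1 h2 h3 => (h'.1 r h1 h2 h3).trans (h.1 r h1 h2 h3), h'.2.trans h.2⟩

variable {P : List Instr} {ρ : K → ℕ}

theorem blk_step {Q : Type} (hρ : Injective ρ) (hρ' : ∀ k, ρ k < 4 ∨ 9 < ρ k) (lab : Q → ℕ)
    (here : Fin 7 → ℕ) (i : PolyTime.Instr K Q)
    (hP : ∀ j, P[here j]? = some (blk ρ lab here i j)) (S : PolyTime.Stk K) (n : ℕ)
    (hn : ∀ k, (S k).length ≤ n) (c : Cfg) (hpc : c.pc = here 0)
    (hS : ∀ k, c.reg (ρ k) = enc (S k)) (h4 : c.reg 4 = 1) (h9 : c.reg 9 = 0) :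
    ∃ c', Seg P c c' (7 * (2 * n + 7)) ∧ c'.pc = lab (i.next S) ∧
      (∀ k, c'.reg (ρ k) = enc (i.upd S k)) ∧ Agree ρ c c' := by
  obtain ⟨pc, reg, inp, out⟩ := c
  simp only at hpc hS h4 h9
  subst hpc
  cases i with
  | push k b q =>
    have hk := hρ' k
    have e4 : (4 : ℕ) ≠ ρ k := by omega
    have e9 : (9 : ℕ) ≠ ρ k := by omega
    have hl := enc_lt' (hn k)
    have hb : reg (bif b then 4 else 9) = b.toNat := by cases b <;> simp [h4, h9]
    have hb' : (bif b then 4 else 9) ≠ ρ k := by cases b <;> simp [e4, e9]
    have hb'' := Bool.toNat_le b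
    have s1 : (enc (S k)).size ≤ n + 3 := size_le_of_lt (by omega)
    have s2 : (enc (S k) + enc (S k)).size ≤ n + 3 := size_le_of_lt (by omega)
    have s3 : (enc (S k) + enc (S k) + 1).size ≤ n + 3 := size_le_of_lt (by omega)
    have s4 : (b.toNat).size ≤ n + 3 := size_le_of_lt (by have := Nat.one_le_two_pow (n := n + 1); omega)
    refine ⟨⟨lab q, update reg (ρ k) (enc (b :: S k)), inp, out⟩, ?_, rfl, ?_, ?_, rfl⟩
    · refine Seg.cons (hP 0) (Seg.cons (hP 1) (Seg.cons (B := 2 * n + 7) (B' := 0) (hP 2) ?_ ?_)
        (le_refl _)) ?_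
      · simp only [blk, exec, Matrix.cons_val, update_self, update_idem, update_of_ne e4,
          update_of_ne hb', hS, h4, hb, enc]
        rw [show enc (S k) + enc (S k) + 1 = 2 * enc (S k) + 1 by omega]
        exact Seg.refl _ _
      · simp only [blk, exec, instrCost, Matrix.cons_val, update_self, update_idem, update_of_ne e4,
          update_of_ne hb', hS, h4, hb]
        omega
      · simp only [blk, exec, instrCost, Matrix.cons_val, update_self, update_idem, update_of_ne e4,
          update_of_ne hb', hS, h4, hb, Nat.size_one]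
        omega
    · intro k'
      by_cases e : k' = k
      · subst e; simp [PolyTime.Instr.upd]
      · simp [PolyTime.Instr.upd, update_of_ne e, update_of_ne (hρ.ne e), hS]
    · intro r h1 _ _
      exact update_of_ne (h1 k) _ _
  | pop k qE qF qT =>
    have hk := hρ' k
    have e4 : (4 : ℕ) ≠ ρ k := by omega
    have e9 : (9 : ℕ) ≠ ρ k := by omega
    have e5 : ρ k ≠ 5 := by omega
    have e6 : ρ k ≠ 6 := by omega
    have hl := enc_lt' (hn k)
    have s1 : (enc (S k)).size ≤ n + 3 := size_le_of_lt (by omega)
    rcases hk' : S k with _ | ⟨b, l⟩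
    · refine ⟨⟨lab qE, reg, inp, out⟩, ?_, by simp [PolyTime.Instr.next, hk'], ?_,
        fun _ _ _ _ => rfl, rfl⟩
      · refine Seg.cons (B' := 0) (hP 0) ?_ ?_
        · simp only [blk, exec, Matrix.cons_val, hS, hk', enc, if_true]
          exact Seg.refl _ _
        · simp only [blk, exec, instrCost, Matrix.cons_val, hS]
          omega
      · intro k'
        by_cases e : k' = k
        · subst e; simp [PolyTime.Instr.upd, hS, hk']
        · simp [PolyTime.Instr.upd, update_of_ne e, hS]
    · have hb'' := Bool.toNat_le b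
      have hE : enc (S k) = 2 * enc l + 1 + b.toNat := by rw [hk', enc]
      have a0 : ¬ (enc (S k) = 0) := by omega
      have a1 : (enc (S k) - 1) / 2 = enc l := by omega
      have a2 : enc (S k) - 1 - enc l - enc l = b.toNat := by omega
      have s2 : (enc (S k) - 1).size ≤ n + 3 := size_le_of_lt (by omega)
      have s3 : (enc l).size ≤ n + 3 := size_le_of_lt (by omega)
      have s4 : (enc (S k) - 1 - enc l).size ≤ n + 3 := size_le_of_lt (by omega)
      have s5 : (b.toNat).size ≤ n + 3 := size_le_of_lt (by omega)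
      refine ⟨⟨lab (bif b then qT else qF),
        update (update (update reg 5 (enc l)) 6 b.toNat) (ρ k) (enc l), inp, out⟩, ?_, ?_, ?_,
        ?_, rfl⟩
      · refine Seg.cons (hP 0) ?_ (B' := 6 * (2 * n + 7)) ?_
        swap
        · simp only [blk, exec, instrCost, Matrix.cons_val, hS]
          omega
        simp only [blk, exec, Matrix.cons_val, hS, if_neg a0]
        refine Seg.cons (hP 1) ?_ (B' := 5 * (2 * n + 7)) ?_
        swap
        · simp only [blk, exec, instrCost, Matrix.cons_val, hS, h4, Nat.size_one]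
          omega
        simp only [blk, exec, Matrix.cons_val, hS, h4]
        refine Seg.cons (hP 2) ?_ (B' := 4 * (2 * n + 7)) ?_
        swap
        · simp only [blk, exec, instrCost, Matrix.cons_val, update_self]
          omega
        simp only [blk, exec, Matrix.cons_val, update_self, a1]
        refine Seg.cons (hP 3) ?_ (B' := 3 * (2 * n + 7)) ?_
        swap
        · simp only [blk, exec, instrCost, Matrix.cons_val, update_self, update_of_ne e5]
          omega
        simp only [blk, exec, Matrix.cons_val, update_self, update_of_ne e5]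
        refine Seg.cons (hP 4) ?_ (B' := 2 * (2 * n + 7)) ?_
        swap
        · simp only [blk, exec, instrCost, Matrix.cons_val, update_self,
            update_of_ne (show (5 : ℕ) ≠ 6 by omega)]
          omega
        simp only [blk, exec, Matrix.cons_val, update_self, update_idem,
          update_of_ne (show (5 : ℕ) ≠ 6 by omega), a2]
        refine Seg.cons (hP 5) ?_ (B' := 1 * (2 * n + 7)) ?_
        swap
        · simp only [blk, exec, instrCost, Matrix.cons_val, update_self,
            update_of_ne (show (5 : ℕ) ≠ 6 by omega), update_of_ne (show (9 : ℕ) ≠ 6 by omega),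
            update_of_ne (show (9 : ℕ) ≠ 5 by omega), update_of_ne e9, h9, Nat.size_zero]
          omega
        simp only [blk, exec, Matrix.cons_val, update_self,
          update_of_ne (show (5 : ℕ) ≠ 6 by omega), update_of_ne (show (9 : ℕ) ≠ 6 by omega),
          update_of_ne (show (9 : ℕ) ≠ 5 by omega), update_of_ne e9, h9, add_zero]
        refine Seg.cons (hP 6) ?_ (B' := 0) ?_
        swap
        · simp only [blk, exec, instrCost, Matrix.cons_val, update_self, update_of_ne e6.symm]
          omega
        simp only [blk, exec, Matrix.cons_val, update_self, update_of_ne e6.symm]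
        have e : update (update (update (update reg (ρ k) (enc (S k) - 1)) 5 (enc l)) 6 b.toNat)
            (ρ k) (enc l) = update (update (update reg 5 (enc l)) 6 b.toNat) (ρ k) (enc l) := by
          funext r
          by_cases hr : r = ρ k
          · subst hr; simp
          · simp only [update_of_ne hr, update_apply, if_neg hr]
        rw [e]
        cases b <;> exact Seg.refl _ _
      · cases b <;> simp [PolyTime.Instr.next, hk']
      · intro k'
        by_cases e : k' = k
        · subst e; simp [PolyTime.Instr.upd, hk']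
        · have := hρ' k'
          simp only [PolyTime.Instr.upd, update_of_ne e, update_of_ne (hρ.ne e)]
          rw [update_of_ne (by omega), update_of_ne (by omega), hS]
      · intro r h1 h2 h3
        simp only [update_of_ne (h1 k), update_of_ne h2, update_of_ne h3]

theorem blk_run (hρ : Injective ρ) (hρ' : ∀ k, ρ k < 4 ∨ 9 < ρ k) (M : PolyTime.SM K)
    (lab : Option M.Q → ℕ) (here : M.Q → Fin 7 → ℕ) (hlab : ∀ q, lab (some q) = here q 0)
    (hP : ∀ q j, P[here q j]? = some (blk ρ lab (here q) (M.δ q) j))
    {o : Option M.Q} {S S' : PolyTime.Stk K} {t : ℕ} (h : M.RunsFrom o S S' t) (n : ℕ)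
    (hn : ∀ k, (S k).length + t ≤ n) (c : Cfg) (hpc : c.pc = lab o)
    (hS : ∀ k, c.reg (ρ k) = enc (S k)) (h4 : c.reg 4 = 1) (h9 : c.reg 9 = 0) :
    ∃ c', Seg P c c' (t * (7 * (2 * n + 7))) ∧ c'.pc = lab none ∧
      (∀ k, c'.reg (ρ k) = enc (S' k)) ∧ Agree ρ c c' := by
  induction h generalizing c with
  | done S t => exact ⟨c, Seg.refl _ _, hpc, hS, fun _ _ _ _ => rfl, rfl⟩
  | step q S S' t _ ih =>
    obtain ⟨c₁, h1, h2, h3, h5⟩ := blk_step hρ hρ' lab (here q) (M.δ q) (hP q) S n
      (fun k => by have := hn k; omega) c (by rw [hpc, hlab]) hS h4 h9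
    obtain ⟨c₂, h6, h7, h8, h10⟩ := ih
      (fun k => by have := hn k; have := PolyTime.SM.length_upd_le (M.δ q) S k; omega) c₁ h2 h3
      (by rw [h5.1 4 (fun k => by have := hρ' k; omega) (by omega) (by omega), h4])
      (by rw [h5.1 9 (fun k => by have := hρ' k; omega) (by omega) (by omega), h9])
    refine ⟨c₂, (h1.trans h6).mono (le_of_eq (by ring)), h7, h8, h5.trans h10⟩

end block

end Pool.Agent.Lib.MP_80ff63_lc
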