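import Pool.Agent.Lib.MP_80ff63_lc.Words

/-!
Correctness of the listing algorithm.
-/

set_option linter.unusedSimpArgs false

namespace Pool.Agent.Lib.MP_80ff63_lc

open Function Pool.Agent.Shared N487b59b3 N68a2faeb PolyTime Prog

variable {m k : ℕ} [NeZero k]

/-- The invariant of the memory, for the list `rs` of representatives found so far. -/
structure Inv (G : Subgroup (Equiv.Perm (Fin m))) (rs : List (Fin m → Fin k)) (μ : Adr → Val) :
    Prop where
  head : 0 ∈ rs
  que : ∀ i : ℕ, μ [2, i] = (rs[i]?.toList).map encW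
  nodup : rs.Pairwise (fun a b => ∀ g ∈ G, wact g a ≠ b)
  mono : rs.Pairwise (fun a b => lev a ≤ lev b)
  stab : ∀ R ∈ rs, ∃ L : List (Equiv.Perm (Fin m)), μ (1 :: encW R) = L.map encP ∧
    ∀ g, g ∈ gen L ↔ g ∈ G ∧ wact g R = R
  mark : ∀ w : Fin m → Fin k, μ (0 :: encW w) = [] ∨
    ∃ u ∈ G, μ (0 :: encW w) = [encP u] ∧ wact u w ∈ rs
  comp : ∀ R ∈ rs, ∀ p c, R p = 0 → c ≠ 0 → (∃ g ∈ G, wact g (update R p c) ∈ rs) →
    μ (0 :: encW (update R p c)) ≠ []

/-- All extensions of `R` are recorded. -/
def Done (μ : Adr → Val) (R : Fin m → Fin k) : Prop :=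
  ∀ p c, R p = 0 → c ≠ 0 → μ (0 :: encW (update R p c)) ≠ []

/-- All representatives of level below `j` are processed. -/
def Proc (rs : List (Fin m → Fin k)) (μ : Adr → Val) (j : ℕ) : Prop :=
  ∀ R ∈ rs, lev R < j → Done μ R

variable {G : Subgroup (Equiv.Perm (Fin m))} {rs : List (Fin m → Fin k)} {μ : Adr → Val}

theorem Inv.unique (h : Inv G rs μ) {R R' : Fin m → Fin k} (hR : R ∈ rs) (hR' : R' ∈ rs)
    {g : Equiv.Perm (Fin m)} (hg : g ∈ G) (e : wact g R = R') : R = R' := by
  by_contra hne
  have : Std.Symm (fun a b : Fin m → Fin k => ∀ g ∈ G, wact g a ≠ b) := ⟨by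
    intro a b hab g hg e
    exact hab g⁻¹ (G.inv_mem hg) (by rw [← e, wact_inv_wact])⟩
  exact h.nodup.forall hR hR' hne g hg e

theorem canon_aux (h : Inv G rs μ) {j : ℕ} (hj : Proc rs μ j) {w : Fin m → Fin k}
    (hw : lev w ≤ j) (o : List ℕ) (d n : ℕ) (hn : n + d = m) (g : Equiv.Perm (Fin m))
    (hg : g ∈ G) (hR : wact g (cut w n) ∈ rs) :
    ∃ g' ∈ G, run (foldM (canonStep (List.range m) (encW w)) (encP g) (List.range' n d)) ⟨μ, o⟩ =
      (encP g', ⟨μ, o⟩) ∧ wact g' w ∈ rs := by
  induction d generalizing n g with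
  | zero =>
    obtain rfl : n = m := hn
    exact ⟨g, hg, rfl, by rwa [cut_all] at hR⟩
  | succ d ih =>
    obtain ⟨i, rfl⟩ : ∃ i : Fin m, (i : ℕ) = n := ⟨⟨n, by omega⟩, rfl⟩
    rw [List.range'_succ, foldM, run_bind]
    by_cases e : w i = 0
    · have e1 : canonStep (List.range m) (encW w) (encP g) i = ret (encP g) := by
        simp [canonStep, e]
      rw [e1]
      refine ih (i + 1) (by omega) g hg ?_
      rw [cut_succ, e, ← cut_self w i, update_eq_self]
      exact hR
    · have e2 : wact g (cut w (i + 1)) = update (wact g (cut w i)) (g i) (w i) := by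
        rw [cut_succ, wact_update]
      have hl : lev (wact g (cut w i)) < j := by
        have h1 := lev_cut_le w (i + 1)
        rw [cut_succ, lev_update (cut_self w i) e] at h1
        rw [lev_wact]
        omega
      have h2 := hj _ hR hl (g i) (w i) (by rw [wact_apply, cut_self]) e
      rw [← e2] at h2
      obtain ⟨u, hu, h3, h4⟩ := (h.mark _).resolve_left h2
      have e1 : run (canonStep (List.range m) (encW w) (encP g) i) ⟨μ, o⟩ =
          (encP (u * g), ⟨μ, o⟩) := by
        simp [canonStep, e, rd, doAct, cutL_enc, actL_enc, h3, mulL_enc]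
      rw [e1]
      exact ih (i + 1) (by omega) (u * g) (G.mul_mem hu hg) (by rw [wact_mul]; exact h4)

theorem canon_spec (h : Inv G rs μ) {j : ℕ} (hj : Proc rs μ j) {w : Fin m → Fin k}
    (hw : lev w ≤ j) (o : List ℕ) :
    ∃ g ∈ G, run (canon (List.range m) (encW w)) ⟨μ, o⟩ = (encP g, ⟨μ, o⟩) ∧ wact g w ∈ rs := by
  have := canon_aux h hj hw o m 0 (by simp) 1 G.one_mem (by rw [cut_zero]; exact h.head)
  rwa [encP_one, ← List.range_eq_range'] at this

theorem collect_aux (h : Inv G rs μ) {j : ℕ} (hj : Proc rs μ j) {S : Fin m → Fin k}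
    (hS : lev S ≤ j + 1) (o : List ℕ) (l : List (Fin m)) (E₀ : List (Equiv.Perm (Fin m)))
    (h₀ : ∀ e ∈ E₀, e ∈ G) :
    ∃ E : List (Equiv.Perm (Fin m)),
      run (foldM (collectStep (List.range m) (encW S)) (E₀.map encP) (l.map Fin.val)) ⟨μ, o⟩ =
        (E.map encP, ⟨μ, o⟩) ∧ (∀ e ∈ E, e ∈ G) ∧ (∀ e ∈ E₀, e ∈ E) ∧
      ∀ s ∈ l, S s ≠ 0 → ∀ g ∈ G, wact g (update S s 0) ∈ rs →
        ∃ e ∈ E, e s = g s ∧ wact e (update S s 0) = wact g (update S s 0) := by
  induction l generalizing E₀ with
  | nil => exact ⟨E₀, rfl, h₀, fun _ h => h, by simp⟩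
  | cons s l ih =>
    rw [List.map_cons, foldM, run_bind]
    by_cases e : S s = 0
    · have e1 : collectStep (List.range m) (encW S) (E₀.map encP) s = ret (E₀.map encP) := by
        simp [collectStep, e]
      rw [e1]
      obtain ⟨E, h1, h2, h3, h4⟩ := ih E₀ h₀
      refine ⟨E, h1, h2, h3, fun s' hs' hne => ?_⟩
      rcases List.mem_cons.1 hs' with rfl | hs'
      · exact absurd e hne
      · exact h4 s' hs' hne
    · have hl : lev (update S s 0) ≤ j := by
        have := lev_update (w := update S s 0) (p := s) (c := S s) (by simp) e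
        rw [update_idem, update_eq_self] at this
        omega
      obtain ⟨g, hg, h5, h6⟩ := canon_spec h hj hl o
      obtain ⟨L, h7, h8⟩ := h.stab _ h6
      have e1 : run (collectStep (List.range m) (encW S) (E₀.map encP) s) ⟨μ, o⟩ =
          (((((permOps m).orb L (g s)).map fun t => t * g) ++ E₀).map encP, ⟨μ, o⟩) := by
        have e2 : orbL (List.range m) (L.map encP) (g s) = ((permOps m).orb L (g s)).map encP :=
          hom_enc.orb L (g s)
        simp [collectStep, e, rd, doAct, updL_enc_zero, actL_enc, h5, h7, e2, mulL_enc,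
          Function.comp_def]
      rw [e1]
      obtain ⟨-, o2, -, -⟩ := orb_spec L (g s)
      obtain ⟨E, h1, h2, h3, h4⟩ := ih ((((permOps m).orb L (g s)).map fun t => t * g) ++ E₀)
        (fun x hx => by
          rcases List.mem_append.1 hx with hx | hx
          · obtain ⟨t, ht, rfl⟩ := List.mem_map.1 hx
            exact G.mul_mem ((h8 t).1 (o2 t ht)).1 hg
          · exact h₀ x hx)
      refine ⟨E, h1, h2, fun x hx => h3 x (List.mem_append_right _ hx), fun s' hs' hne => ?_⟩
      rcases List.mem_cons.1 hs' with rfl | hs'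
      · intro g' hg' hm
        have e3 : wact (g' * g⁻¹) (wact g (update S s' 0)) = wact g' (update S s' 0) := by
          rw [wact_mul, wact_inv_wact]
        have hgg := G.mul_mem hg' (G.inv_mem hg)
        have e4 := h.unique h6 hm hgg e3
        obtain ⟨t, ht, e5⟩ := orb_complete L (g s') ((h8 (g' * g⁻¹)).2 ⟨hgg, e3.trans e4.symm⟩)
        refine ⟨t * g, h3 _ (List.mem_append_left _ (List.mem_map.2 ⟨t, ht, rfl⟩)),
          by simpa using e5, ?_⟩
        rw [wact_mul, ((h8 t).1 (o2 t ht)).2, e4]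
      · exact h4 s' hs' hne

theorem collect_spec (h : Inv G rs μ) {j : ℕ} (hj : Proc rs μ j) {S : Fin m → Fin k}
    (hS : lev S ≤ j + 1) (o : List ℕ) :
    ∃ E : List (Equiv.Perm (Fin m)),
      run (collect (List.range m) (encW S)) ⟨μ, o⟩ = (E.map encP, ⟨μ, o⟩) ∧ (∀ e ∈ E, e ∈ G) ∧
      ∀ s, S s ≠ 0 → ∀ g ∈ G, wact g (update S s 0) ∈ rs →
        ∃ e ∈ E, e s = g s ∧ wact e S = wact g S := by
  obtain ⟨E, h1, h2, -, h4⟩ := collect_aux h hj hS o (List.finRange m) [] (by simp)
  rw [← range_eq_map] at h1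
  refine ⟨E, h1, h2, fun s hs g hg hm => ?_⟩
  obtain ⟨e, he, h5, h6⟩ := h4 s (List.mem_finRange s) hs g hg hm
  refine ⟨e, he, h5, ?_⟩
  have : S = update (update S s 0) s (S s) := by rw [update_idem, update_eq_self]
  rw [this, wact_update e (update S s 0), wact_update g (update S s 0), h5, h6]

omit [NeZero k] in
theorem mark_spec (S : Fin m → Fin k) (o : List ℕ) (E : List (Equiv.Perm (Fin m)))
    (μ : Adr → Val) : ∃ μ' : Adr → Val,
    run (foldM (markStep k (List.range m) (encW S)) () (E.map encP)) ⟨μ, o⟩ = ((), ⟨μ', o⟩) ∧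
    ∀ a, (μ' a = μ a ∧ ∀ e ∈ E, a ≠ 0 :: encW (wact e S)) ∨
      ∃ e ∈ E, a = 0 :: encW (wact e S) ∧ μ' a = [encP e⁻¹] := by
  induction E generalizing μ with
  | nil => exact ⟨μ, rfl, fun a => Or.inl ⟨rfl, by simp⟩⟩
  | cons e E ih =>
    rw [List.map_cons, foldM, run_bind]
    have e1 : run (markStep k (List.range m) (encW S) () (encP e)) ⟨μ, o⟩ =
        ((), ⟨update μ (0 :: encW (wact e S)) [encP e⁻¹], o⟩) := by
      have := clip_perms (k := k) (L := [e⁻¹]) (by simp)
      simp only [List.map_cons, List.map_nil] at this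
      simp [markStep, wr, doAct, actL_enc, invL_enc, this]
    rw [e1]
    obtain ⟨μ', h1, h2⟩ := ih (update μ (0 :: encW (wact e S)) [encP e⁻¹])
    refine ⟨μ', h1, fun a => ?_⟩
    rcases h2 a with ⟨h3, h4⟩ | ⟨e', h3, h4⟩
    · by_cases ha : a = 0 :: encW (wact e S)
      · exact Or.inr ⟨e, by simp, ha, by rw [h3, ha, update_self]⟩
      · refine Or.inl ⟨by rw [h3, update_of_ne ha], fun e' he' => ?_⟩
        rcases List.mem_cons.1 he' with rfl | he'
        · exact ha
        · exact h4 e' he'
    · exact Or.inr ⟨e', by simp [h3], h4⟩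

theorem create_spec (h : Inv G rs μ) {R : Fin m → Fin k} (hR : R ∈ rs) (hP : Proc rs μ (lev R))
    (hb : ∀ R' ∈ rs, lev R' ≤ lev R + 1) {L : List (Equiv.Perm (Fin m))}
    (hL : ∀ g, g ∈ gen L ↔ g ∈ G ∧ wact g R = R) {p : Fin m} {c : Fin k} (hp : R p = 0)
    (hc : c ≠ 0) (hnew : μ (0 :: encW (update R p c)) = []) (o : List ℕ) :
    ∃ μ' : Adr → Val,
      run (create k (List.range m) (encW (update R p c)) (L.map encP) p rs.length) ⟨μ, o⟩ =
        (rs.length + 1, ⟨μ', o⟩) ∧ Inv G (rs ++ [update R p c]) μ' ∧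
      ∀ w : Fin m → Fin k, μ (0 :: encW w) ≠ [] → μ' (0 :: encW w) ≠ [] := by
  set S := update R p c with hS
  have hlev : lev S = lev R + 1 := lev_update hp hc
  have hSR : update S p 0 = R := by rw [hS, update_idem, ← hp, update_eq_self]
  have hSp : S p = c := by simp [hS]
  have hno : ∀ g ∈ G, wact g S ∉ rs := fun g hg hm => h.comp R hR p c hp hc ⟨g, hg, hm⟩ hnew
  obtain ⟨E, c1, c2, c3⟩ := collect_spec h hP hlev.le o
  obtain ⟨μ₁, m1, m2⟩ := mark_spec S o E μ
  let L₀ := (permOps m).schreier L p ++ E.filter fun e => decide (wact e S = S)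
  obtain ⟨s1, s2⟩ := sims_spec L₀
  have e1 : simsL (List.range m) (schreierL (List.range m) (L.map encP) p ++ (E.map encP).filter
      fun e => decide (actL (List.range m) e (encW S) = encW S)) =
      ((permOps m).sims L₀).map encP := by
    have e2 : schreierL (List.range m) (L.map encP) p = ((permOps m).schreier L p).map encP :=
      hom_enc.schreier L p
    rw [e2, List.filter_map, ← List.map_append]
    refine Eq.trans ?_ (hom_enc.sims L₀)
    unfold simsL
    congr 3
    refine List.filter_congr fun e _ => ?_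
    simp [actL_enc, encW_injective.eq_iff]
  let μ' := update (update μ₁ (1 :: encW S) (((permOps m).sims L₀).map encP)) [2, rs.length]
    [encW S]
  have f0 : ∀ w : Fin m → Fin k, μ' (0 :: encW w) = μ₁ (0 :: encW w) := fun w => by
    simp only [μ']
    rw [update_of_ne (by simp), update_of_ne (by simp)]
  have f1 : ∀ a : Adr, a.head? ≠ some 0 → μ₁ a = μ a := fun a ha => by
    rcases m2 a with ⟨h1, -⟩ | ⟨e, -, rfl, -⟩
    · exact h1
    · simp at ha
  have pers : ∀ w : Fin m → Fin k, μ (0 :: encW w) ≠ [] → μ' (0 :: encW w) ≠ [] := by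
    intro w hw
    rw [f0]
    rcases m2 (0 :: encW w) with ⟨h1, -⟩ | ⟨e, -, -, h1⟩
    · rwa [h1]
    · simp [h1]
  refine ⟨μ', ?_, ⟨List.mem_append_left _ h.head, fun i => ?_, ?_, ?_, ?_, ?_, ?_⟩, pers⟩
  · simp only [create, run_bind, c1, m1, e1, wr, run_one, doAct, run_ret, clip_word,
      clip_perms (s2.trans (Nat.le_succ _)), μ']
  · by_cases hi : i = rs.length
    · subst hi
      simp [μ']
    · simp only [μ']
      rw [update_of_ne (by simp [hi]), update_of_ne (by simp), f1 _ (by simp), h.que]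
      rcases lt_or_gt_of_ne hi with hi | hi
      · rw [List.getElem?_append_left hi]
      · rw [List.getElem?_eq_none hi.le, List.getElem?_eq_none (by simp; omega)]
  · refine List.pairwise_append.2 ⟨h.nodup, List.pairwise_singleton _ _, fun a ha b hb' g hg e => ?_⟩
    obtain rfl : b = S := by simpa using hb'
    exact hno g⁻¹ (G.inv_mem hg) (by rw [← e, wact_inv_wact]; exact ha)
  · refine List.pairwise_append.2 ⟨h.mono, List.pairwise_singleton _ _, fun a ha b hb' => ?_⟩
    obtain rfl : b = S := by simpa using hb'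
    rw [hlev]
    exact hb a ha
  · intro R' hR'
    rcases List.mem_append.1 hR' with hR' | hR'
    · obtain ⟨L', h1, h2⟩ := h.stab R' hR'
      refine ⟨L', ?_, h2⟩
      have hne : R' ≠ S := fun e => hno 1 G.one_mem (by rw [wact_one, ← e]; exact hR')
      simp only [μ']
      rw [update_of_ne (by simp), update_of_ne (by simp [encW_injective.eq_iff, hne]),
        f1 _ (by simp), h1]
    · obtain rfl : R' = S := by simpa using hR'
      refine ⟨(permOps m).sims L₀, by simp [μ'], fun g => ?_⟩
      rw [s1]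
      constructor
      · intro hg
        let K : Subgroup (Equiv.Perm (Fin m)) :=
          { carrier := {g | g ∈ G ∧ wact g S = S}
            mul_mem' := fun ha hb => ⟨G.mul_mem ha.1 hb.1, by rw [wact_mul, hb.2, ha.2]⟩
            one_mem' := ⟨G.one_mem, rfl⟩
            inv_mem' := fun {x} ha => ⟨G.inv_mem ha.1, by
              conv_lhs => rw [← ha.2]
              exact wact_inv_wact _ _⟩ }
        refine (gen_le (H := K) fun x hx => ?_) hg
        rcases List.mem_append.1 hx with hx | hx
        · obtain ⟨h1, h2⟩ := schreier_mem hx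
          obtain ⟨h3, h4⟩ := (hL x).1 h1
          exact ⟨h3, by rw [hS, wact_update, h4, h2]⟩
        · obtain ⟨h1, h2⟩ := List.mem_filter.1 hx
          exact ⟨c2 x h1, by simpa using h2⟩
      · rintro ⟨hg, hgS⟩
        have h1 : S (g⁻¹ p) = c := by
          rw [← hSp]
          conv_rhs => rw [← hgS]
          rfl
        have h0 : g (g⁻¹ p) = p := by simp
        have h2 : wact g (update S (g⁻¹ p) 0) = R := by
          rw [wact_update, hgS, h0, hSR]
        obtain ⟨e, he, h3, h4⟩ := c3 (g⁻¹ p) (by rw [h1]; exact hc) g hg (by rw [h2]; exact hR)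
        rw [hgS] at h4
        rw [h0] at h3
        have h5 : (g * e⁻¹) p = p := by
          rw [Equiv.Perm.mul_apply]
          conv_lhs => rw [← h3]
          simp
        have h6 : wact (g * e⁻¹) S = S := by
          rw [wact_mul]
          conv_lhs => rw [← h4]
          rw [wact_inv_wact, hgS]
        have h7 : wact (g * e⁻¹) R = R := by
          rw [← hSR, wact_update, h6, h5]
        have h8 := schreier_complete ((hL _).2 ⟨G.mul_mem hg (G.inv_mem (c2 e he)), h7⟩) h5
        have h9 : gen ((permOps m).schreier L p) ≤ gen L₀ :=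
          gen_le fun x hx => mem_gen (List.mem_append_left _ hx)
        have h10 : e ∈ gen L₀ :=
          mem_gen (List.mem_append_right _ (List.mem_filter.2 ⟨he, by simpa using h4⟩))
        simpa using (gen L₀).mul_mem (h9 h8) h10
  · intro w
    rw [f0]
    rcases m2 (0 :: encW w) with ⟨h1, -⟩ | ⟨e, he, h1, h2⟩
    · rw [h1]
      rcases h.mark w with h2 | ⟨u, hu, h2, h3⟩
      · exact Or.inl h2
      · exact Or.inr ⟨u, hu, h2, List.mem_append_left _ h3⟩
    · obtain rfl : w = wact e S := encW_injective (by simpa using h1)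
      exact Or.inr ⟨e⁻¹, G.inv_mem (c2 e he), h2, by simp⟩
  · rintro R' hR' p' c' hp' hc' ⟨g, hg, hm⟩
    have hl := lev_wact g (update R' p' c')
    rw [lev_update hp' hc'] at hl
    rcases List.mem_append.1 hR' with hR' | hR'
    · rcases List.mem_append.1 hm with hm | hm
      · exact pers _ (h.comp R' hR' p' c' hp' hc' ⟨g, hg, hm⟩)
      · have h1 : wact g (update R' p' c') = S := by simpa using hm
        have h2 : wact g⁻¹ S = update R' p' c' := by rw [← h1, wact_inv_wact]
        have h3 : S (g p') = c' := by rw [← h1]; simp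
        obtain ⟨e, he, -, h4⟩ := c3 (g p') (by rw [h3]; exact hc') g⁻¹ (G.inv_mem hg) (by
          rw [wact_update, h2, show g⁻¹ (g p') = p' by simp, update_idem, ← hp', update_eq_self]
          exact hR')
        rw [f0, ← h2, ← h4]
        rcases m2 (0 :: encW (wact e S)) with ⟨-, h5⟩ | ⟨e', -, -, h5⟩
        · exact absurd rfl (h5 e he)
        · simp [h5]
    · obtain rfl : R' = S := by simpa using hR'
      rcases List.mem_append.1 hm with hm | hm
      · have := hb _ hm
        omega
      · have h1 : wact g (update S p' c') = S := by simpa using hm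
        rw [h1] at hl
        omega

/-- The invariant while the extensions of `R` are processed. -/
def Mid (G : Subgroup (Equiv.Perm (Fin m))) (R : Fin m → Fin k) (rs : List (Fin m → Fin k))
    (μ : Adr → Val) : Prop :=
  Inv G rs μ ∧ R ∈ rs ∧ Proc rs μ (lev R) ∧ ∀ R' ∈ rs, lev R' ≤ lev R + 1

theorem flag_spec {R : Fin m → Fin k} (h : Mid G R rs μ) {L : List (Equiv.Perm (Fin m))}
    (hL : ∀ g, g ∈ gen L ↔ g ∈ G ∧ wact g R = R) (p : Fin m) {c : Fin k} (hc : c ≠ 0)
    (o : List ℕ) :
    ∃ (rs' : List (Fin m → Fin k)) (μ' : Adr → Val),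
      run (flag k (List.range m) (encW R) (L.map encP) rs.length (p, c)) ⟨μ, o⟩ =
        (rs'.length, ⟨μ', o⟩) ∧ Mid G R rs' μ' ∧ rs <+: rs' ∧
      (∀ w : Fin m → Fin k, μ (0 :: encW w) ≠ [] → μ' (0 :: encW w) ≠ []) ∧
      (R p = 0 → μ' (0 :: encW (update R p c)) ≠ []) := by
  by_cases hp : R p = 0
  · by_cases hnew : μ (0 :: encW (update R p c)) = []
    · obtain ⟨h1, h2, h3, h4⟩ := h
      obtain ⟨μ', c1, c2, c3⟩ := create_spec h1 h2 h3 h4 hL hp hc hnew o
      have hlev : lev (update R p c) = lev R + 1 := lev_update hp hc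
      refine ⟨rs ++ [update R p c], μ', ?_, ⟨c2, List.mem_append_left _ h2, ?_, ?_⟩,
        List.prefix_append _ _, c3, fun _ => ?_⟩
      · simp [flag, hp, rd, doAct, updL_enc, hnew, c1]
      · intro R' hR' hl
        rcases List.mem_append.1 hR' with hR' | hR'
        · exact fun p' c' hp' hc' => c3 _ (h3 R' hR' hl p' c' hp' hc')
        · obtain rfl : R' = update R p c := by simpa using hR'
          omega
      · intro R' hR'
        rcases List.mem_append.1 hR' with hR' | hR'
        · exact h4 R' hR'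
        · obtain rfl : R' = update R p c := by simpa using hR'
          omega
      · exact c2.comp R (List.mem_append_left _ h2) p c hp hc ⟨1, G.one_mem, by simp⟩
    · refine ⟨rs, μ, ?_, h, List.prefix_refl _, fun _ h => h, fun _ => hnew⟩
      have : (μ (0 :: encW (update R p c))).isEmpty = false := by simpa using hnew
      simp [flag, hp, rd, doAct, updL_enc, this]
  · refine ⟨rs, μ, ?_, h, List.prefix_refl _, fun _ h => h, fun h => absurd h hp⟩
    simp [flag, hp]

theorem flags_spec {R : Fin m → Fin k} {L : List (Equiv.Perm (Fin m))}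
    (hL : ∀ g, g ∈ gen L ↔ g ∈ G ∧ wact g R = R) (o : List ℕ) (l : List (ℕ × ℕ))
    (hl : ∀ z ∈ l, z.1 < m ∧ 0 < z.2 ∧ z.2 < k) (h : Mid G R rs μ) :
    ∃ (rs' : List (Fin m → Fin k)) (μ' : Adr → Val),
      run (foldM (flag k (List.range m) (encW R) (L.map encP)) rs.length l) ⟨μ, o⟩ =
        (rs'.length, ⟨μ', o⟩) ∧ Mid G R rs' μ' ∧ rs <+: rs' ∧
      (∀ w : Fin m → Fin k, μ (0 :: encW w) ≠ [] → μ' (0 :: encW w) ≠ []) ∧
      ∀ (p : Fin m) (c : Fin k), ((p : ℕ), (c : ℕ)) ∈ l → R p = 0 →
        μ' (0 :: encW (update R p c)) ≠ [] := by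
  induction l generalizing rs μ with
  | nil => exact ⟨rs, μ, rfl, h, List.prefix_refl _, fun _ h => h, by simp⟩
  | cons z l ih =>
    obtain ⟨p₀, c₀⟩ := z
    obtain ⟨z1, z2, z3⟩ := hl (p₀, c₀) (by simp)
    obtain ⟨p, rfl⟩ : ∃ p : Fin m, (p : ℕ) = p₀ := ⟨⟨p₀, z1⟩, rfl⟩
    obtain ⟨c, rfl⟩ : ∃ c : Fin k, (c : ℕ) = c₀ := ⟨⟨c₀, z3⟩, rfl⟩
    obtain ⟨rs₁, μ₁, h1, h2, h3, h4, h5⟩ := flag_spec h hL p (c := c)
      (fun e => by simp [e] at z2) o
    obtain ⟨rs₂, μ₂, h6, h7, h8, h9, h10⟩ := ih (fun z hz => hl z (by simp [hz])) h2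
    refine ⟨rs₂, μ₂, by rw [foldM, run_bind, h1]; exact h6, h7, h3.trans h8,
      fun w hw => h9 w (h4 w hw), fun p' c' hz hp' => ?_⟩
    rcases List.mem_cons.1 hz with hz | hz
    · obtain ⟨e1, e2⟩ := Prod.mk.inj hz
      obtain rfl : p' = p := Fin.ext e1
      obtain rfl : c' = c := Fin.ext e2
      exact h9 _ (h5 hp')
    · exact h10 p' c' hz hp'

/-- The number that is output for a word. -/
def code (w : Fin m → Fin k) : ℕ := Nat.ofDigits k (encW w)

/-- The invariant between phases. -/
def Top (G : Subgroup (Equiv.Perm (Fin m))) (a : ℕ) (rs : List (Fin m → Fin k)) (w : World) :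
    Prop :=
  Inv G rs w.mem ∧ a ≤ rs.length ∧ (∀ i < a, ∀ R, rs[i]? = some R → Done w.mem R) ∧
    (∀ R, rs[a]? = some R → ∀ R' ∈ rs, lev R' ≤ lev R + 1) ∧ w.out = (rs.take a).map code

theorem process_spec {a : ℕ} {w : World} (h : Top G a rs w) {R : Fin m → Fin k}
    (hR : rs[a]? = some R) (gens : Val) :
    ∃ (rs' : List (Fin m → Fin k)) (w' : World),
      run (process k (List.range m, gens, a, rs.length) (encW R)) w =
        (some (List.range m, gens, a + 1, rs'.length), w') ∧ Top G (a + 1) rs' w' := by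
  obtain ⟨μ, o⟩ := w
  obtain ⟨h1, h2, h3, h4, h5⟩ := h
  simp only at h1 h3 h5
  obtain ⟨ha, hR'⟩ := List.getElem?_eq_some_iff.1 hR
  have hm : R ∈ rs := List.mem_of_getElem? hR
  obtain ⟨L, l1, l2⟩ := h1.stab R hm
  have hP : Proc rs μ (lev R) := by
    intro R' hR'' hl
    obtain ⟨i, hi, rfl⟩ := List.getElem_of_mem hR''
    refine h3 i ?_ _ (List.getElem?_eq_getElem hi)
    by_contra hia
    rcases eq_or_lt_of_le (not_lt.1 hia) with e | e
    · subst e
      rw [hR'] at hl
      omega
    · have := List.pairwise_iff_getElem.1 h1.mono a i ha hi e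
      rw [hR'] at this
      omega
  obtain ⟨rs', μ', f1, ⟨f2, -, -, f3⟩, f4, f5, f6⟩ := flags_spec (μ := μ) l2 (o ++ [code R])
    (flags k (List.range m)) (fun z hz => by
      obtain ⟨p, hp, hz⟩ := List.mem_flatMap.1 hz
      obtain ⟨c, hc, rfl⟩ := List.mem_map.1 hz
      rw [List.mem_range'_1] at hc
      exact ⟨List.mem_range.1 hp, by omega, by omega⟩) ⟨h1, hm, hP, h4 R hR⟩
  have pre : ∀ i < rs.length, rs'[i]? = rs[i]? := fun i hi => by
    obtain ⟨t, rfl⟩ := f4
    exact List.getElem?_append_left hi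
  have hlen := f4.length_le
  refine ⟨rs', ⟨μ', o ++ [code R]⟩, ?_, f2, by omega, ?_, ?_, ?_⟩
  · simp only [code] at f1
    simp only [process, run_bind, run_one, doAct, rd, l1, f1, run_ret, code]
  · intro i hi R' hR''
    rw [pre i (by omega)] at hR''
    rcases eq_or_lt_of_le (Nat.lt_succ_iff.1 hi) with e | e
    · subst e
      obtain rfl : R = R' := by simpa [hR] using hR''
      intro p c hp hc
      refine f6 p c (List.mem_flatMap.2 ⟨p, List.mem_range.2 p.2, List.mem_map.2 ⟨c, ?_, rfl⟩⟩) hp
      have := c.2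
      have : (c : ℕ) ≠ 0 := fun e => hc (Fin.ext (by simpa using e))
      rw [List.mem_range'_1]
      omega
    · exact fun p c hp hc => f5 _ (h3 i e R' hR'' p c hp hc)
  · intro R₁ hR₁ R' hR''
    obtain ⟨ha₁, hR₁⟩ := List.getElem?_eq_some_iff.1 hR₁
    have h6 := List.pairwise_iff_getElem.1 f2.mono a (a + 1) (by omega) ha₁ (by omega)
    have h7 : rs'[a] = R := by
      have := pre a ha
      rw [hR] at this
      exact (List.getElem?_eq_some_iff.1 this).2
    rw [h7, hR₁] at h6
    have := f3 R' hR''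
    omega
  · obtain ⟨t, rfl⟩ := f4
    simp only [h5]
    rw [List.take_append_of_le_length (by omega), List.take_add_one, hR, List.map_append]
    rfl

theorem setup_spec (gens : List (Equiv.Perm (Fin m))) :
    Top (k := k) (gen gens) 0 [0]
      (run (setup k (List.range m) (gens.map encP)) ⟨fun _ => [], []⟩).2 := by
  obtain ⟨s1, s2⟩ := sims_spec gens
  have e1 : simsL (List.range m) (gens.map encP) = ((permOps m).sims gens).map encP :=
    hom_enc.sims gens
  simp only [setup, run_bind, wr, run_one, doAct, zeroL_enc (k := k), clip_word, e1,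
    clip_perms (s2.trans (Nat.le_succ _))]
  refine ⟨⟨by simp, fun i => ?_, by simp, by simp, ?_, fun w => Or.inl (by simp), ?_⟩, by simp,
    by simp, by simp, rfl⟩
  · cases i <;> simp
  · intro R hR
    obtain rfl : R = 0 := by simpa using hR
    exact ⟨(permOps m).sims gens, by simp, fun g => by rw [s1]; exact ⟨fun h => ⟨h, rfl⟩, And.left⟩⟩
  · rintro R hR p c hp hc ⟨g, -, hm⟩
    obtain rfl : R = 0 := by simpa using hR
    have h1 := lev_wact g (update (0 : Fin m → Fin k) p c)
    rw [lev_update hp hc, List.mem_singleton.1 hm] at h1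
    omega

theorem Inv.length_le (h : Inv G rs μ) : rs.length ≤ k ^ m := by
  have : rs.Nodup := h.nodup.imp fun hab => hab 1 G.one_mem
  simpa using this.length_le_card

theorem halts_phase (gens : List (Equiv.Perm (Fin m))) (N : ℕ) (hw : wBound k m ≤ N)
    (hd : dBound k m ≤ N) (hs : ∀ a n, a ≤ k ^ m → n ≤ k ^ m →
      bsize ((List.range m, gens.map encP, a, n) : State) ≤ N)
    (d a : ℕ) (ha : a + d = k ^ m) (rs : List (Fin m → Fin k)) (w : World)
    (h : Top (gen gens) a rs
      (run (bif decide (a = 0) then setup k (List.range m) (gens.map encP) else ret []) w).2)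
    (ho : w.out.length ≤ a) :
    ∃ ws : List (Fin m → Fin k),
      Halts (phase k) N (List.range m, gens.map encP, a, rs.length) w (ws.map code) ∧
      ws.Pairwise (fun a b => ∀ g ∈ gen gens, wact g a ≠ b) ∧
      ∀ α, ∃ g ∈ gen gens, wact g α ∈ ws := by
  induction d generalizing a rs w with
  | zero =>
    have h1 := h.1.length_le
    have h2 := h.2.1
    have hst : St N (phase k (List.range m, gens.map encP, a, rs.length)) N :=
      (st_phase k _).mono (by simpa using hw) (by simpa using hd)
    have e : rs[a]? = none := List.getElem?_eq_none (by omega)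
    have hq := h.1.que a
    rw [e] at hq
    have hr : run (phase k (List.range m, gens.map encP, a, rs.length)) w = (none,
        (run (bif decide (a = 0) then setup k (List.range m) (gens.map encP) else ret []) w).2) := by
      simp [phase, rd, doAct, hq]
    refine ⟨rs, ?_, h.1.nodup, fun α => ?_⟩
    · have := Halts.stop (ph := phase k) _ w (hs a rs.length (by omega) h1) hst (by rw [hr])
      rw [hr, h.2.2.2.2, List.take_of_length_le (by omega)] at this
      exact this
    · obtain ⟨g, hg, -, h3⟩ := canon_spec h.1 (j := lev α) (fun R hR _ => by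
        obtain ⟨i, hi, rfl⟩ := List.getElem_of_mem hR
        exact h.2.2.1 i (by omega) _ (List.getElem?_eq_getElem hi)) le_rfl []
      exact ⟨g, hg, h3⟩
  | succ d ih =>
    have h1 := h.1.length_le
    have h2 := h.2.1
    have hst : St N (phase k (List.range m, gens.map encP, a, rs.length)) N :=
      (st_phase k _).mono (by simpa using hw) (by simpa using hd)
    have hq := h.1.que a
    rcases e : rs[a]? with _ | R
    · rw [e] at hq
      have e' := List.getElem?_eq_none_iff.1 e
      have hr : run (phase k (List.range m, gens.map encP, a, rs.length)) w = (none,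
          (run (bif decide (a = 0) then setup k (List.range m) (gens.map encP) else ret [])
            w).2) := by
        simp [phase, rd, doAct, hq]
      refine ⟨rs, ?_, h.1.nodup, fun α => ?_⟩
      · have := Halts.stop (ph := phase k) _ w (hs a rs.length (by omega) h1) hst (by rw [hr])
        rw [hr, h.2.2.2.2, List.take_of_length_le (by omega)] at this
        exact this
      · obtain ⟨g, hg, -, h3⟩ := canon_spec h.1 (j := lev α) (fun R hR _ => by
          obtain ⟨i, hi, rfl⟩ := List.getElem_of_mem hR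
          exact h.2.2.1 i (by omega) _ (List.getElem?_eq_getElem hi)) le_rfl []
        exact ⟨g, hg, h3⟩
    · rw [e] at hq
      obtain ⟨rs', w', p1, p2⟩ := process_spec h e (gens.map encP)
      have hr : run (phase k (List.range m, gens.map encP, a, rs.length)) w =
          (some (List.range m, gens.map encP, a + 1, rs'.length), w') := by
        rw [← p1]
        simp [phase, rd, doAct, hq]
      have ho' : w'.out.length = a + 1 := by
        rw [p2.2.2.2.2, List.length_map, List.length_take]
        exact min_eq_left p2.2.1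
      obtain ⟨ws, q1, q2⟩ := ih (a + 1) (by omega) rs' w' (by simpa using p2) ho'.le
      refine ⟨ws, Halts.more _ _ w _ (hs a rs.length (by omega) h1) hst (by rw [hr]) ?_ ?_, q2⟩
      · rw [hr]
        simp only
        omega
      · rw [hr]
        exact q1

end Pool.Agent.Lib.MP_80ff63_lc
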