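import Mathlib

/-!
A random access machine (Cook and Reckhow) over natural numbers, with logarithmic cost.
Every instruction names the label of the next instruction.
-/

namespace Pool.Agent.Lib.MP_80ff63_lc

/-- Instructions; `X i` is the content of register `i`, the last arguments are labels. -/
inductive Instr : Type
  /-- `X i := c` -/
  | const (i c next : ℕ) : Instr
  /-- `X i := X j + X l` -/
  | add (i j l next : ℕ) : Instr
  /-- `X i := X j - X l` (truncated) -/
  | sub (i j l next : ℕ) : Instr
  /-- `X i := X j / 2` -/
  | half (i j next : ℕ) : Instr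
  /-- `X i := X (X j)` -/
  | load (i j next : ℕ) : Instr
  /-- `X (X i) := X j` -/
  | store (i j next : ℕ) : Instr
  /-- go to `yes` if `X i = 0`, else to `no` -/
  | jz (i yes no : ℕ) : Instr
  /-- `X i :=` the next input number; go to `eof` if the input is exhausted -/
  | read (i next eof : ℕ) : Instr
  /-- append `X i` to the output -/
  | write (i next : ℕ) : Instr

/-- A configuration: current label, registers, unread input, output so far. -/
structure Cfg : Type where
  pc : ℕ
  reg : ℕ → ℕ
  inp : List ℕ
  out : List ℕ

/-- The effect of one instruction. -/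
def exec (c : Cfg) : Instr → Cfg
  | .const i a n => ⟨n, Function.update c.reg i a, c.inp, c.out⟩
  | .add i j l n => ⟨n, Function.update c.reg i (c.reg j + c.reg l), c.inp, c.out⟩
  | .sub i j l n => ⟨n, Function.update c.reg i (c.reg j - c.reg l), c.inp, c.out⟩
  | .half i j n => ⟨n, Function.update c.reg i (c.reg j / 2), c.inp, c.out⟩
  | .load i j n => ⟨n, Function.update c.reg i (c.reg (c.reg j)), c.inp, c.out⟩
  | .store i j n => ⟨n, Function.update c.reg (c.reg i) (c.reg j), c.inp, c.out⟩
  | .jz i y n => ⟨if c.reg i = 0 then y else n, c.reg, c.inp, c.out⟩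
  | .read i n e => ⟨if c.inp = [] then e else n, Function.update c.reg i (c.inp.headD 0),
      c.inp.tail, c.out⟩
  | .write i n => ⟨n, c.reg, c.inp, c.out ++ [c.reg i]⟩

/-- Logarithmic cost of one instruction: one plus the binary lengths of its operands. -/
def instrCost (c : Cfg) : Instr → ℕ
  | .const _ a _ => 1 + a.size
  | .add _ j l _ => 1 + (c.reg j).size + (c.reg l).size
  | .sub _ j l _ => 1 + (c.reg j).size + (c.reg l).size
  | .half _ j _ => 1 + (c.reg j).size
  | .load _ j _ => 1 + (c.reg j).size + (c.reg (c.reg j)).size
  | .store i j _ => 1 + (c.reg i).size + (c.reg j).size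
  | .jz i _ _ => 1 + (c.reg i).size
  | .read _ _ _ => 1 + (c.inp.headD 0).size
  | .write i _ => 1 + (c.reg i).size

/-- One step of the program `P`; the machine has halted when its label is outside `P`. -/
def step (P : List Instr) (c : Cfg) : Cfg := (P[c.pc]?).elim c (exec c)

/-- The cost of the step made from `c`. -/
def cost (P : List Instr) (c : Cfg) : ℕ := (P[c.pc]?).elim 0 (instrCost c)

/-- The configuration after `t` steps on the input `x` (label `0`, all registers `0`). -/
def conf (P : List Instr) (x : List ℕ) (t : ℕ) : Cfg := (step P)^[t] ⟨0, fun _ => 0, x, []⟩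

end Pool.Agent.Lib.MP_80ff63_lc
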