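import Pool.Agent.Lib.MP_80ff63_lc.Correct

/-!
Parsing of the input and the final assembly.
-/

set_option linter.unusedSimpArgs false

namespace Pool.Agent.Lib.MP_80ff63_lc

open Function Pool.Agent.Shared N487b59b3 N68a2faeb PolyTime Prog

/-- Read back a list of numbers written in unary. -/
def parse (u : List Bool) : List ℕ × ℕ :=
  u.foldr (fun b s => bif b then (s.1, s.2 + 1) else (s.1 ++ [s.2], 0)) ([], 0)

theorem parse_replicate (a : ℕ) (st : List Bool) :
    parse (List.replicate a true ++ st) = ((parse st).1, (parse st).2 + a) := by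
  induction a with
  | zero => rfl
  | succ a ih =>
    rw [List.replicate_succ, List.cons_append, parse, List.foldr_cons, ← parse, ih]
    rfl

theorem parse_unary (x : List ℕ) (st : List Bool) (h : (parse st).2 = 0) :
    parse (unary st x) = ((parse st).1 ++ x, 0) := by
  induction x generalizing st with
  | nil => simp [unary, ← h]
  | cons a x ih =>
    have e : parse (false :: (List.replicate a true ++ st)) = ((parse st).1 ++ [a], 0) := by
      rw [parse, List.foldr_cons, ← parse, parse_replicate, h]
      simp
    have := ih (false :: (List.replicate a true ++ st)) (by rw [e])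
    rw [e] at this
    simpa [unary] using this

theorem parse_bound (u : List Bool) : (parse u).1.length ≤ u.length ∧
    (∀ y ∈ (parse u).1, y ≤ u.length) ∧ (parse u).2 ≤ u.length := by
  induction u with
  | nil => simp [parse]
  | cons b u ih =>
    obtain ⟨h1, h2, h3⟩ := ih
    rw [parse, List.foldr_cons, ← parse]
    cases b
    · refine ⟨by simpa using h1, fun y hy => ?_, by simp⟩
      rcases List.mem_append.1 hy with hy | hy
      · exact (h2 y hy).trans (by simp)
      · obtain rfl : y = (parse u).2 := by simpa using hy
        exact h3.trans (by simp)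
    · exact ⟨h1.trans (by simp), fun y hy => (h2 y hy).trans (by simp), by simpa using h3⟩

theorem pt_parse : IsPolyTime (fun r : Raw => parse r.bits) := by
  refine IsPolyTime.foldr (f := fun (_ : Raw) (b : Bool) (s : List ℕ × ℕ) =>
    bif b then (s.1, s.2 + 1) else (s.1 ++ [s.2], 0)) (init := fun _ => ([], 0)) (by fun_prop)
    (by fun_prop) (by fun_prop)
    (fun r => 2 * (r.bits.length * (2 * r.bits.length + 1)) + 1 + r.bits.length) (by fun_prop) ?_
  intro r i
  obtain ⟨h1, h2, h3⟩ := parse_bound (r.bits.drop i)
  have h4 : (r.bits.drop i).length ≤ r.bits.length := by simp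
  have h5 := bsize_list_le (parse (r.bits.drop i)).1 r.bits.length
    (fun a ha => (bsize_nat_le_self a).trans ((h2 a ha).trans h4))
  have h6 := Nat.mul_le_mul_right (2 * r.bits.length + 1) (h1.trans h4)
  have h7 := bsize_nat_le_self (parse (r.bits.drop i)).2
  change bsize (parse (r.bits.drop i)) ≤ _
  rw [bsize_prod]
  omega

/-- The first state. -/
def initState (r : Raw) : State :=
  (List.range ((parse r.bits).1.headD 0),
    (List.range ((parse r.bits).1.tail.length / (parse r.bits).1.headD 0)).map fun j =>
      ((parse r.bits).1.tail.drop (j * (parse r.bits).1.headD 0)).take ((parse r.bits).1.headD 0),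
    0, 1)

theorem pt_initState : IsPolyTime initState := by
  have h := pt_parse
  have h1 : IsPolyTime (fun r : Raw => List.range ((parse r.bits).1.headD 0)) := by
    refine IsPolyTime.range (by fun_prop) (PolyBdd.of_le (g := fun r : Raw => r.bits.length)
      (by fun_prop) fun r => ?_)
    obtain ⟨-, h2, -⟩ := parse_bound r.bits
    rcases e : (parse r.bits).1 with _ | ⟨a, l⟩
    · simp
    · exact h2 a (by simp [e])
  have h2 : IsPolyTime (fun r : Raw =>
      List.range ((parse r.bits).1.tail.length / (parse r.bits).1.headD 0)) :=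
    IsPolyTime.range (by fun_prop) (by fun_prop)
  have h3 : IsPolyTime (fun y : List ℕ × ℕ =>
      (y.1.tail.drop (y.2 * y.1.headD 0)).take (y.1.headD 0)) := by fun_prop
  have h4 : IsPolyTime (fun y : Raw × ℕ => ((parse y.1.bits).1, y.2)) :=
    ((h.comp IsPolyTime.id'.fst).fst).pair IsPolyTime.id'.snd
  unfold initState
  exact h1.pair ((IsPolyTime.map (h3.comp h4) h2).pair (by fun_prop))

theorem chunks {m : ℕ} (hm : 0 < m) (L : List (List ℕ)) (h : ∀ x ∈ L, x.length = m) :
    ((List.range (L.flatten.length / m)).map fun j => (L.flatten.drop (j * m)).take m) = L := by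
  have e : L.flatten.length = L.length * m := by
    clear hm
    induction L with
    | nil => simp
    | cons a L ih =>
      rw [List.flatten_cons, List.length_append, ih (fun x hx => h x (by simp [hx])),
        h a (by simp), List.length_cons]
      ring
  rw [e, Nat.mul_div_cancel _ hm]
  clear e
  induction L with
  | nil => rfl
  | cons a L ih =>
    have ha := h a (by simp)
    rw [List.length_cons, List.range_succ_eq_map, List.map_cons, List.map_map]
    congr 1
    · simp [← ha]
    · refine Eq.trans (List.map_congr_left fun j _ => ?_) (ih (fun x hx => h x (by simp [hx])))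
      simp only [Function.comp, List.flatten_cons]
      rw [Nat.succ_mul, add_comm, ← List.drop_drop, List.drop_left' ha]

theorem initState_spec {m : ℕ} (hm : 0 < m) (gens : List (Equiv.Perm (Fin m))) :
    initState ⟨unary [] (m :: gens.flatMap encP)⟩ = (List.range m, gens.map encP, 0, 1) := by
  have e : (parse (unary [] (m :: gens.flatMap encP))).1 = m :: gens.flatMap encP := by
    rw [parse_unary _ _ rfl]
    rfl
  simp only [initState, e, List.headD_cons, List.tail_cons]
  rw [List.flatMap_def, chunks hm _ (fun x hx => by
    obtain ⟨g, -, rfl⟩ := List.mem_map.1 hx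
    simp [encP])]

theorem input_bound {m : ℕ} (gens : List (Equiv.Perm (Fin m))) :
    (gens.flatMap encP).sum ≤ gens.length * (m * m) ∧
      (gens.flatMap encP).length = gens.length * m := by
  induction gens with
  | nil => simp
  | cons g l ih =>
    have h1 : (encP g).sum ≤ m * m := by
      have := List.sum_le_card_nsmul (encP g) m (fun y hy => by
        obtain ⟨i, rfl⟩ := (List.mem_ofFn' _ _).1 hy
        exact (g i).2.le)
      simpa [encP] using this
    have h2 : (encP g).length = m := by simp [encP]
    simp only [List.flatMap_cons, List.sum_append, List.length_append, List.length_cons, add_mul,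
      one_mul]
    omega

theorem bsize_encP {m : ℕ} (g : Equiv.Perm (Fin m)) : bsize (encP g) ≤ m * (2 * m + 1) := by
  have := bsize_list_le (encP g) m (fun y hy => by
    obtain ⟨i, rfl⟩ := (List.mem_ofFn' _ _).1 hy
    exact (bsize_nat_le_self _).trans (g i).2.le)
  simpa [encP] using this

theorem bsize_le_of_le_pow {k m a : ℕ} (h : a ≤ k ^ m) : bsize a ≤ m * k + 1 := by
  refine (bsize_nat_mono h).trans ((bsize_pow_le k m).trans ?_)
  have := Nat.mul_le_mul_left m (bsize_nat_le_self k)
  omega

theorem main (k : ℕ) (hk : 1 ≤ k) :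
    ∃ (P : List Instr) (p : Polynomial ℕ), ∀ (m : ℕ) (gens : List (Equiv.Perm (Fin m))), 1 ≤ m →
      ∃ ws : List (Fin m → Fin k),
        Del P ⟨0, fun _ => 0, m :: gens.flatMap encP, []⟩ (p.eval (m + gens.length))
          (p.eval (m + gens.length)) (ws.map fun w => Nat.ofDigits k (encW w)) ∧
        ws.Pairwise (fun a b => ∀ g ∈ gen gens, wact g a ≠ b) ∧
        ∀ α, ∃ g ∈ gen gens, wact g α ∈ ws := by
  have : NeZero k := ⟨by omega⟩
  obtain ⟨P, q, hP⟩ := exists_prog_phases (ptp_phase k) pt_initState
  let F : ℕ → ℕ := fun n => wBound k n + dBound k n + (n + n * (n * n) + 1 + n * n) +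
    (2 * (n * (2 * n + 1)) + 1 + (2 * (n * (2 * (n * (2 * n + 1)) + 1)) + 1 +
      (2 * (n * k + 1) + 1 + (n * k + 1))))
  obtain ⟨p, hp⟩ : Bdd (fun n : ℕ => n) (fun n => q.eval (F n)) := by
    have x := Bdd.refl (fun n : ℕ => n)
    have c := Bdd.const (fun n : ℕ => n)
    have h1 := x.mul (((c 2).mul x).add (c 1))
    have h2 := (x.mul (c k)).add (c 1)
    refine Bdd.eval (Bdd.add (Bdd.add (Bdd.add ?_ ?_) ?_) ?_) q
    · exact ((x.mul x).add (c 1)).mul (((c 2).mul (x.mul (((c 2).mul (x.add (c k))).add
        (c 1)))).add (c 1))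
    · exact ((x.mul (c k)).mul (((c 2).mul (x.mul (x.add (c 1)))).add (c 3))).add (c 5)
    · exact ((x.add (x.mul (x.mul x))).add (c 1)).add (x.mul x)
    · exact (((c 2).mul h1).add (c 1)).add ((((c 2).mul (x.mul (((c 2).mul h1).add (c 1)))).add
        (c 1)).add ((((c 2).mul h2).add (c 1)).add h2))
  refine ⟨P, p, fun m gens hm => ?_⟩
  set n := m + gens.length with hn
  have hmn : m ≤ n := by omega
  have hrn : gens.length ≤ n := by omega
  have b1 : wBound k m ≤ wBound k n := by unfold wBound; gcongr
  have b2 : dBound k m ≤ dBound k n := by unfold dBound; gcongr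
  obtain ⟨ws, h1, h2, h3⟩ := halts_phase (k := k) gens (F n) (by simp only [F]; omega)
    (by simp only [F]; omega) (fun a b ha hb => by
      have s1 := IsPolyTime.bsize_range_le m
      have s2 := bsize_list_le (gens.map encP) (m * (2 * m + 1)) (fun x hx => by
        obtain ⟨g, -, rfl⟩ := List.mem_map.1 hx
        exact bsize_encP g)
      rw [List.length_map] at s2
      have s3 := bsize_le_of_le_pow ha
      have s4 := bsize_le_of_le_pow hb
      have s5 : m * (2 * m + 1) ≤ n * (2 * n + 1) := by gcongr
      have s6 : gens.length * (2 * (m * (2 * m + 1)) + 1) ≤ n * (2 * (n * (2 * n + 1)) + 1) := by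
        gcongr
      have s7 : m * k ≤ n * k := by gcongr
      simp only [F, bsize_pair]
      omega) (k ^ m) 0 (by simp) [0] ⟨fun _ => [], []⟩ (setup_spec gens) le_rfl
  refine ⟨ws, ?_, h2, h3⟩
  have h4 := hP (m :: gens.flatMap encP) (F n) _ (by
    obtain ⟨s1, s2⟩ := input_bound gens
    have s3 : gens.length * (m * m) ≤ n * (n * n) := by gcongr
    have s4 : gens.length * m ≤ n * n := by gcongr
    rw [length_unary]
    simp only [F, List.length_nil, List.sum_cons, List.length_cons]
    omega) (by rw [initState_spec hm]; exact h1)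
  obtain ⟨T, t1, t2, t3, t4⟩ := h4
  exact ⟨T, t1, t2, fun s t a b c => (t3 s t a b c).trans (Nat.add_le_add_left (hp n) _),
    fun t a b => (t4 t a b).trans (hp n)⟩

end Pool.Agent.Lib.MP_80ff63_lc
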