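import Pool.Agent.Lib.MP_80ff63_lc.Sim

/-!
Programs with memory actions (a free monad), their polynomial time evaluation by replay, and the
simulation theorem for machines working in phases.
-/

set_option linter.unusedSimpArgs false

namespace Pool.Agent.Lib.MP_80ff63_lc

open Function Pool.Agent.Shared N487b59b3 N68a2faeb PolyTime

/-- Trees of actions. -/
inductive Prog (α : Type) : Type
  | ret (a : α) : Prog α
  | act (x : Act) (k : Val → Prog α) : Prog α

namespace Prog

variable {α β γ σ : Type}

/-- Sequential composition. -/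
def bind : Prog α → (α → Prog β) → Prog β
  | ret a, f => f a
  | act x k, f => act x (fun v => bind (k v) f)

/-- One action. -/
def one (x : Act) : Prog Val := act x ret

/-- A loop over a list. -/
def foldM (f : σ → β → Prog σ) : σ → List β → Prog σ
  | s, [] => ret s
  | s, b :: l => bind (f s b) (fun s' => foldM f s' l)

/-- Feed a list of answers: the result and the unused answers, or the next action. -/
def feed : Prog α → List Val → (α × List Val) ⊕ Act
  | ret a, ans => .inl (a, ans)
  | act x _, [] => .inr x
  | act _ k, v :: ans => feed (k v) ans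

/-- The true execution. -/
def run : Prog α → World → α × World
  | ret a, w => (a, w)
  | act x k, w => run (k (doAct x w).1) (doAct x w).2

@[simp] theorem run_ret (a : α) (w : World) : run (ret a) w = (a, w) := rfl

@[simp] theorem run_one (x : Act) (w : World) : run (one x) w = doAct x w := rfl

@[simp] theorem run_bind (p : Prog α) (f : α → Prog β) (w : World) :
    run (bind p f) w = run (f (run p w).1) (run p w).2 := by
  induction p generalizing w with
  | ret a => rfl
  | act x k ih => exact ih _ _

theorem feed_bind (p : Prog α) (f : α → Prog β) (ans : List Val) :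
    feed (bind p f) ans = Sum.elim (fun u => feed (f u.1) u.2) Sum.inr (feed p ans) := by
  induction p generalizing ans with
  | ret a => rfl
  | act x k ih =>
    cases ans with
    | nil => rfl
    | cons v ans => exact ih v ans

theorem feed_foldM (f : σ → β → Prog σ) (s : σ) (l : List β) (ans : List Val) :
    feed (foldM f s l) ans =
      l.foldl (fun z b => Sum.elim (fun u => feed (f u.1 b) u.2) Sum.inr z) (.inl (s, ans)) := by
  have key : ∀ (l : List β) (a : Act), l.foldl (fun (z : (σ × List Val) ⊕ Act) b =>
      Sum.elim (fun u => feed (f u.1 b) u.2) Sum.inr z) (.inr a) = .inr a := by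
    intro l a
    induction l with
    | nil => rfl
    | cons b l ih => exact ih
  induction l generalizing s ans with
  | nil => rfl
  | cons b l ih =>
    rw [foldM, feed_bind, List.foldl_cons, Sum.elim_inl]
    cases feed (f s b) ans with
    | inl u => exact ih _ _
    | inr a => exact (key l a).symm

/-- All possible results satisfy `Q`. -/
def Res (Q : α → Prop) : Prog α → Prop
  | ret a => Q a
  | act _ k => ∀ v, Res Q (k v)

theorem Res.mono {Q Q' : α → Prop} {p : Prog α} (h : Res Q p) (hQ : ∀ a, Q a → Q' a) :
    Res Q' p := by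
  induction p with
  | ret a => exact hQ a h
  | act x k ih => exact fun v => ih v (h v)

theorem Res.triv (p : Prog α) : Res (fun _ => True) p := by
  induction p with
  | ret a => trivial
  | act x k ih => exact ih

theorem Res.bind {Q : α → Prop} {Q' : β → Prop} {p : Prog α} {f : α → Prog β} (h : Res Q p)
    (hf : ∀ a, Q a → Res Q' (f a)) : Res Q' (bind p f) := by
  induction p with
  | ret a => exact hf a h
  | act x k ih => exact fun v => ih v (h v)

theorem Res.bind' {Q' : β → Prop} (p : Prog α) {f : α → Prog β}
    (hf : ∀ a, Res Q' (f a)) : Res Q' (Prog.bind p f) := (Res.triv p).bind (fun a _ => hf a)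

theorem Res.foldM {f : σ → β → Prog σ} (μ : σ → ℕ) (G : ℕ)
    (hf : ∀ s b, Res (fun s' => μ s' ≤ μ s + G) (f s b)) (s : σ) (l : List β) :
    Res (fun s' => μ s' ≤ μ s + l.length * G) (foldM f s l) := by
  induction l generalizing s with
  | nil => simp [Prog.foldM, Res]
  | cons b l ih =>
    refine (hf s b).bind fun s' hs' => (ih s').mono fun s'' h => ?_
    rw [List.length_cons, add_mul]
    omega

theorem Res.foldM_inv {f : σ → β → Prog σ} (I : σ → Prop)
    (hf : ∀ s b, I s → Res I (f s b)) (s : σ) (hs : I s) (l : List β) :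
    Res I (Prog.foldM f s l) := by
  induction l generalizing s with
  | nil => exact hs
  | cons b l ih => exact (hf s b hs).bind fun s' hs' => ih s' hs'

theorem Res.feed {Q : α → Prop} {p : Prog α} (h : Res Q p) {ans r : List Val} {a : α}
    (e : feed p ans = .inl (a, r)) : Q a ∧ bsize r ≤ bsize ans := by
  induction p generalizing ans with
  | ret b =>
    simp only [Prog.feed, Sum.inl.injEq, Prod.mk.injEq] at e
    obtain ⟨rfl, rfl⟩ := e
    exact ⟨h, le_rfl⟩
  | act x k ih =>
    cases ans with
    | nil => simp [Prog.feed] at e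
    | cons v ans =>
      obtain ⟨h1, h2⟩ := ih v (h v) e
      exact ⟨h1, h2.trans (by simp)⟩

theorem Res.run {Q : α → Prop} {p : Prog α} (h : Res Q p) (w : World) : Q (run p w).1 := by
  induction p generalizing w with
  | ret b => exact h
  | act x k ih => exact ih _ (h _) _

/-- At most `n` actions, and every written value has size at most `B`. -/
def St (B : ℕ) : Prog α → ℕ → Prop
  | ret _, _ => True
  | act x k, n => 0 < n ∧ (∀ a v, x = .inr (.inl (a, v)) → bsize v ≤ B) ∧ ∀ v, St B (k v) (n - 1)

theorem St.mono {B B' : ℕ} {p : Prog α} {n n' : ℕ} (h : St B p n) (hB : B ≤ B') (hn : n ≤ n') :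
    St B' p n' := by
  induction p generalizing n n' with
  | ret a => trivial
  | act x k ih =>
    exact ⟨by have := h.1; omega, fun a v e => (h.2.1 a v e).trans hB,
      fun v => ih v (h.2.2 v) (by omega)⟩

theorem St.bind {B : ℕ} {Q : α → Prop} {p : Prog α} {f : α → Prog β} {n n' : ℕ} (h : St B p n)
    (hQ : Res Q p) (hf : ∀ a, Q a → St B (f a) n') : St B (bind p f) (n + n') := by
  induction p generalizing n with
  | ret a => exact (hf a hQ).mono le_rfl (by omega)
  | act x k ih =>
    have := h.1
    exact ⟨by omega, h.2.1, fun v => (ih v (h.2.2 v) (hQ v)).mono le_rfl (by omega)⟩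

theorem St.bind' {B : ℕ} {p : Prog α} {f : α → Prog β} {n n' : ℕ} (h : St B p n)
    (hf : ∀ a, St B (f a) n') : St B (Prog.bind p f) (n + n') :=
  h.bind (Res.triv p) (fun a _ => hf a)

theorem St.foldM {B n : ℕ} {f : σ → β → Prog σ} (hf : ∀ s b, St B (f s b) n) (s : σ)
    (l : List β) : St B (foldM f s l) (l.length * n) := by
  induction l generalizing s with
  | nil => trivial
  | cons b l ih =>
    exact ((hf s b).bind' (fun s' => ih s')).mono le_rfl
      (by rw [List.length_cons, add_mul]; omega)

theorem St.ret (B n : ℕ) (a : α) : St B (ret a) n := trivial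

theorem St.read (B : ℕ) (a : Adr) : St B (one (.inl a)) 1 :=
  ⟨Nat.one_pos, fun _ _ h => by simp at h, fun _ => trivial⟩

theorem St.out (B : ℕ) (n : ℕ) : St B (one (.inr (.inr n))) 1 :=
  ⟨Nat.one_pos, fun _ _ h => by simp at h, fun _ => trivial⟩

theorem St.write {B : ℕ} (a : Adr) {v : Val} (h : bsize v ≤ B) :
    St B (one (.inr (.inl (a, v)))) 1 :=
  ⟨Nat.one_pos, fun _ _ e => by
    simp only [Sum.inr.injEq, Sum.inl.injEq, Prod.mk.injEq] at e
    rw [← e.2]; exact h, fun _ => trivial⟩

end Prog

open Prog

/-- The family of programs `p` can be replayed in polynomial time. -/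
def PTP {α β : Type} [N487b59b3 α] [N487b59b3 β] (p : α → Prog β) : Prop :=
  IsPolyTime (fun y : α × List Val => feed (p y.1) y.2)

namespace PTP

variable {α β γ σ : Type} [N487b59b3 α] [N487b59b3 β] [N487b59b3 γ] [N487b59b3 σ]

theorem ret {f : α → β} (hf : IsPolyTime f) : PTP (fun x => Prog.ret (f x)) := by
  unfold PTP
  simp only [feed]
  fun_prop

theorem one {a : α → Act} (ha : IsPolyTime a) : PTP (fun x => Prog.one (a x)) := by
  have : IsPolyTime (fun y : α × List Val => (List.casesOn (motive := fun _ => (Val × List Val) ⊕ Act)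
      y.2 (Sum.inr (a y.1)) (fun v r => Sum.inl (v, r)))) := by fun_prop
  exact this.of_eq (fun y => by rcases y with ⟨x, _ | ⟨v, r⟩⟩ <;> rfl)

theorem comp {p : β → Prog γ} {g : α → β} (hp : PTP p) (hg : IsPolyTime g) :
    PTP (fun x => p (g x)) :=
  IsPolyTime.comp (f := fun y : β × List Val => feed (p y.1) y.2)
    (g := fun y : α × List Val => (g y.1, y.2)) hp (by fun_prop)

theorem bind {p : α → Prog β} {f : α → β → Prog γ} (hp : PTP p)
    (hf : PTP (fun z : α × β => f z.1 z.2)) : PTP (fun x => Prog.bind (p x) (f x)) := by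
  unfold PTP
  simp only [feed_bind]
  refine IsPolyTime.sumElim (l := fun (y : α × List Val) (u : β × List Val) => feed (f y.1 u.1) u.2)
    (r := fun _ a => Sum.inr a) hp ?_ (by fun_prop)
  exact IsPolyTime.comp (f := fun y : (α × β) × List Val => feed (f y.1.1 y.1.2) y.2)
    (g := fun z : (α × List Val) × β × List Val => ((z.1.1, z.2.1), z.2.2)) hf (by fun_prop)

theorem cond {c : α → Bool} {p p' : α → Prog β} (hc : IsPolyTime c) (hp : PTP p) (hp' : PTP p') :
    PTP (fun x => bif c x then p x else p' x) := by
  have := IsPolyTime.cond (c := fun y : α × List Val => c y.1) (by fun_prop) hp hp'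
  exact this.of_eq (fun y => by dsimp only; cases c y.1 <;> rfl)

theorem foldM {f : α → σ → β → Prog σ} {init : α → σ} {l : α → List β}
    (hf : PTP (fun z : α × σ × β => f z.1 z.2.1 z.2.2)) (hi : IsPolyTime init)
    (hl : IsPolyTime l) (G : α → ℕ) (hG : PolyBdd G)
    (hb : ∀ x s b, Res (fun s' => bsize s' ≤ bsize s + G x) (f x s b)) :
    PTP (fun x => Prog.foldM (f x) (init x) (l x)) := by
  unfold PTP
  simp only [feed_foldM]
  obtain ⟨p, hp⟩ := PolyBdd.bsize hf
  let S : α → ℕ := fun x => bsize (init x) + (l x).length * G x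
  let Z : α × List Val → ℕ := fun y => (2 * S y.1 + 2 + bsize y.2) +
    p.eval (2 * (2 * bsize y.1 + 1 + (2 * S y.1 + 1 + bsize (l y.1))) + 1 + bsize y.2)
  refine IsPolyTime.foldl (σ := (σ × List Val) ⊕ Act)
    (f := fun (y : α × List Val) z b => Sum.elim (fun u => feed (f y.1 u.1 b) u.2) Sum.inr z)
    (init := fun y => Sum.inl (init y.1, y.2)) (l := fun y => l y.1)
    ?_ (by fun_prop) (by fun_prop) Z (by fun_prop) ?_
  · refine IsPolyTime.sumElim
      (l := fun (y : (α × List Val) × ((σ × List Val) ⊕ Act) × β) (u : σ × List Val) =>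
        feed (f y.1.1 u.1 y.2.2) u.2) (r := fun _ a => Sum.inr a) (by fun_prop) ?_ (by fun_prop)
    exact IsPolyTime.comp (f := fun y : (α × σ × β) × List Val => feed (f y.1.1 y.1.2.1 y.1.2.2) y.2)
      (g := fun z : ((α × List Val) × ((σ × List Val) ⊕ Act) × β) × σ × List Val =>
        ((z.1.1.1, z.2.1, z.1.2.2), z.2.2)) hf (by fun_prop)
  · rintro ⟨x, ans⟩ i
    let I : ℕ → (σ × List Val) ⊕ Act → Prop := fun n z => Sum.elim
      (fun u => bsize u.1 ≤ bsize (init x) + n * G x ∧ bsize u.2 ≤ bsize ans)
      (fun a => bsize (Sum.inr a : (σ × List Val) ⊕ Act) ≤ Z (x, ans)) z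
    have key : ∀ (r : List β) (n : ℕ) (z : (σ × List Val) ⊕ Act), (∀ b ∈ r, b ∈ l x) →
        n + r.length ≤ (l x).length → I n z → I (n + r.length) (r.foldl
          (fun z b => Sum.elim (fun u => feed (f x u.1 b) u.2) Sum.inr z) z) := by
      intro r
      induction r with
      | nil => exact fun n z _ _ h => h
      | cons b r ih =>
        intro n z hr hn hz
        rw [List.length_cons] at hn
        rw [List.foldl_cons, List.length_cons, show n + (r.length + 1) = n + 1 + r.length by omega]
        refine ih (n + 1) _ (fun c hc => hr c (by simp [hc])) (by omega) ?_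
        rcases z with ⟨s, a⟩ | a
        · obtain ⟨h1, h2⟩ := hz
          simp only [Sum.elim_inl] at h1 h2 ⊢
          rcases e : feed (f x s b) a with ⟨s', a'⟩ | a'
          · obtain ⟨h3, h4⟩ := (hb x s b).feed e
            exact ⟨by simp only; rw [add_mul]; omega, h4.trans h2⟩
          · have h3 := hp ((x, s, b), a)
            simp only [e] at h3
            have h4 := bsize_le_of_mem (hr b (by simp))
            have h5 : n * G x ≤ (l x).length * G x := Nat.mul_le_mul_right _ (by omega)
            refine h3.trans ((eval_mono p ?_).trans (Nat.le_add_left _ _))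
            simp only [bsize_pair, S]
            omega
        · exact hz
    have h := key ((l x).take i) 0 (.inl (init x, ans)) (fun b hb => List.mem_of_mem_take hb)
      (by simp) ⟨by simp, le_rfl⟩
    revert h
    simp only
    generalize ((l x).take i).foldl _ _ = z
    rcases z with ⟨s, a⟩ | a
    · rintro ⟨h1, h2⟩
      have h5 : (0 + ((l x).take i).length) * G x ≤ (l x).length * G x :=
        Nat.mul_le_mul_right _ (by simp)
      simp only [bsize_inl, bsize_pair, Z, S] at h1 h2 ⊢
      omega
    · exact fun h => h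

end PTP

/-- The transducer that replays the current phase. -/
def transOf {σ : Type} (ph : σ → Prog (Option σ)) (init : Raw → σ)
    (y : Val × (Raw ⊕ σ × List Val)) : Option Act × (Raw ⊕ σ × List Val) :=
  Sum.elim (fun r => (some (Sum.inl []), Sum.inr (init r, [])))
    (fun u => Sum.elim
      (fun z => z.1.elim (none, y.2) (fun s' => (some (Sum.inl []), Sum.inr (s', []))))
      (fun a => (some a, Sum.inr (u.1, u.2 ++ [y.1]))) (feed (ph u.1) (u.2 ++ [y.1]).tail)) y.2

theorem pt_transOf {σ : Type} [N487b59b3 σ] {ph : σ → Prog (Option σ)} {init : Raw → σ}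
    (hp : PTP ph) (hi : IsPolyTime init) : IsPolyTime (transOf ph init) := by
  unfold transOf
  refine IsPolyTime.sumElim (by fun_prop) (by fun_prop) ?_
  refine IsPolyTime.sumElim ?_ (by fun_prop) (by fun_prop)
  exact IsPolyTime.comp (f := fun y : σ × List Val => feed (ph y.1) y.2)
    (g := fun z : (Val × (Raw ⊕ σ × List Val)) × σ × List Val =>
      (z.2.1, (z.2.2 ++ [z.1.1]).tail)) hp (by fun_prop)

/-- The phases run from `s` halt with output `ys`; every phase but the last writes output. -/
inductive Halts {σ : Type} [N487b59b3 σ] (ph : σ → Prog (Option σ)) (N : ℕ) :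
    σ → World → List ℕ → Prop
  | stop (s : σ) (w : World) : bsize s ≤ N → St N (ph s) N → (run (ph s) w).1 = none →
      Halts ph N s w (run (ph s) w).2.out
  | more (s s' : σ) (w : World) (ys : List ℕ) : bsize s ≤ N → St N (ph s) N →
      (run (ph s) w).1 = some s' → w.out.length < (run (ph s) w).2.out.length →
      Halts ph N s' (run (ph s) w).2 ys → Halts ph N s w ys

theorem exists_prog_phases {σ : Type} [N487b59b3 σ] {ph : σ → Prog (Option σ)} {init : Raw → σ}
    (hp : PTP ph) (hi : IsPolyTime init) :
    ∃ (P : List Instr) (q : Polynomial ℕ), ∀ (x : List ℕ) (N : ℕ) (ys : List ℕ),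
      (unary [] x).length ≤ N → Halts ph N (init ⟨unary [] x⟩) ⟨fun _ => [], []⟩ ys →
      Del P ⟨0, fun _ => 0, x, []⟩ (q.eval N) (q.eval N) ys := by
  obtain ⟨P, q, Rel, h0, hout, hstep, hhalt⟩ := exists_prog (pt_transOf hp hi)
  obtain ⟨q', hq'⟩ : Bdd (fun n : ℕ => n) (fun N =>
      3 * ((N + 1) * q.eval (4 * N + 3 + (N + 1) * (2 * N + 1)))) := by
    have h1 := Bdd.refl (fun n : ℕ => n)
    have c := Bdd.const (fun n : ℕ => n)
    exact (c _).mul ((h1.add (c _)).mul (((((c _).mul h1).add (c _)).add
      ((h1.add (c _)).mul (((c _).mul h1).add (c _)))).eval q))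
  refine ⟨P, q', fun x N ys hx hH => ?_⟩
  replace hq' : 3 * ((N + 1) * q.eval (4 * N + 3 + (N + 1) * (2 * N + 1))) ≤ q'.eval N := hq' N
  set Z := 4 * N + 3 + (N + 1) * (2 * N + 1) with hZ
  have phase : ∀ (s : σ), bsize s ≤ N → ∀ (p : Prog (Option σ)) (n : ℕ) (as : List Val) (v : Val)
      (w : World) (c : Cfg), (∀ more, feed (ph s) ((as ++ [v]).tail ++ more) = feed p more) →
      St N p n → as.length + n ≤ N → (∀ u ∈ as, bsize u ≤ N) → bsize v ≤ N →
      (∀ a, bsize (w.mem a) ≤ N) → Rel c v (Sum.inr (s, as)) w →
      ∃ c', Seg P c c' ((n + 1) * q.eval Z) ∧ (∀ a, bsize ((run p w).2.mem a) ≤ N) ∧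
        c'.out = (run p w).2.out ∧ ((run p w).1 = none → P[c'.pc]? = none) ∧
        ∀ s', (run p w).1 = some s' →
          Rel c' ((run p w).2.mem []) (Sum.inr (s', [])) (run p w).2 := by
    intro s hs p
    induction p with
    | ret o =>
      intro n as v w c he _ hn has hv hw hR
      have hsz : bsize (v, (Sum.inr (s, as) : Raw ⊕ σ × List Val)) ≤ Z := by
        have := bsize_list_le as N has
        have h2 : as.length * (2 * N + 1) ≤ (N + 1) * (2 * N + 1) :=
          Nat.mul_le_mul_right _ (by omega)
        simp only [bsize_pair, bsize_inr]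
        omega
      have e := he []
      rw [List.append_nil] at e
      cases o with
      | none =>
        obtain ⟨c', h1, h2, h3⟩ := hhalt c v _ w Z hR (by simp [transOf, e, feed]) hsz
        exact ⟨c', h1.mono (by nlinarith), hw, h3, fun _ => h2, fun s' h => by simp at h⟩
      | some s' =>
        obtain ⟨c', h1, h2⟩ := hstep c v _ w (Sum.inl []) Z hR (by simp [transOf, e, feed]) hsz
          ((hw []).trans (by omega))
        refine ⟨c', h1.mono (by nlinarith), hw, hout _ _ _ _ h2, fun h => by simp at h,
          fun s'' h => ?_⟩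
        obtain rfl : s' = s'' := by simpa using h
        simpa [transOf, e, feed, doAct] using h2
    | act y k ih =>
      intro n as v w c he hSt hn has hv hw hR
      obtain ⟨hn0, hwr, hk⟩ := hSt
      have hsz : bsize (v, (Sum.inr (s, as) : Raw ⊕ σ × List Val)) ≤ Z := by
        have := bsize_list_le as N has
        have h2 : as.length * (2 * N + 1) ≤ (N + 1) * (2 * N + 1) :=
          Nat.mul_le_mul_right _ (by omega)
        simp only [bsize_pair, bsize_inr]
        omega
      have e := he []
      rw [List.append_nil] at e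
      have ha : bsize (doAct y w).1 ≤ N := by
        rcases y with a | ⟨a, v'⟩ | n'
        · exact hw a
        · simp [doAct]
        · simp [doAct]
      have hw' : ∀ a, bsize ((doAct y w).2.mem a) ≤ N := by
        rcases y with a | ⟨a, v'⟩ | n'
        · exact hw
        · intro a'
          simp only [doAct]
          by_cases e' : a' = a
          · subst e'; simpa using hwr a' v' rfl
          · rw [update_of_ne e']; exact hw a'
        · exact hw
      obtain ⟨c₁, h1, h2⟩ := hstep c v _ w y Z hR (by simp [transOf, e, feed]) hsz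
        (ha.trans (by omega))
      have e2 : (transOf ph init (v, Sum.inr (s, as))).2 = Sum.inr (s, as ++ [v]) := by
        simp [transOf, e, feed]
      rw [e2] at h2
      obtain ⟨c₂, h3, h4⟩ := ih (doAct y w).1 (n - 1) (as ++ [v]) (doAct y w).1 (doAct y w).2 c₁
        (fun more => by
          have := he ((doAct y w).1 :: more)
          rw [List.tail_append_of_ne_nil (by simp), List.append_assoc, List.singleton_append, this]
          rfl) (hk _) (by simp; omega)
        (fun u hu => by
          rcases List.mem_append.1 hu with hu | hu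
          · exact has u hu
          · obtain rfl : u = v := by simpa using hu
            exact hv) ha hw' h2
      refine ⟨c₂, (h1.trans h3).mono (le_of_eq ?_), h4⟩
      obtain ⟨n', rfl⟩ : ∃ n', n = n' + 1 := ⟨n - 1, by omega⟩
      simp only [Nat.add_sub_cancel]
      ring
  have all : ∀ (s : σ) (w : World) (ys : List ℕ), Halts ph N s w ys → ∀ c,
      (∀ a, bsize (w.mem a) ≤ N) → Rel c (w.mem []) (Sum.inr (s, [])) w →
      Del P c ((N + 1) * q.eval Z) (q'.eval N) ys := by
    intro s w ys h
    induction h with
    | stop s w h1 h2 h3 =>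
      intro c hw hR
      obtain ⟨c', h4, -, h6, h7, -⟩ := phase s h1 (ph s) N [] _ w c (fun _ => rfl) h2 (by simp)
        (by simp) (hw _) hw hR
      rw [← h6]
      exact Del.seg h4 (Del.halt (h7 h3) 0 _) (by omega)
    | more s s' w ys h1 h2 h3 h4 _ ih =>
      intro c hw hR
      obtain ⟨c', h5, h6, h7, -, h8⟩ := phase s h1 (ph s) N [] _ w c (fun _ => rfl) h2 (by simp)
        (by simp) (hw _) hw hR
      exact Del.seg_out h5 (ih c' h6 (h8 s' h3)) (by omega) (by rw [h7, hout _ _ _ _ hR]; exact h4)
  obtain ⟨c₀, h1, h2⟩ := h0 x (Sum.inl ⟨unary [] x⟩) rfl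
  obtain ⟨c₁, h3, h4⟩ := hstep c₀ _ _ _ (Sum.inl []) Z h2 rfl
    (by simp only [bsize_pair, bsize_inl, bsize_raw, bsize_nil]; omega) (by simp [doAct])
  have h5 := all _ _ _ hH c₁ (by simp) h4
  have h6 : q.eval (unary [] x).length ≤ q.eval Z := eval_mono q (by omega)
  have h7 : q.eval Z ≤ (N + 1) * q.eval Z := by nlinarith
  exact (Del.seg (h1.trans h3) h5 (by omega)).mono (by omega)

end Pool.Agent.Lib.MP_80ff63_lc
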