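import Pool.Agent.Lib.MP_80ff63_lc.Defs

/-!
Segments of runs with bounded cost, and the delay predicate.
-/

namespace Pool.Agent.Lib.MP_80ff63_lc

variable {P : List Instr}

/-- Total cost of the first `n` steps from `c`. -/
def time (P : List Instr) (c : Cfg) (n : ℕ) : ℕ :=
  ∑ j ∈ Finset.range n, cost P ((step P)^[j] c)

theorem time_add (c : Cfg) (n k : ℕ) :
    time P c (n + k) = time P c n + time P ((step P)^[n] c) k := by
  unfold time
  rw [Finset.sum_range_add]
  congr 1
  refine Finset.sum_congr rfl fun j _ => ?_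
  rw [add_comm, Function.iterate_add_apply]

theorem time_mono (c : Cfg) {n k : ℕ} (h : n ≤ k) : time P c n ≤ time P c k := by
  obtain ⟨d, rfl⟩ := Nat.exists_eq_add_of_le h
  rw [time_add]
  omega

theorem out_le_step (c : Cfg) : c.out.length ≤ (step P c).out.length := by
  unfold step
  cases P[c.pc]? with
  | none => exact le_rfl
  | some i => cases i <;> simp [exec]

theorem out_le_iter (c : Cfg) (n : ℕ) : c.out.length ≤ ((step P)^[n] c).out.length := by
  induction n with
  | zero => exact le_rfl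
  | succ n ih => rw [Function.iterate_succ_apply']; exact ih.trans (out_le_step _)

theorem out_mono (c : Cfg) {n k : ℕ} (h : n ≤ k) :
    ((step P)^[n] c).out.length ≤ ((step P)^[k] c).out.length := by
  obtain ⟨d, rfl⟩ := Nat.exists_eq_add_of_le h
  rw [add_comm, Function.iterate_add_apply]
  exact out_le_iter _ _

/-- From `c` the machine reaches `c'` at cost at most `B`. -/
def Seg (P : List Instr) (c c' : Cfg) (B : ℕ) : Prop :=
  ∃ n, (step P)^[n] c = c' ∧ time P c n ≤ B

theorem Seg.refl (c : Cfg) (B : ℕ) : Seg P c c B := ⟨0, rfl, by simp [time]⟩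

theorem Seg.mono {c c' : Cfg} {B B' : ℕ} (h : Seg P c c' B) (hB : B ≤ B') : Seg P c c' B' := by
  obtain ⟨n, h1, h2⟩ := h
  exact ⟨n, h1, h2.trans hB⟩

theorem Seg.trans {c c' c'' : Cfg} {B B' : ℕ} (h : Seg P c c' B) (h' : Seg P c' c'' B') :
    Seg P c c'' (B + B') := by
  obtain ⟨n, rfl, h2⟩ := h
  obtain ⟨k, rfl, h4⟩ := h'
  refine ⟨n + k, by rw [add_comm, Function.iterate_add_apply], ?_⟩
  rw [time_add]
  omega

theorem Seg.one {c : Cfg} {i : Instr} (h : P[c.pc]? = some i) :
    Seg P c (exec c i) (instrCost c i) :=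
  ⟨1, by simp [step, h], by simp [time, cost, h]⟩

/-- One instruction followed by a segment. -/
theorem Seg.cons {c c' : Cfg} {i : Instr} {B B' : ℕ} (h : P[c.pc]? = some i)
    (h' : Seg P (exec c i) c' B') (hB : instrCost c i + B' ≤ B) : Seg P c c' B :=
  ((Seg.one h).trans h').mono hB

/-- From `c` the machine halts with output `ys`, every stretch without new output costs at most
`B`, and the first one at most `X`. -/
def Del (P : List Instr) (c : Cfg) (X B : ℕ) (ys : List ℕ) : Prop :=
  ∃ T, P[((step P)^[T] c).pc]? = none ∧ ((step P)^[T] c).out = ys ∧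
    (∀ s t, s ≤ t → t < T → ((step P)^[t] c).out.length = ((step P)^[s] c).out.length →
      time P c (t + 1) ≤ time P c s + B) ∧
    (∀ t, t < T → ((step P)^[t] c).out.length = c.out.length → time P c (t + 1) ≤ X)

theorem Del.halt {c : Cfg} (h : P[c.pc]? = none) (X B : ℕ) : Del P c X B c.out :=
  ⟨0, h, rfl, fun _ _ _ h => absurd h (Nat.not_lt_zero _),
    fun _ h => absurd h (Nat.not_lt_zero _)⟩

theorem Del.mono {c : Cfg} {X X' B : ℕ} {ys : List ℕ} (h : Del P c X B ys) (hX : X ≤ X') :
    Del P c X' B ys := by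
  obtain ⟨T, h1, h2, h3, h4⟩ := h
  exact ⟨T, h1, h2, h3, fun t ht e => (h4 t ht e).trans hX⟩

theorem Del.seg_aux {c c' : Cfg} {b X B Y : ℕ} {ys : List ℕ} (h : Seg P c c' b)
    (h' : Del P c' X B ys) (hB : b + X ≤ B) (hb : b ≤ Y)
    (hY : c.out.length < c'.out.length ∨ b + X ≤ Y) : Del P c Y B ys := by
  obtain ⟨n, rfl, hn⟩ := h
  obtain ⟨T, h1, h2, h3, h4⟩ := h'
  have it : ∀ t, (step P)^[t] ((step P)^[n] c) = (step P)^[n + t] c := fun t => by
    rw [add_comm, Function.iterate_add_apply]
  refine ⟨n + T, by rw [← it]; exact h1, by rw [← it]; exact h2, ?_, ?_⟩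
  · intro s t hst ht e
    by_cases h5 : t < n
    · have := time_mono (P := P) c (show t + 1 ≤ n by omega)
      omega
    · obtain ⟨t', rfl⟩ := Nat.exists_eq_add_of_le (not_lt.1 h5)
      by_cases h6 : n ≤ s
      · obtain ⟨s', rfl⟩ := Nat.exists_eq_add_of_le h6
        have := h3 s' t' (by omega) (by omega) (by rw [it, it]; exact e)
        rw [add_assoc, time_add c n (t' + 1), time_add c n s']
        omega
      · have h7 := out_mono (P := P) c (show s ≤ n by omega)
        have h8 := out_mono (P := P) c (show n ≤ n + t' by omega)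
        have := h4 t' (by omega) (by rw [it]; omega)
        rw [add_assoc, time_add c n (t' + 1)]
        omega
  · intro t ht e
    by_cases h5 : t < n
    · have := time_mono (P := P) c (show t + 1 ≤ n by omega)
      omega
    · obtain ⟨t', rfl⟩ := Nat.exists_eq_add_of_le (not_lt.1 h5)
      have h7 := out_le_iter (P := P) c n
      have h8 := out_mono (P := P) c (show n ≤ n + t' by omega)
      rcases hY with hY | hY
      · omega
      · have := h4 t' (by omega) (by rw [it]; omega)
        rw [add_assoc, time_add c n (t' + 1)]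
        omega

theorem Del.seg {c c' : Cfg} {b X B : ℕ} {ys : List ℕ} (h : Seg P c c' b)
    (h' : Del P c' X B ys) (hB : b + X ≤ B) : Del P c (b + X) B ys :=
  Del.seg_aux h h' hB (by omega) (Or.inr le_rfl)

theorem Del.seg_out {c c' : Cfg} {b X B : ℕ} {ys : List ℕ} (h : Seg P c c' b)
    (h' : Del P c' X B ys) (hB : b + X ≤ B) (ho : c.out.length < c'.out.length) :
    Del P c b B ys :=
  Del.seg_aux h h' hB le_rfl (Or.inl ho)

theorem Del.final {c : Cfg} {X B : ℕ} {ys : List ℕ} (h : Del P c X B ys) :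
    ∃ T, P[((step P)^[T] c).pc]? = none ∧ ((step P)^[T] c).out = ys ∧
      ∀ s t, s ≤ t → t < T → ((step P)^[t] c).out = ((step P)^[s] c).out →
        ∑ j ∈ Finset.Icc s t, cost P ((step P)^[j] c) ≤ B := by
  obtain ⟨T, h1, h2, h3, -⟩ := h
  refine ⟨T, h1, h2, fun s t hst ht e => ?_⟩
  have h4 := h3 s t hst ht (by rw [e])
  have h5 : time P c (t + 1) = time P c s + ∑ j ∈ Finset.Icc s t, cost P ((step P)^[j] c) := by
    unfold time
    rw [← Finset.Ico_add_one_right_eq_Icc, Finset.range_eq_Ico, Finset.range_eq_Ico,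
      Finset.sum_Ico_consecutive _ (Nat.zero_le s) (by omega)]
  omega

end Pool.Agent.Lib.MP_80ff63_lc
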