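import Pool.Agent.Lib.MP_80ff63_lc.Trans

/-!
The simulation theorem for transducers.
-/

set_option linter.unusedSimpArgs false

namespace Pool.Agent.Lib.MP_80ff63_lc

open Function Pool.Agent.Shared N487b59b3 N68a2faeb PolyTime

theorem size_add_le {a C n : ℕ} (h : a < 2 ^ (n + 1)) : (a + C).size ≤ n + C + 2 := by
  rw [Nat.size_le]
  have h1 : C < 2 ^ C := Nat.lt_two_pow_self
  have h2 : 2 ^ C ≤ 2 ^ (n + C + 1) := Nat.pow_le_pow_right (by norm_num) (by omega)
  have h3 : 2 ^ (n + 1) ≤ 2 ^ (n + C + 1) := Nat.pow_le_pow_right (by norm_num) (by omega)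
  rw [show n + C + 2 = n + C + 1 + 1 by omega, pow_succ]
  omega

theorem size_enc_le {l : List Bool} {n : ℕ} (h : l.length ≤ n) : (enc l).size ≤ n + 1 :=
  Nat.size_le.2 (enc_lt' h)

theorem exists_prog {τ : Type} [N487b59b3 τ] {Φ : Val × τ → Option Act × τ} (hΦ : IsPolyTime Φ) :
    ∃ (P : List Instr) (q : Polynomial ℕ) (Rel : Cfg → Val → τ → World → Prop),
      (∀ (x : List ℕ) (t : τ), bitEncode t = false :: unary [] x →
        ∃ c, Seg P ⟨0, fun _ => 0, x, []⟩ c (q.eval (unary [] x).length) ∧
          Rel c [] t ⟨fun _ => [], []⟩) ∧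
      (∀ c v t w, Rel c v t w → c.out = w.out) ∧
      (∀ c v t w a B, Rel c v t w → (Φ (v, t)).1 = some a → bsize (v, t) ≤ B →
        bsize (doAct a w).1 ≤ B →
        ∃ c', Seg P c c' (q.eval B) ∧ Rel c' (doAct a w).1 (Φ (v, t)).2 (doAct a w).2) ∧
      (∀ c v t w B, Rel c v t w → (Φ (v, t)).1 = none → bsize (v, t) ≤ B →
        ∃ c', Seg P c c' (q.eval B) ∧ P[c'.pc]? = none ∧ c'.out = w.out) := by
  obtain ⟨W, _, _, M, p, hM⟩ := impl_trans hΦ
  have := M.fin
  let ρ : Fin 4 ⊕ W → ℕ := Sum.elim (fun i => i) (fun w => 10 + Fintype.equivFin W w)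
  let C : ℕ := 10 + Fintype.card W
  have hρ : Injective ρ := by
    rintro (i | w) (j | w') h
    · exact congrArg Sum.inl (Fin.ext h)
    · have := i.2
      simp only [ρ, Sum.elim_inl, Sum.elim_inr] at h
      omega
    · have := j.2
      simp only [ρ, Sum.elim_inl, Sum.elim_inr] at h
      omega
    · simp only [ρ, Sum.elim_inr] at h
      exact congrArg Sum.inr ((Fintype.equivFin W).injective (Fin.ext (by omega)))
  have hρ' : ∀ k, ρ k < 4 ∨ 9 < ρ k := by
    rintro (i | w)
    · exact Or.inl i.2
    · right
      simp only [ρ, Sum.elim_inr]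
      omega
  have hρC : ∀ k, ρ k < C := by
    rintro (i | w)
    · have := i.2
      simp only [ρ, C, Sum.elim_inl]
      omega
    · have := (Fintype.equivFin W w).2
      simp only [ρ, C, Sum.elim_inr]
      omega
  have hC : 10 ≤ C := Nat.le_add_right _ _
  have hρw : ∀ w, 10 ≤ ρ (Sum.inr w) := fun w => Nat.le_add_right _ _
  let labM : (Option (Fin 23 ⊕ M.Q × Fin 7) → ℕ) → Option M.Q → ℕ := fun lab o =>
    o.elim (lab (some (Sum.inl 11))) (fun q => lab (some (Sum.inr (q, 0))))
  obtain ⟨P, lab, hl0, hl, hlH⟩ := exists_numbering (Λ := Fin 23 ⊕ M.Q × Fin 7) (Sum.inl 0)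
    (fun lab => Sum.elim
      (ctl (fun i => lab (some (Sum.inl i))) (labM lab M.start) (lab none) C)
      (fun z => blk ρ (labM lab) (fun j => lab (some (Sum.inr (z.1, j)))) (M.δ z.1) z.2))
  set L : Fin 23 → ℕ := fun i => lab (some (Sum.inl i)) with hL
  set entry := labM lab M.start with hentry
  have hP : ∀ i, P[L i]? = some (ctl L entry (lab none) C i) := fun i => hl (Sum.inl i)
  obtain ⟨q, hq⟩ : Bdd (fun n : ℕ => n) (fun B =>
      (C + 3 + (B + 3) * (5 * (2 * B + 7))) + p.eval B * (7 * (2 * (B + p.eval B) + 7)) +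
        9 * (2 * (B + p.eval B + C + 2) + 5)) := by
    have h1 := Bdd.refl (fun n : ℕ => n)
    have h2 := h1.eval p
    have c := Bdd.const (fun n : ℕ => n)
    exact (((c _).add ((h1.add (c _)).mul ((c _).mul (((c _).mul h1).add (c _))))).add
      (h2.mul ((c _).mul (((c _).mul (h1.add h2)).add (c _))))).add
      ((c _).mul (((c _).mul (((h1.add h2).add (c _)).add (c _))).add (c _)))
  replace hq : ∀ B : ℕ, (C + 3 + (B + 3) * (5 * (2 * B + 7))) +
      p.eval B * (7 * (2 * (B + p.eval B) + 7)) + 9 * (2 * (B + p.eval B + C + 2) + 5) ≤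
        q.eval B := hq
  let Rel : Cfg → Val → τ → World → Prop := fun c v t w => c.pc = entry ∧
    c.reg 0 = enc (bitEncode t) ∧ c.reg 1 = enc (bitEncode v) ∧ c.reg 2 = 0 ∧ c.reg 3 = 0 ∧
    (∀ u, c.reg (ρ (Sum.inr u)) = 0) ∧ c.reg 4 = 1 ∧ c.reg 9 = 0 ∧ c.reg 7 = C ∧
    (∀ a : Adr, c.reg (enc (bitEncode a) + C) = enc (bitEncode (w.mem a))) ∧ c.out = w.out
  have block : ∀ c v t w B, Rel c v t w → bsize (v, t) ≤ B → ∃ reg inp,
      Seg P c ⟨L 11, reg, inp, w.out⟩ (p.eval B * (7 * (2 * (B + p.eval B) + 7))) ∧
      reg 0 = enc (bitEncode (Φ (v, t)).2) ∧ reg 1 = enc (tagOf (Φ (v, t)).1).reverse ∧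
      reg 2 = enc (adrRev (Φ (v, t)).1).reverse ∧ reg 3 = enc (valRev (Φ (v, t)).1).reverse ∧
      (∀ u, reg (ρ (Sum.inr u)) = 0) ∧ reg 4 = 1 ∧ reg 9 = 0 ∧ reg 7 = C ∧
      (∀ a : Adr, reg (enc (bitEncode a) + C) = enc (bitEncode (w.mem a))) ∧
      (adrRev (Φ (v, t)).1).reverse.length ≤ B + p.eval B ∧
      (valRev (Φ (v, t)).1).reverse.length ≤ B + p.eval B := by
    rintro c v t w B ⟨r1, r2, r3, r4, r5, r6, r7, r8, r9, r10, r11⟩ hB
    have hrun := (hM (v, t)).mono (eval_mono p hB)
    dsimp only at hrun
    have hlen : ∀ k, ((Sum.elim (mk4 (bitEncode t) (bitEncode v) [] []) (fun _ => []) :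
        Stk (Fin 4 ⊕ W)) k).length ≤ B := by
      rw [bsize_pair] at hB
      unfold bsize at hB
      rintro (i | u)
      · fin_cases i <;> simp <;> omega
      · simp
    obtain ⟨c', s1, s2, s3, s4⟩ := blk_run hρ hρ' M (labM lab)
      (fun q j => lab (some (Sum.inr (q, j)))) (fun _ => rfl) (fun q j => hl (Sum.inr (q, j)))
      hrun (B + p.eval B) (fun k => by have := hlen k; omega) c r1
      (by
        rintro (i | u)
        · fin_cases i
          · exact r2
          · exact r3
          · exact r4
          · exact r5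
        · exact r6 u) r7 r8
    obtain ⟨pc, reg, inp, out⟩ := c'
    obtain ⟨s4, s5⟩ := s4
    simp only at s2 s3 s4 s5
    have e : out = w.out := s5.trans r11
    subst s2 e
    refine ⟨reg, inp, s1, s3 (Sum.inl 0), s3 (Sum.inl 1), s3 (Sum.inl 2), s3 (Sum.inl 3),
      fun u => s3 (Sum.inr u), ?_, ?_, ?_, fun a => ?_, ?_, ?_⟩
    · rw [s4 4 (fun k => by have := hρ' k; omega) (by omega) (by omega), r7]
    · rw [s4 9 (fun k => by have := hρ' k; omega) (by omega) (by omega), r8]
    · rw [s4 7 (fun k => by have := hρ' k; omega) (by omega) (by omega), r9]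
    · rw [s4 _ (fun k => by have := hρC k; omega) (by omega) (by omega), r10]
    · exact (hrun.length_le (Sum.inl 2)).trans (by have := hlen (Sum.inl 2); omega)
    · exact (hrun.length_le (Sum.inl 3)).trans (by have := hlen (Sum.inl 3); omega)
  have sC : C.size ≤ C := Nat.size_le.2 Nat.lt_two_pow_self
  refine ⟨P, q, Rel, fun x t ht => ?_, fun c v t w h => h.2.2.2.2.2.2.2.2.2.2, ?_, ?_⟩
  · have h := read_all hP x
    rw [show L 0 = 0 from hl0] at h
    refine ⟨_, h.mono (le_trans (by omega) (hq _)), rfl, by simp [ht], by simp [enc_nil, enc],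
      by simp, by simp, fun u => ?_, by simp, by simp, by simp, fun a => ?_, rfl⟩
    · have := hρw u
      simp only
      rw [update_of_ne (by omega), update_of_ne (by omega), update_of_ne (by omega)]
    · simp only
      rw [update_of_ne (by omega), update_of_ne (by omega), update_of_ne (by omega)]
      rfl
  · intro c v t w a B hR ha hB hB'
    obtain ⟨reg, inp, s0, s1, s2, s3, s4, s5, s6, s7, s8, s9, s10, s11⟩ := block c v t w B hR hB
    rw [ha] at s2 s3 s4 s10 s11
    have z1 : (reg 2).size ≤ B + p.eval B + C + 2 := by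
      rw [s3]; exact (size_enc_le s10).trans (by omega)
    have z2 : (reg 2 + C).size ≤ B + p.eval B + C + 2 := by
      rw [s3]; exact size_add_le (enc_lt' s10)
    have z3 : (reg 3).size ≤ B + p.eval B + C + 2 := by
      rw [s4]; exact (size_enc_le s11).trans (by omega)
    rcases a with a | ⟨a, v'⟩ | n
    · have e2 : reg 2 = enc (bitEncode a) := by simpa [adrRev] using s3
      have z4 : (reg (reg 2 + C)).size ≤ B + p.eval B + C + 2 := by
        rw [e2, s9]
        exact (size_enc_le (n := B) hB').trans (by omega)
      refine ⟨_, (s0.trans (disp_read hP hC _ reg inp w.out (by simpa [tagOf, enc] using s2) s8 z1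
        (by omega) z2 z4)).mono (le_trans (by omega) (hq B)), rfl, by simpa using s1, ?_, by simp,
        by simp, fun u => ?_, by simpa using s6, by simpa using s7, by simpa using s8,
        fun a' => ?_, rfl⟩
      · simp [e2, s9, doAct]
      · have := hρw u
        simp only
        rw [update_of_ne (by omega), update_of_ne (by omega), update_of_ne (by omega),
          update_of_ne (by omega), s5]
      · simp only
        rw [update_of_ne (by omega), update_of_ne (by omega), update_of_ne (by omega),
          update_of_ne (by omega), s9]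
        rfl
    · have e2 : reg 2 = enc (bitEncode a) := by simpa [adrRev] using s3
      have e3 : reg 3 = enc (bitEncode v') := by simpa [valRev] using s4
      refine ⟨_, (s0.trans (disp_write hP hC _ reg inp w.out (by simpa [tagOf, enc] using s2) s6 s8
        z1 (by omega) z2 z3)).mono (le_trans (by omega) (hq B)), rfl, ?_, ?_, by simp,
        by simp, fun u => ?_, ?_, ?_, ?_, fun a' => ?_, rfl⟩
      · simp only
        rw [update_of_ne (by omega), update_of_ne (by omega), update_of_ne (by omega),
          update_of_ne (by omega), update_of_ne (by omega), s1]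
      · simp only
        rw [update_of_ne (by omega), update_of_ne (by omega), update_of_ne (by omega),
          update_of_ne (by omega), update_self]
        rfl
      · have := hρw u
        have := hρC (Sum.inr u)
        simp only
        rw [update_of_ne (by omega), update_of_ne (by omega), update_of_ne (by omega),
          update_of_ne (by omega), update_of_ne (by omega), s5]
      · simp only
        rw [update_of_ne (by omega), update_of_ne (by omega), update_of_ne (by omega),
          update_of_ne (by omega), update_of_ne (by omega), s6]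
      · simp only
        rw [update_of_ne (by omega), update_of_ne (by omega), update_of_ne (by omega),
          update_of_ne (by omega), update_of_ne (by omega), s7]
      · simp only
        rw [update_of_ne (by omega), update_of_ne (by omega), update_of_ne (by omega),
          update_of_ne (by omega), update_of_ne (by omega), s8]
      · simp only [doAct]
        rw [update_of_ne (by omega), update_of_ne (by omega), e2, e3]
        by_cases e : a' = a
        · subst e
          simp
        · rw [update_of_ne e, update_of_ne (fun h => e (bitEncode_injective (enc_injective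
            (by omega)))), update_of_ne (by omega), update_of_ne (by omega), s9]
    · have e3 : reg 3 = n := by
        rw [s4]
        exact enc_unencRev n
      have hd := disp_out hP _ reg inp w.out (by simpa [tagOf, enc] using s2) s6 z3
      rw [e3] at hd
      refine ⟨_, (s0.trans hd).mono (le_trans (by omega) (hq B)), rfl, by simpa using s1,
        by simp [doAct, enc_nil, enc], by simp, by simp, fun u => ?_, by simpa using s6,
        by simpa using s7, by simpa using s8, fun a' => ?_, rfl⟩
      · have := hρw u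
        simp only
        rw [update_of_ne (by omega), update_of_ne (by omega), update_of_ne (by omega), s5]
      · simp only [doAct]
        rw [update_of_ne (by omega), update_of_ne (by omega), update_of_ne (by omega), s9]
  · intro c v t w B hR ha hB
    obtain ⟨reg, inp, s0, s1, s2, s3, s4, s5, s6, s7, s8, s9, s10, s11⟩ := block c v t w B hR hB
    rw [ha] at s2
    exact ⟨_, (s0.trans (disp_halt hP reg inp w.out (by simpa [tagOf, enc] using s2) s6)).mono
      (le_trans (by omega) (hq B)), hlH, rfl⟩

end Pool.Agent.Lib.MP_80ff63_lc
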