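import Pool.Agent.Lib.MP_80ff63_lc.Block

/-!
A polynomial time transducer acting on a random access memory is simulated by one program.
-/

set_option linter.unusedSimpArgs false

namespace Pool.Agent.Lib.MP_80ff63_lc

open Function Pool.Agent.Shared N487b59b3 N68a2faeb PolyTime

/-- Addresses. -/
abbrev Adr : Type := List ℕ

/-- Stored values; `[]` is the content of an unwritten cell. -/
abbrev Val : Type := List (List ℕ)

/-- Actions: read a cell, write a cell, output a number. -/
abbrev Act : Type := Adr ⊕ (Adr × Val) ⊕ ℕ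

/-- Memory and output so far. -/
structure World : Type where
  mem : Adr → Val
  out : List ℕ

/-- The answer to an action and the new world. -/
def doAct : Act → World → Val × World
  | .inl a, w => (w.mem a, w)
  | .inr (.inl p), w => ([], ⟨update w.mem p.1 p.2, w.out⟩)
  | .inr (.inr n), w => ([], ⟨w.mem, w.out ++ [n]⟩)

/-- The stack holding the input in unary. -/
def unary (st : List Bool) (x : List ℕ) : List Bool :=
  x.foldl (fun st a => false :: (List.replicate a true ++ st)) st

theorem length_unary (st : List Bool) (x : List ℕ) :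
    (unary st x).length = st.length + x.sum + x.length := by
  induction x generalizing st with
  | nil => simp [unary]
  | cons a x ih =>
    have := ih (false :: (List.replicate a true ++ st))
    simp only [unary, List.foldl_cons, List.length_cons, List.length_append,
      List.length_replicate, List.sum_cons] at this ⊢
    omega

/-- The control part of the program. -/
def ctl (L : Fin 23 → ℕ) (entry H C : ℕ) : Fin 23 → Instr :=
  ![.const 4 1 (L 1), .const 7 C (L 2), .read 1 (L 3) (L 9), .jz 1 (L 7) (L 4),
    .add 0 0 4 (L 5), .add 0 0 0 (L 6), .sub 1 1 4 (L 3), .add 0 0 0 (L 8), .add 0 0 4 (L 2),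
    .add 0 0 0 (L 10), .add 0 0 4 entry, .jz 1 (L 12) (L 15), .add 8 2 7 (L 13),
    .load 1 8 (L 21), .write 3 (L 21), .sub 1 1 4 (L 16), .jz 1 (L 17) (L 19),
    .add 8 2 7 (L 18), .store 8 3 (L 21), .sub 1 1 4 (L 20), .jz 1 (L 14) H,
    .const 2 0 (L 22), .const 3 0 entry]

section control

variable {P : List Instr} {L : Fin 23 → ℕ} {entry H C : ℕ}

theorem read_inner (hP : ∀ i, P[L i]? = some (ctl L entry H C i)) (n a : ℕ) (st : List Bool)
    (hn : st.length + a + 1 ≤ n) (reg : ℕ → ℕ) (inp out : List ℕ) (h0 : reg 0 = enc st)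
    (h1 : reg 1 = a) (h4 : reg 4 = 1) :
    Seg P ⟨L 3, reg, inp, out⟩
      ⟨L 2, update (update reg 1 0) 0 (enc (false :: (List.replicate a true ++ st))), inp, out⟩
      ((a + 1) * (4 * (2 * n + 7))) := by
  induction a generalizing st reg with
  | zero =>
    have hl := enc_lt' (show st.length ≤ n by omega)
    have s1 : (enc st).size ≤ n + 3 := size_le_of_lt (by omega)
    have s2 : (enc st + enc st).size ≤ n + 3 := size_le_of_lt (by omega)
    refine Seg.cons (hP 3) ?_ (B' := 3 * (2 * n + 7)) ?_
    swap
    · simp only [ctl, instrCost, Matrix.cons_val, h1, Nat.size_zero]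
      omega
    simp only [ctl, exec, Matrix.cons_val, h1, if_true]
    refine Seg.cons (hP 7) ?_ (B' := 2 * (2 * n + 7)) ?_
    swap
    · simp only [ctl, instrCost, Matrix.cons_val, h0]
      omega
    simp only [ctl, exec, Matrix.cons_val, h0]
    refine Seg.cons (hP 8) ?_ (B' := 0) ?_
    swap
    · simp only [ctl, instrCost, Matrix.cons_val, update_self,
        update_of_ne (show (4 : ℕ) ≠ 0 by omega), h4, Nat.size_one]
      omega
    simp only [ctl, exec, Matrix.cons_val, update_self, update_idem,
      update_of_ne (show (4 : ℕ) ≠ 0 by omega), h4]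
    have e : update reg 1 0 = reg := by rw [← h1, update_eq_self]
    rw [e, show enc st + enc st + 1 = enc (false :: (List.replicate 0 true ++ st)) by
      simp [enc]; omega]
    exact Seg.refl _ _
  | succ a ih =>
    have hl := enc_lt' (show st.length ≤ n by omega)
    have s1 : (enc st).size ≤ n + 3 := size_le_of_lt (by omega)
    have s2 : (enc st + 1).size ≤ n + 3 := size_le_of_lt (by omega)
    have s3 : (a + 1).size ≤ n := (Nat.size_le.2 Nat.lt_two_pow_self).trans (by omega)
    refine Seg.cons (hP 3) ?_ (B' := 3 * (2 * n + 7) + (a + 1) * (4 * (2 * n + 7))) ?_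
    swap
    · simp only [ctl, instrCost, Matrix.cons_val, h1]
      rw [add_mul (a + 1) 1]
      omega
    simp only [ctl, exec, Matrix.cons_val, h1, if_neg (Nat.succ_ne_zero a)]
    refine Seg.cons (hP 4) ?_ (B' := 2 * (2 * n + 7) + (a + 1) * (4 * (2 * n + 7))) ?_
    swap
    · simp only [ctl, instrCost, Matrix.cons_val, h0, h4, Nat.size_one]
      omega
    simp only [ctl, exec, Matrix.cons_val, h0, h4]
    refine Seg.cons (hP 5) ?_ (B' := 1 * (2 * n + 7) + (a + 1) * (4 * (2 * n + 7))) ?_
    swap
    · simp only [ctl, instrCost, Matrix.cons_val, update_self]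
      omega
    simp only [ctl, exec, Matrix.cons_val, update_self, update_idem]
    refine Seg.cons (hP 6) ?_ (B' := (a + 1) * (4 * (2 * n + 7))) ?_
    swap
    · simp only [ctl, instrCost, Matrix.cons_val, update_of_ne (show (4 : ℕ) ≠ 0 by omega),
        update_of_ne (show (1 : ℕ) ≠ 0 by omega), h1, h4, Nat.size_one]
      omega
    simp only [ctl, exec, Matrix.cons_val, update_of_ne (show (4 : ℕ) ≠ 0 by omega),
      update_of_ne (show (1 : ℕ) ≠ 0 by omega), h1, h4, Nat.add_sub_cancel]
    have := ih (true :: st) (by simp only [List.length_cons]; omega)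
      (update (update reg 0 (enc st + 1 + (enc st + 1))) 1 a)
      (by rw [update_of_ne (by omega), update_self, enc]; simp; omega) (update_self _ _ _)
      (by rw [update_of_ne (by omega), update_of_ne (by omega), h4])
    have e : update (update (update (update reg 0 (enc st + 1 + (enc st + 1))) 1 a) 1 0) 0
        (enc (false :: (List.replicate a true ++ true :: st))) =
        update (update reg 1 0) 0 (enc (false :: (List.replicate (a + 1) true ++ st))) := by
      rw [List.replicate_succ', List.append_assoc, List.singleton_append]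
      funext r
      simp only [update_apply]
      split_ifs <;> rfl
    rw [e] at this
    exact this

theorem read_outer (hP : ∀ i, P[L i]? = some (ctl L entry H C i)) (n : ℕ) (x : List ℕ)
    (st : List Bool) (hn : st.length + x.sum + x.length ≤ n) (reg : ℕ → ℕ) (out : List ℕ)
    (h0 : reg 0 = enc st) (h4 : reg 4 = 1) :
    Seg P ⟨L 2, reg, x, out⟩ ⟨L 9, update (update reg 1 0) 0 (enc (unary st x)), [], out⟩
      ((x.sum + x.length + 1) * (5 * (2 * n + 7))) := by
  induction x generalizing st reg with
  | nil =>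
    refine Seg.cons (hP 2) ?_ (B' := 0) ?_
    swap
    · simp only [ctl, instrCost, Matrix.cons_val, List.headD_nil, Nat.size_zero, List.sum_nil,
        List.length_nil]
      omega
    simp only [ctl, exec, Matrix.cons_val, List.headD_nil, if_true, List.tail_nil, unary,
      List.foldl_nil]
    have e : update (update reg 1 0) 0 (enc st) = update reg 1 0 := by
      rw [← h0, ← update_of_ne (show (0 : ℕ) ≠ 1 by omega) 0 reg, update_eq_self]
    rw [e]
    exact Seg.refl _ _
  | cons a x ih =>
    simp only [List.sum_cons, List.length_cons] at hn ⊢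
    have s3 : a.size ≤ n := (Nat.size_le.2 Nat.lt_two_pow_self).trans (by omega)
    refine Seg.cons (hP 2) ?_
      (B' := (a + 1) * (4 * (2 * n + 7)) + (x.sum + x.length + 1) * (5 * (2 * n + 7))) ?_
    swap
    · simp only [ctl, instrCost, Matrix.cons_val, List.headD_cons]
      nlinarith
    simp only [ctl, exec, Matrix.cons_val, List.headD_cons, List.tail_cons,
      if_neg (List.cons_ne_nil a x)]
    refine (read_inner hP n a st (by omega) _ x out
      (by rw [update_of_ne (by omega), h0]) (update_self _ _ _)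
      (by rw [update_of_ne (by omega), h4])).trans ?_
    have := ih (false :: (List.replicate a true ++ st))
      (by simp only [List.length_cons, List.length_append, List.length_replicate]; omega)
      (update (update (update reg 1 a) 1 0) 0 (enc (false :: (List.replicate a true ++ st))))
      (update_self _ _ _)
      (by rw [update_of_ne (by omega), update_of_ne (by omega), update_of_ne (by omega), h4])
    have e : update (update (update (update (update reg 1 a) 1 0) 0
        (enc (false :: (List.replicate a true ++ st)))) 1 0) 0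
        (enc (unary (false :: (List.replicate a true ++ st)) x)) =
        update (update reg 1 0) 0 (enc (unary st (a :: x))) := by
      funext r
      simp only [update_apply]
      split_ifs <;> rfl
    rw [e] at this
    exact this

theorem read_all (hP : ∀ i, P[L i]? = some (ctl L entry H C i)) (x : List ℕ) :
    Seg P ⟨L 0, fun _ => 0, x, []⟩
      ⟨entry, update (update (update (fun _ => 0) 4 1) 7 C) 0 (enc (false :: unary [] x)), [], []⟩
      (C + 3 + ((unary [] x).length + 3) * (5 * (2 * (unary [] x).length + 7))) := by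
  set n := (unary [] x).length with hn
  have hn' : x.sum + x.length = n := by rw [hn, length_unary]; simp
  have hl := enc_lt' (show (unary [] x).length ≤ n by omega)
  have s1 : (enc (unary [] x)).size ≤ n + 3 := size_le_of_lt (by omega)
  have s2 : (enc (unary [] x) + enc (unary [] x)).size ≤ n + 3 := size_le_of_lt (by omega)
  have s3 : C.size ≤ C := Nat.size_le.2 Nat.lt_two_pow_self
  refine Seg.cons (hP 0) ?_ (B' := C + 1 + (n + 3) * (5 * (2 * n + 7))) ?_
  swap
  · simp only [ctl, instrCost, Matrix.cons_val, Nat.size_one]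
    omega
  simp only [ctl, exec, Matrix.cons_val]
  refine Seg.cons (hP 1) ?_ (B' := (n + 3) * (5 * (2 * n + 7))) ?_
  swap
  · simp only [ctl, instrCost, Matrix.cons_val]
    omega
  simp only [ctl, exec, Matrix.cons_val]
  refine ((read_outer hP n x [] (by simp; omega) _ [] (by simp [enc]) (by simp)).trans
    (B' := 2 * (2 * n + 7)) ?_).mono (by rw [hn']; nlinarith)
  refine Seg.cons (hP 9) ?_ (B' := 1 * (2 * n + 7)) ?_
  swap
  · simp only [ctl, instrCost, Matrix.cons_val, update_self]
    omega
  simp only [ctl, exec, Matrix.cons_val, update_self, update_idem]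
  refine Seg.cons (hP 10) ?_ (B' := 0) ?_
  swap
  · simp [ctl, instrCost]
    omega
  simp only [ctl, exec, Matrix.cons_val, update_self, update_idem]
  have e : update (update (update (update (fun _ => 0) 4 1) 7 C) 1 0) 0
      (enc (unary [] x) + enc (unary [] x) + update (update (update (update (fun _ : ℕ => 0) 4 1) 7 C) 1 0)
        0 (enc (unary [] x) + enc (unary [] x)) 4) =
      update (update (update (fun _ => 0) 4 1) 7 C) 0 (enc (false :: unary [] x)) := by
    funext r
    simp only [update_apply, enc]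
    split_ifs <;> simp_all
    omega
  rw [e]
  exact Seg.refl _ _

theorem disp_clean (hP : ∀ i, P[L i]? = some (ctl L entry H C i)) (reg : ℕ → ℕ)
    (inp out : List ℕ) :
    Seg P ⟨L 21, reg, inp, out⟩ ⟨entry, update (update reg 2 0) 3 0, inp, out⟩ 2 := by
  refine Seg.cons (hP 21) (Seg.cons (hP 22) (B := 1) (B' := 0) ?_ ?_) ?_
  · simp only [ctl, exec, Matrix.cons_val]
    exact Seg.refl _ _
  · simp [ctl, instrCost]
  · simp [ctl, instrCost]

theorem disp_read (hP : ∀ i, P[L i]? = some (ctl L entry H C i)) (hC : 10 ≤ C) (Z : ℕ)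
    (reg : ℕ → ℕ) (inp out : List ℕ) (h1 : reg 1 = 0) (h7 : reg 7 = C)
    (s1 : (reg 2).size ≤ Z) (s2 : C.size ≤ Z) (s3 : (reg 2 + C).size ≤ Z)
    (s4 : (reg (reg 2 + C)).size ≤ Z) :
    Seg P ⟨L 11, reg, inp, out⟩
      ⟨entry, update (update (update (update reg 8 (reg 2 + C)) 1 (reg (reg 2 + C))) 2 0) 3 0,
        inp, out⟩ (9 * (2 * Z + 5)) := by
  refine Seg.cons (hP 11) ?_ (B' := 8 * (2 * Z + 5)) ?_
  swap
  · simp only [ctl, instrCost, Matrix.cons_val, h1, Nat.size_zero]
    omega
  simp only [ctl, exec, Matrix.cons_val, h1, if_true]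
  refine Seg.cons (hP 12) ?_ (B' := 7 * (2 * Z + 5)) ?_
  swap
  · simp only [ctl, instrCost, Matrix.cons_val, h7]
    omega
  simp only [ctl, exec, Matrix.cons_val, h7]
  refine Seg.cons (hP 13) ?_ (B' := 2) ?_
  swap
  · simp only [ctl, instrCost, Matrix.cons_val, update_self,
      update_of_ne (show reg 2 + C ≠ 8 by omega)]
    omega
  simp only [ctl, exec, Matrix.cons_val, update_self, update_of_ne (show reg 2 + C ≠ 8 by omega)]
  exact disp_clean hP _ _ _

theorem disp_write (hP : ∀ i, P[L i]? = some (ctl L entry H C i)) (hC : 10 ≤ C) (Z : ℕ)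
    (reg : ℕ → ℕ) (inp out : List ℕ) (h1 : reg 1 = 1) (h4 : reg 4 = 1) (h7 : reg 7 = C)
    (s1 : (reg 2).size ≤ Z) (s2 : C.size ≤ Z) (s3 : (reg 2 + C).size ≤ Z)
    (s4 : (reg 3).size ≤ Z) :
    Seg P ⟨L 11, reg, inp, out⟩
      ⟨entry, update (update (update (update (update reg 1 0) 8 (reg 2 + C)) (reg 2 + C) (reg 3))
        2 0) 3 0, inp, out⟩ (9 * (2 * Z + 5)) := by
  refine Seg.cons (hP 11) ?_ (B' := 8 * (2 * Z + 5)) ?_
  swap
  · simp only [ctl, instrCost, Matrix.cons_val, h1, Nat.size_one]
    omega
  simp only [ctl, exec, Matrix.cons_val, h1, if_neg (Nat.one_ne_zero)]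
  refine Seg.cons (hP 15) ?_ (B' := 7 * (2 * Z + 5)) ?_
  swap
  · simp only [ctl, instrCost, Matrix.cons_val, h1, h4, Nat.size_one]
    omega
  simp only [ctl, exec, Matrix.cons_val, h1, h4, Nat.sub_self]
  refine Seg.cons (hP 16) ?_ (B' := 6 * (2 * Z + 5)) ?_
  swap
  · simp only [ctl, instrCost, Matrix.cons_val, update_self, Nat.size_zero]
    omega
  simp only [ctl, exec, Matrix.cons_val, update_self, if_true]
  refine Seg.cons (hP 17) ?_ (B' := 5 * (2 * Z + 5)) ?_
  swap
  · simp only [ctl, instrCost, Matrix.cons_val, update_of_ne (show (2 : ℕ) ≠ 1 by omega),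
      update_of_ne (show (7 : ℕ) ≠ 1 by omega), h7]
    omega
  simp only [ctl, exec, Matrix.cons_val, update_of_ne (show (2 : ℕ) ≠ 1 by omega),
    update_of_ne (show (7 : ℕ) ≠ 1 by omega), h7]
  refine Seg.cons (hP 18) ?_ (B' := 2) ?_
  swap
  · simp only [ctl, instrCost, Matrix.cons_val, update_self,
      update_of_ne (show (3 : ℕ) ≠ 1 by omega), update_of_ne (show (3 : ℕ) ≠ 8 by omega)]
    omega
  simp only [ctl, exec, Matrix.cons_val, update_self,
    update_of_ne (show (3 : ℕ) ≠ 1 by omega), update_of_ne (show (3 : ℕ) ≠ 8 by omega)]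
  exact disp_clean hP _ _ _

theorem size_two : Nat.size 2 = 2 := by decide

theorem size_three : Nat.size 3 = 2 := by decide

theorem disp_out (hP : ∀ i, P[L i]? = some (ctl L entry H C i)) (Z : ℕ)
    (reg : ℕ → ℕ) (inp out : List ℕ) (h1 : reg 1 = 2) (h4 : reg 4 = 1)
    (s4 : (reg 3).size ≤ Z) :
    Seg P ⟨L 11, reg, inp, out⟩
      ⟨entry, update (update (update reg 1 0) 2 0) 3 0, inp, out ++ [reg 3]⟩
      (9 * (2 * Z + 5)) := by
  refine Seg.cons (hP 11) ?_ (B' := 8 * (2 * Z + 5)) ?_
  swap
  · simp only [ctl, instrCost, Matrix.cons_val, h1, size_two]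
    omega
  simp only [ctl, exec, Matrix.cons_val, h1, if_neg (show (2 : ℕ) ≠ 0 by omega)]
  refine Seg.cons (hP 15) ?_ (B' := 7 * (2 * Z + 5)) ?_
  swap
  · simp only [ctl, instrCost, Matrix.cons_val, h1, h4, Nat.size_one, size_two]
    omega
  simp only [ctl, exec, Matrix.cons_val, h1, h4, show 2 - 1 = 1 by omega]
  refine Seg.cons (hP 16) ?_ (B' := 6 * (2 * Z + 5)) ?_
  swap
  · simp only [ctl, instrCost, Matrix.cons_val, update_self, Nat.size_one]
    omega
  simp only [ctl, exec, Matrix.cons_val, update_self, if_neg (Nat.one_ne_zero)]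
  refine Seg.cons (hP 19) ?_ (B' := 5 * (2 * Z + 5)) ?_
  swap
  · simp only [ctl, instrCost, Matrix.cons_val, update_self,
      update_of_ne (show (4 : ℕ) ≠ 1 by omega), h4, Nat.size_one]
    omega
  simp only [ctl, exec, Matrix.cons_val, update_self, update_idem,
    update_of_ne (show (4 : ℕ) ≠ 1 by omega), h4, Nat.sub_self]
  refine Seg.cons (hP 20) ?_ (B' := 4 * (2 * Z + 5)) ?_
  swap
  · simp only [ctl, instrCost, Matrix.cons_val, update_self, Nat.size_zero]
    omega
  simp only [ctl, exec, Matrix.cons_val, update_self, if_true]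
  refine Seg.cons (hP 14) ?_ (B' := 2) ?_
  swap
  · simp only [ctl, instrCost, Matrix.cons_val, update_of_ne (show (3 : ℕ) ≠ 1 by omega)]
    omega
  simp only [ctl, exec, Matrix.cons_val, update_of_ne (show (3 : ℕ) ≠ 1 by omega)]
  exact disp_clean hP _ _ _

theorem disp_halt (hP : ∀ i, P[L i]? = some (ctl L entry H C i))
    (reg : ℕ → ℕ) (inp out : List ℕ) (h1 : reg 1 = 3) (h4 : reg 4 = 1) :
    Seg P ⟨L 11, reg, inp, out⟩ ⟨H, update reg 1 1, inp, out⟩ 45 := by
  refine Seg.cons (hP 11) ?_ (B' := 40) ?_
  swap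
  · simp only [ctl, instrCost, Matrix.cons_val, h1, size_three]
    omega
  simp only [ctl, exec, Matrix.cons_val, h1, if_neg (show (3 : ℕ) ≠ 0 by omega)]
  refine Seg.cons (hP 15) ?_ (B' := 35) ?_
  swap
  · simp only [ctl, instrCost, Matrix.cons_val, h1, h4, Nat.size_one, size_three]
    omega
  simp only [ctl, exec, Matrix.cons_val, h1, h4, show 3 - 1 = 2 by omega]
  refine Seg.cons (hP 16) ?_ (B' := 30) ?_
  swap
  · simp only [ctl, instrCost, Matrix.cons_val, update_self, size_two]
    omega
  simp only [ctl, exec, Matrix.cons_val, update_self, if_neg (show (2 : ℕ) ≠ 0 by omega)]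
  refine Seg.cons (hP 19) ?_ (B' := 25) ?_
  swap
  · simp only [ctl, instrCost, Matrix.cons_val, update_self,
      update_of_ne (show (4 : ℕ) ≠ 1 by omega), h4, Nat.size_one, size_two]
    omega
  simp only [ctl, exec, Matrix.cons_val, update_self, update_idem,
    update_of_ne (show (4 : ℕ) ≠ 1 by omega), h4, show 2 - 1 = 1 by omega]
  refine Seg.cons (hP 20) ?_ (B' := 0) ?_
  swap
  · simp only [ctl, instrCost, Matrix.cons_val, update_self, Nat.size_one]
    omega
  simp only [ctl, exec, Matrix.cons_val, update_self, if_neg (Nat.one_ne_zero)]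
  exact Seg.refl _ _

end control

/-- Numbering the labels of a finite flow chart. -/
theorem exists_numbering {Λ : Type} [Finite Λ] (s : Λ) (δ : (Option Λ → ℕ) → Λ → Instr) :
    ∃ (P : List Instr) (lab : Option Λ → ℕ), lab (some s) = 0 ∧
      (∀ l, P[lab (some l)]? = some (δ lab l)) ∧ P[lab none]? = none := by
  obtain ⟨N, ⟨e₀⟩⟩ := Finite.exists_equiv_fin Λ
  have hN : 0 < N := Fin.pos (e₀ s)
  let e : Λ ≃ Fin N := e₀.trans (Equiv.swap (e₀ s) ⟨0, hN⟩)
  let lab : Option Λ → ℕ := fun o => o.elim N (fun l => e l)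
  refine ⟨List.ofFn (fun i => δ lab (e.symm i)), lab, by simp [lab, e], fun l => ?_, ?_⟩
  · simp [lab]
  · simp [lab]

/-- The tag of an action. -/
def tagOf (o : Option Act) : List Bool :=
  o.elim [false, false] (Sum.elim (fun _ => []) (Sum.elim (fun _ => [false]) (fun _ => [true])))

/-- The reversed address of an action. -/
def adrRev (o : Option Act) : List Bool :=
  o.elim [] (Sum.elim (fun a => (bitEncode a).reverse)
    (Sum.elim (fun p => (bitEncode p.1).reverse) (fun _ => [])))

/-- The reversed value of an action. -/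
def valRev (o : Option Act) : List Bool :=
  o.elim [] (Sum.elim (fun _ => []) (Sum.elim (fun p => (bitEncode p.2).reverse) unencRev))

theorem pt_tagOf : IsPolyTime tagOf := by
  unfold tagOf
  fun_prop

theorem pt_adrRev : IsPolyTime adrRev := by
  unfold adrRev
  fun_prop

theorem pt_unencRev : IsPolyTime unencRev := by
  unfold unencRev
  exact ((IsPolyTime.id'.add_one).bits.reverse).tail

theorem pt_valRev : IsPolyTime valRev := by
  have := pt_unencRev
  unfold valRev
  fun_prop

theorem impl_trans {τ : Type} [N487b59b3 τ] {Φ : Val × τ → Option Act × τ} (hΦ : IsPolyTime Φ) :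
    Impl (fun y : Val × τ => bsize y) (fun y => mk4 (bitEncode y.2) (bitEncode y.1) [] [])
      (fun y => mk4 (bitEncode (Φ y).2) (tagOf (Φ y).1).reverse (adrRev (Φ y).1).reverse
        (valRev (Φ y).1).reverse) := by
  have h1 := pt_tagOf
  have h2 := pt_adrRev
  have h3 := pt_valRev
  have hΨ : IsPolyTime (fun y : Val × τ => (Raw.mk (tagOf (Φ y).1), Raw.mk (adrRev (Φ y).1),
      Raw.mk (valRev (Φ y).1), (Φ y).2)) := by fun_prop
  have hb : Bdd (fun y : Val × τ => bsize y) (fun y => bsize (Raw.mk (tagOf (Φ y).1),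
      Raw.mk (adrRev (Φ y).1), Raw.mk (valRev (Φ y).1), (Φ y).2)) := hΨ.pt.bdd
  have hv : Bdd (fun y : Val × τ => bsize y) (fun y => (bitEncode y.1).length) :=
    (Bdd.refl _).mono (fun y => by rw [bsize_prod]; unfold bsize; omega)
  have i1 : Impl (fun y : Val × τ => bsize y) (fun y => mk4 (bitEncode y.2) (bitEncode y.1) [] [])
      (fun y => mk4 (false :: bitEncode y.2) (bitEncode y.1) [] []) :=
    (Impl.push 0 false).congr_right (fun y => by simp)
  have i2 : Impl (fun y : Val × τ => bsize y)
      (fun y => mk4 (false :: bitEncode y.2) (bitEncode y.1) [] [])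
      (fun y => mk4 (false :: bitEncode y.2) [] (bitEncode y.1).reverse []) :=
    (Impl.move (a := 1) (b := 2) (by decide) hv).congr_right (fun y => by simp)
  have i3 : Impl (fun y : Val × τ => bsize y)
      (fun y => mk4 (false :: bitEncode y.2) [] (bitEncode y.1).reverse [])
      (fun y => mk4 (bitEncode y) [] [] []) :=
    (Impl.moveDbl (a := 2) (b := 0) (by decide) (hv.mono (fun y => by simp))).congr_right
      (fun y => by simp [enc_prod, SM.delimit_append])
  have i4 : Impl (fun y : Val × τ => bsize y) (fun y => mk4 (bitEncode y) [] [] [])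
      (fun y => mk4 (bitEncode (Raw.mk (tagOf (Φ y).1),
        Raw.mk (adrRev (Φ y).1), Raw.mk (valRev (Φ y).1), (Φ y).2)) [] [] []) :=
    (Impl.call hΨ.pt 0 (fun _ => rfl) (Bdd.refl _)).congr_right (fun y => by simp)
  have i5 : Impl (fun y : Val × τ => bsize y)
      (fun y => mk4 (bitEncode (Raw.mk (tagOf (Φ y).1),
        Raw.mk (adrRev (Φ y).1), Raw.mk (valRev (Φ y).1), (Φ y).2)) [] [] [])
      (fun y => mk4 (bitEncode (Raw.mk (adrRev (Φ y).1), Raw.mk (valRev (Φ y).1), (Φ y).2))
        (tagOf (Φ y).1).reverse [] []) :=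
    (Impl.parse (a := 0) (t := 1) (by decide) hb).congr_right
      (fun y => by simp [enc_pair, enc_raw])
  have i6 : Impl (fun y : Val × τ => bsize y)
      (fun y => mk4 (bitEncode (Raw.mk (adrRev (Φ y).1), Raw.mk (valRev (Φ y).1), (Φ y).2))
        (tagOf (Φ y).1).reverse [] [])
      (fun y => mk4 (bitEncode (Raw.mk (valRev (Φ y).1), (Φ y).2))
        (tagOf (Φ y).1).reverse (adrRev (Φ y).1).reverse []) :=
    (Impl.parse (a := 0) (t := 2) (by decide) (hb.mono (fun y => by
      rw [bsize_pair]; simp only [mk4_0]; unfold bsize; omega))).congr_right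
      (fun y => by simp [enc_pair, enc_raw])
  have i7 : Impl (fun y : Val × τ => bsize y)
      (fun y => mk4 (bitEncode (Raw.mk (valRev (Φ y).1), (Φ y).2))
        (tagOf (Φ y).1).reverse (adrRev (Φ y).1).reverse [])
      (fun y => mk4 (bitEncode (Φ y).2) (tagOf (Φ y).1).reverse (adrRev (Φ y).1).reverse
        (valRev (Φ y).1).reverse) :=
    (Impl.parse (a := 0) (t := 3) (by decide) (hb.mono (fun y => by
      rw [bsize_pair, bsize_pair]; simp only [mk4_0]; unfold bsize; omega))).congr_right
      (fun y => by simp [enc_pair, enc_raw])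
  exact i1.seq (i2.seq (i3.seq (i4.seq (i5.seq (i6.seq i7)))))

end Pool.Agent.Lib.MP_80ff63_lc
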