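import Pool.Agent.Lib.MP_80ff63_lc.Algo

/-!
Permutations and words as lists.
-/

set_option linter.unusedSimpArgs false

namespace Pool.Agent.Lib.MP_80ff63_lc

open Function Pool.Agent.Shared N487b59b3 N68a2faeb PolyTime Prog

variable {m k : ℕ}

/-- A permutation as a list. -/
def encP (g : Equiv.Perm (Fin m)) : List ℕ := List.ofFn fun i => (g i : ℕ)

/-- A word as a list. -/
def encW (w : Fin m → Fin k) : List ℕ := List.ofFn fun i => (w i : ℕ)

/-- The action on words: the letter at `i` moves to `g i`. -/
def wact (g : Equiv.Perm (Fin m)) (w : Fin m → Fin k) : Fin m → Fin k := fun j => w (g⁻¹ j)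

@[simp] theorem wact_one (w : Fin m → Fin k) : wact 1 w = w := rfl

theorem wact_mul (g h : Equiv.Perm (Fin m)) (w : Fin m → Fin k) :
    wact (g * h) w = wact g (wact h w) := by
  funext j
  simp [wact]

@[simp] theorem wact_apply (g : Equiv.Perm (Fin m)) (w : Fin m → Fin k) (i : Fin m) :
    wact g w (g i) = w i := by simp [wact]

@[simp] theorem wact_inv_wact (g : Equiv.Perm (Fin m)) (w : Fin m → Fin k) :
    wact g⁻¹ (wact g w) = w := by rw [← wact_mul]; simp

@[simp] theorem wact_wact_inv (g : Equiv.Perm (Fin m)) (w : Fin m → Fin k) :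
    wact g (wact g⁻¹ w) = w := by rw [← wact_mul]; simp

theorem wact_update (g : Equiv.Perm (Fin m)) (w : Fin m → Fin k) (p : Fin m) (c : Fin k) :
    wact g (update w p c) = update (wact g w) (g p) c := by
  funext j
  obtain ⟨i, rfl⟩ := g.surjective j
  by_cases e : i = p
  · subst e; simp
  · rw [wact_apply, update_of_ne e, update_of_ne (g.injective.ne e), wact_apply]

theorem app_ofFn (f : Fin m → ℕ) (i : Fin m) : app (List.ofFn f) i = f i := by
  unfold app
  rw [List.drop_eq_getElem_cons (by simp)]
  simp

theorem map_range_eq {β : Type} (f : ℕ → β) :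
    (List.range m).map f = List.ofFn fun i : Fin m => f i := by
  apply List.ext_getElem <;> simp

@[simp] theorem app_encP (g : Equiv.Perm (Fin m)) (i : Fin m) : app (encP g) i = g i :=
  app_ofFn _ i

@[simp] theorem app_encW (w : Fin m → Fin k) (i : Fin m) : app (encW w) i = w i :=
  app_ofFn _ i

theorem encW_injective : Injective (encW : (Fin m → Fin k) → List ℕ) := by
  intro v w h
  have := List.ofFn_injective h
  funext i
  exact Fin.ext (congrFun this i)

theorem encP_one : encP (1 : Equiv.Perm (Fin m)) = List.range m := by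
  have := map_range_eq (m := m) id
  rw [List.map_id] at this
  rw [this]
  rfl

theorem range_eq_map : List.range m = (List.finRange m).map Fin.val := by simp

theorem mulL_enc (g h : Equiv.Perm (Fin m)) :
    mulL (List.range m) (encP g) (encP h) = encP (g * h) := by
  unfold mulL
  rw [map_range_eq, encP]
  simp [encP, app_ofFn]

theorem preL_enc (g : Equiv.Perm (Fin m)) (j : Fin m) :
    preL (List.range m) (encP g) j = (g⁻¹ j : Fin m) := by
  unfold preL
  rcases e : (List.range m).filter (fun i => decide (app (encP g) i = j)) with _ | ⟨c, cs⟩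
  · exact absurd (by simp) (List.filter_eq_nil_iff.1 e (g⁻¹ j : Fin m) (by simp))
  · have hc : c ∈ (List.range m).filter (fun i => decide (app (encP g) i = j)) := by rw [e]; simp
    obtain ⟨h1, h2⟩ := List.mem_filter.1 hc
    have h3 := app_encP g ⟨c, List.mem_range.1 h1⟩
    have h4 : g ⟨c, List.mem_range.1 h1⟩ = j := Fin.ext (by rw [← h3]; simpa using h2)
    simp [← h4]

theorem invL_enc (g : Equiv.Perm (Fin m)) : invL (List.range m) (encP g) = encP g⁻¹ := by
  unfold invL
  rw [map_range_eq]
  simp only [preL_enc]
  rfl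

theorem actL_enc (g : Equiv.Perm (Fin m)) (w : Fin m → Fin k) :
    actL (List.range m) (encP g) (encW w) = encW (wact g w) := by
  unfold actL
  rw [map_range_eq]
  simp only [preL_enc, app_encW]
  rfl

theorem updL_enc (w : Fin m → Fin k) (p : Fin m) (c : Fin k) :
    updL (List.range m) (encW w) p c = encW (update w p c) := by
  unfold updL
  rw [map_range_eq, encW, encW]
  congr 1
  funext i
  by_cases e : i = p
  · subst e; simp
  · rw [if_neg (fun h => e (Fin.ext h)), update_of_ne e, app_ofFn]

theorem hom_enc : Ops.Hom (permOps m) (listOps (List.range m)) encP Fin.val where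
  mul := mulL_enc
  inv := invL_enc
  ap := app_encP
  one := encP_one.symm
  lt _ _ := rfl
  pts := range_eq_map
  inj := Fin.val_injective

theorem clip_of {v : Val} (h1 : v.length ≤ m * m + 1)
    (h2 : ∀ x ∈ v, x.length ≤ m ∧ ∀ y ∈ x, y ≤ m + k) : clip k (List.range m) v = v := by
  unfold clip
  rw [List.length_range, List.take_of_length_le h1]
  refine (List.map_congr_left fun x hx => ?_).trans (List.map_id _)
  rw [List.take_of_length_le (h2 x hx).1]
  exact (List.map_congr_left fun y hy => min_eq_left ((h2 x hx).2 y hy)).trans (List.map_id _)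

theorem clip_perms {L : List (Equiv.Perm (Fin m))} (h : L.length ≤ m * m + 1) :
    clip k (List.range m) (L.map encP) = L.map encP := by
  refine clip_of (by simpa using h) fun x hx => ?_
  obtain ⟨g, -, rfl⟩ := List.mem_map.1 hx
  refine ⟨by simp [encP], fun y hy => ?_⟩
  obtain ⟨i, rfl⟩ := (List.mem_ofFn' _ _).1 hy
  have := (g i).2
  simp only
  omega

theorem clip_word (w : Fin m → Fin k) : clip k (List.range m) [encW w] = [encW w] := by
  refine clip_of (by simp) fun x hx => ?_
  obtain rfl : x = encW w := by simpa using hx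
  refine ⟨by simp [encW], fun y hy => ?_⟩
  obtain ⟨i, rfl⟩ := (List.mem_ofFn' _ _).1 hy
  have := (w i).2
  simp only
  omega

variable [NeZero k]

/-- The letters before position `n`. -/
def cut (w : Fin m → Fin k) (n : ℕ) : Fin m → Fin k := fun i => if (i : ℕ) < n then w i else 0

theorem cutL_enc (w : Fin m → Fin k) (n : ℕ) :
    cutL (List.range m) (encW w) n = encW (cut w (n + 1)) := by
  unfold cutL
  rw [map_range_eq, encW, encW]
  congr 1
  funext i
  simp only [cut, Nat.lt_succ_iff, app_ofFn]
  split_ifs <;> simp

theorem zeroL_enc : zeroL (List.range m) = encW (0 : Fin m → Fin k) := by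
  unfold zeroL
  rw [map_range_eq, encW]
  simp

theorem updL_enc_zero (w : Fin m → Fin k) (p : Fin m) :
    updL (List.range m) (encW w) p 0 = encW (update w p 0) := by
  rw [← updL_enc]
  simp

/-- The number of nonzero letters. -/
def lev (w : Fin m → Fin k) : ℕ := (Finset.univ.filter fun i => w i ≠ 0).card

theorem lev_wact (g : Equiv.Perm (Fin m)) (w : Fin m → Fin k) : lev (wact g w) = lev w := by
  unfold lev
  symm
  exact Finset.card_bij (fun i _ => g i) (by simp) (by simp) (fun j hj =>
    ⟨g⁻¹ j, by simpa [wact] using hj, by simp⟩)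

theorem lev_update {w : Fin m → Fin k} {p : Fin m} {c : Fin k} (hp : w p = 0) (hc : c ≠ 0) :
    lev (update w p c) = lev w + 1 := by
  unfold lev
  rw [← Finset.card_insert_of_notMem (a := p) (by simp [hp])]
  congr 1
  ext i
  by_cases e : i = p
  · subst e; simp [hc]
  · simp [e]

theorem lev_cut_le (w : Fin m → Fin k) (n : ℕ) : lev (cut w n) ≤ lev w := by
  refine Finset.card_le_card fun i hi => ?_
  simp only [cut, Finset.mem_filter, Finset.mem_univ, true_and] at hi ⊢
  intro h
  simp [h] at hi

theorem cut_succ (w : Fin m → Fin k) (i : Fin m) :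
    cut w (i + 1) = update (cut w i) i (w i) := by
  funext j
  by_cases e : j = i
  · subst e; simp [cut]
  · have : (j : ℕ) ≠ i := fun h => e (Fin.ext h)
    rw [update_of_ne e]
    simp only [cut]
    congr 1
    simp only [eq_iff_iff]
    omega

theorem cut_self (w : Fin m → Fin k) (i : Fin m) : cut w i i = 0 := by simp [cut]

theorem cut_zero (w : Fin m → Fin k) : cut w 0 = 0 := by
  funext j
  simp [cut]

theorem cut_all (w : Fin m → Fin k) : cut w m = w := by
  funext j
  simp [cut]

end Pool.Agent.Lib.MP_80ff63_lc
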